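import Pool.Agent.FHT.Defs

/-!
# FHT.MT: the recursion of Marcus and Tardos

PROOF. Strong induction on `n`. If `n < s`: `|A| ≤ n^2 ≤ s n`. Let `n ≥ s ≥ 2` and `n' = (n + s - 1)/s`; then
`s n' ≤ n + s - 1 ≤ 2 n - 1`, so `n' < n`, and `i/s < n'` for `i < n`. Let `A'` be the image of `A` under
`(i,j) ↦ (i/s, j/s)`; `A' ⊆ range n' × range n'`. `A'` does not contain `σ`: from a copy `(a i, b (σ i)) ∈ A'` choose
`(ρ_i, κ_i) ∈ A` in the block; the rows `ρ_i` and the columns `j ↦ κ_(σ⁻¹ j)` are strictly increasing since their block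
indices are. So `|A'| ≤ 8 s W n'` by induction.
A block (nonempty fibre of `A → A'`) is wide if it has ones in at least `ℓ` columns. In each block column `J < n'` there
are fewer than `W` wide blocks: otherwise let `I_0 < ... < I_(W-1)` be `W` of their block rows and
`B = {(x, j) : x < W, j < s, (i, J s + j) ∈ A for some i with i/s = I_x}`; by `h1` `B` contains `σ`, and, choosing for each
one of the copy an actual `i`, so does `A`. Similarly a block is tall if it has ones in at least `ℓ` rows; in each block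
row there are fewer than `W` tall blocks, by `h2` for the transposed matrix (`A` contains `σ` iff its transpose contains
`σ.symm`). A block which is neither wide nor tall has at most `ℓ^2` ones, any block has at most `s^2`. So
`|A| ≤ ℓ^2 |A'| + 2 n' W s^2`, and `ℓ^2 (8 s W n') ≤ 2 s W (s n') ≤ 4 s W n` (`4 ℓ^2 ≤ s`, `s n' ≤ 2 n`),
`2 n' W s^2 = 2 s W (s n') ≤ 4 s W n`. Total `≤ 8 s W n`.
-/

namespace FHT

open Finset

private def MT_blk (s : ℕ) (z : ℕ × ℕ) : ℕ × ℕ := (z.1 / s, z.2 / s)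

private theorem MT_lt {s a b : ℕ} (h : a / s < b / s) : a < b := by
  by_contra hc
  exact absurd (Nat.div_le_div_right (c := s) (not_lt.1 hc)) (not_le.2 h)

private theorem MT_image {k s : ℕ} {σ : Equiv.Perm (Fin k)} {A : Finset (ℕ × ℕ)}
    (h : Cont (A.image (MT_blk s)) σ) : Cont A σ := by
  obtain ⟨a, b, ha, hb, hab⟩ := h
  have h1 : ∀ i, ∃ z ∈ A, MT_blk s z = (a i, b (σ i)) := fun i => by
    simpa using mem_image.1 (hab i)
  choose z hz hzb using h1
  have e1 : ∀ i, (z i).1 / s = a i := fun i => congrArg Prod.fst (hzb i)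
  have e2 : ∀ i, (z i).2 / s = b (σ i) := fun i => congrArg Prod.snd (hzb i)
  refine ⟨fun i => (z i).1, fun j => (z (σ.symm j)).2, ?_, ?_, ?_⟩
  · intro i j hij
    apply MT_lt (s := s)
    rw [e1, e1]
    exact ha hij
  · intro i j hij
    apply MT_lt (s := s)
    rw [e2, e2, Equiv.apply_symm_apply, Equiv.apply_symm_apply]
    exact hb hij
  · intro i
    simp only [Equiv.symm_apply_apply]
    exact hz i

/-- the columns of a block -/
private def MT_cols (s : ℕ) (A : Finset (ℕ × ℕ)) (I J : ℕ) : Finset ℕ :=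
  (A.filter fun z => MT_blk s z = (I, J)).image Prod.snd

private theorem MT_wide {k s ℓ W : ℕ} (σ : Equiv.Perm (Fin k)) (hs : 0 < s)
    (h1 : ∀ B : Finset (ℕ × ℕ), B ⊆ range W ×ˢ range s →
      (∀ x < W, ℓ ≤ (B.filter fun z => z.1 = x).card) → Cont B σ)
    (A : Finset (ℕ × ℕ)) (hA : ¬ Cont A σ) (m J : ℕ) :
    ((range m).filter fun I => ℓ ≤ (MT_cols s A I J).card).card ≤ W := by
  by_contra hc
  rw [not_le] at hc
  apply hA
  obtain ⟨T, hT⟩ : ∃ T : Finset ℕ, T = (range m).filter fun I => ℓ ≤ (MT_cols s A I J).card :=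
    ⟨_, rfl⟩
  rw [← hT] at hc
  have hcard : W ≤ T.card := hc.le
  have hmem := fun x : Fin W => T.orderEmbOfCardLe_mem hcard x
  obtain ⟨e, he⟩ : ∃ e : Fin W ↪o ℕ, e = T.orderEmbOfCardLe hcard := ⟨_, rfl⟩
  rw [← he] at hmem
  obtain ⟨idx, hidx⟩ : ∃ idx : ℕ → ℕ, ∀ x (hx : x < W), idx x = e ⟨x, hx⟩ :=
    ⟨fun x => if hx : x < W then e ⟨x, hx⟩ else 0, fun x hx => dif_pos hx⟩
  classical
  obtain ⟨B, hB⟩ : ∃ B : Finset (ℕ × ℕ), B = (range W ×ˢ range s).filter
      (fun z => ∃ i, i / s = idx z.1 ∧ (i, s * J + z.2) ∈ A) := ⟨_, rfl⟩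
  have hBc : Cont B σ := by
    apply h1
    · rw [hB]
      exact filter_subset _ _
    · intro x hx
      have hw : ℓ ≤ (MT_cols s A (idx x) J).card := by
        have := hmem ⟨x, hx⟩
        rw [hT, mem_filter] at this
        rw [hidx x hx]
        exact this.2
      refine hw.trans ?_
      refine card_le_card_of_injOn (fun c => (x, c % s)) ?_ ?_
      · intro c hcc
        have hcc' := mem_coe.1 hcc
        rw [MT_cols, mem_image] at hcc'
        obtain ⟨z, hz, rfl⟩ := hcc'
        rw [mem_filter] at hz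
        obtain ⟨hzA, hzb⟩ := hz
        have e1 : z.1 / s = idx x := congrArg Prod.fst hzb
        have e2 : z.2 / s = J := congrArg Prod.snd hzb
        have e3 : s * J + z.2 % s = z.2 := by
          rw [← e2]
          exact Nat.div_add_mod _ _
        apply mem_coe.2
        rw [hB]
        simp only [mem_filter, mem_product, mem_range, and_true]
        refine ⟨⟨hx, Nat.mod_lt _ hs⟩, z.1, e1, ?_⟩
        rw [e3]
        exact hzA
      · intro c hcc d hdd hcd
        have hcJ : ∀ c ∈ (MT_cols s A (idx x) J : Set ℕ), s * J + c % s = c := by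
          intro c hcc
          have hcc' := mem_coe.1 hcc
          rw [MT_cols, mem_image] at hcc'
          obtain ⟨z, hz, rfl⟩ := hcc'
          rw [mem_filter] at hz
          have e2 : z.2 / s = J := congrArg Prod.snd hz.2
          rw [← e2]
          exact Nat.div_add_mod _ _
        have e4 : c % s = d % s := congrArg Prod.snd hcd
        rw [← hcJ c hcc, ← hcJ d hdd, e4]
  obtain ⟨a, b, ha, hb, hab⟩ := hBc
  have h2 : ∀ i, ∃ r, a i < W ∧ r / s = idx (a i) ∧ (r, s * J + b (σ i)) ∈ A := by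
    intro i
    have := hab i
    rw [hB] at this
    simp only [mem_filter, mem_product, mem_range] at this
    obtain ⟨⟨h3, -⟩, r, h4, h5⟩ := this
    exact ⟨r, h3, h4, h5⟩
  choose r hr1 hr2 hr3 using h2
  refine ⟨r, fun j => s * J + b j, ?_, ?_, hr3⟩
  · intro i j hij
    apply MT_lt (s := s)
    rw [hr2, hr2, hidx _ (hr1 i), hidx _ (hr1 j)]
    apply e.strictMono
    exact ha hij
  · intro i j hij
    have := hb hij
    show s * J + b i < s * J + b j
    omega

private theorem MT_swap {k : ℕ} {σ : Equiv.Perm (Fin k)} {A : Finset (ℕ × ℕ)}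
    (h : Cont (A.image Prod.swap) σ.symm) : Cont A σ := by
  obtain ⟨a, b, ha, hb, hab⟩ := h
  refine ⟨b, a, hb, ha, fun j => ?_⟩
  have h1 := hab (σ j)
  rw [Equiv.symm_apply_apply, mem_image] at h1
  obtain ⟨z, hz, hzb⟩ := h1
  have : z = (b j, a (σ j)) := by
    rw [← Prod.swap_swap z, hzb]
    rfl
  rw [← this]
  exact hz

private theorem MT_fib {s ℓ : ℕ} (hs : 0 < s) (A : Finset (ℕ × ℕ)) (y : ℕ × ℕ) :
    (A.filter fun z => MT_blk s z = y).card ≤ ℓ ^ 2 +
      (if ℓ ≤ (MT_cols s A y.1 y.2).card then s ^ 2 else 0) +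
      (if ℓ ≤ (MT_cols s (A.image Prod.swap) y.2 y.1).card then s ^ 2 else 0) := by
  have hall : (A.filter fun z => MT_blk s z = y).card ≤ s ^ 2 := by
    have : (A.filter fun z => MT_blk s z = y).card ≤ (range s ×ˢ range s).card := by
      refine card_le_card_of_injOn (fun z => (z.1 % s, z.2 % s)) ?_ ?_
      · intro z _
        apply mem_coe.2
        simp only [mem_product, mem_range]
        exact ⟨Nat.mod_lt _ hs, Nat.mod_lt _ hs⟩
      · intro z hz w hw hzw
        have hz' := (mem_filter.1 (mem_coe.1 hz)).2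
        have hw' := (mem_filter.1 (mem_coe.1 hw)).2
        have a1 : z.1 / s = w.1 / s := congrArg Prod.fst (hz'.trans hw'.symm)
        have a2 : z.2 / s = w.2 / s := congrArg Prod.snd (hz'.trans hw'.symm)
        have b1 : z.1 % s = w.1 % s := congrArg Prod.fst hzw
        have b2 : z.2 % s = w.2 % s := congrArg Prod.snd hzw
        apply Prod.ext
        · rw [← Nat.div_add_mod z.1 s, a1, b1, Nat.div_add_mod]
        · rw [← Nat.div_add_mod z.2 s, a2, b2, Nat.div_add_mod]
    rw [card_product, card_range] at this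
    rw [pow_two]
    exact this
  by_cases h1 : ℓ ≤ (MT_cols s A y.1 y.2).card
  · rw [if_pos h1]
    omega
  by_cases h2 : ℓ ≤ (MT_cols s (A.image Prod.swap) y.2 y.1).card
  · rw [if_pos h2]
    omega
  rw [if_neg h1, if_neg h2]
  have h3 : (A.filter fun z => MT_blk s z = y) ⊆
      (MT_cols s (A.image Prod.swap) y.2 y.1) ×ˢ (MT_cols s A y.1 y.2) := by
    intro z hz
    rw [mem_product]
    rw [mem_filter] at hz
    constructor
    · rw [MT_cols, mem_image]
      refine ⟨z.swap, ?_, rfl⟩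
      rw [mem_filter]
      refine ⟨mem_image_of_mem _ hz.1, ?_⟩
      rw [← hz.2]
      rfl
    · rw [MT_cols, mem_image]
      exact ⟨z, mem_filter.2 ⟨hz.1, hz.2⟩, rfl⟩
  have h4 := card_le_card h3
  rw [card_product] at h4
  have h5 : (MT_cols s (A.image Prod.swap) y.2 y.1).card * (MT_cols s A y.1 y.2).card ≤ ℓ * ℓ :=
    Nat.mul_le_mul (by omega) (by omega)
  rw [pow_two]
  omega

theorem mt {k s ℓ W : ℕ} (σ : Equiv.Perm (Fin k)) (hs : 2 ≤ s) (hℓ : 4 * ℓ ^ 2 ≤ s) (hW : 1 ≤ W)
    (h1 : ∀ B : Finset (ℕ × ℕ), B ⊆ range W ×ˢ range s →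
      (∀ x < W, ℓ ≤ (B.filter fun z => z.1 = x).card) → Cont B σ)
    (h2 : ∀ B : Finset (ℕ × ℕ), B ⊆ range W ×ˢ range s →
      (∀ x < W, ℓ ≤ (B.filter fun z => z.1 = x).card) → Cont B σ.symm) :
    ∀ (n : ℕ) (A : Finset (ℕ × ℕ)), A ⊆ range n ×ˢ range n → ¬ Cont A σ →
      A.card ≤ 8 * s * W * n := by
  intro n
  induction n using Nat.strong_induction_on with
  | _ n ih =>
  intro A hA hAc
  have hs0 : 0 < s := by omega
  by_cases hn : n < s
  · have hc := card_le_card hA
    rw [card_product, card_range] at hc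
    have a1 : n * n ≤ s * n := Nat.mul_le_mul_right _ hn.le
    have a2 : s * n ≤ 8 * s * W * n := by
      have : s ≤ 8 * s * W := by
        calc s = s * 1 := by ring
          _ ≤ s * W := Nat.mul_le_mul_left _ hW
          _ ≤ 8 * (s * W) := Nat.le_mul_of_pos_left _ (by norm_num)
          _ = 8 * s * W := by ring
      exact Nat.mul_le_mul_right _ this
    exact hc.trans (a1.trans a2)
  rw [not_lt] at hn
  obtain ⟨m, hm⟩ : ∃ m, m = (n + s - 1) / s := ⟨_, rfl⟩
  have hdm := Nat.div_add_mod (n + s - 1) s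
  have hmod := Nat.mod_lt (n + s - 1) hs0
  rw [← hm] at hdm
  have hsm1 : s * m ≤ n + s - 1 := by omega
  have hsm2 : n ≤ s * m := by omega
  have hmn : m < n := by
    by_contra hc
    rw [not_lt] at hc
    have h3 : s * n ≤ s * m := Nat.mul_le_mul_left _ hc
    obtain ⟨s', rfl⟩ : ∃ s', s = s' + 2 := ⟨s - 2, by omega⟩
    obtain ⟨n', rfl⟩ : ∃ n', n = n' + 2 := ⟨n - 2, by omega⟩
    have h4 : (s' + 2) * (n' + 2) = s' * n' + 2 * s' + 2 * n' + 4 := by ring
    omega
  have hdiv : ∀ i < n, i / s < m := by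
    intro i hi
    rw [Nat.div_lt_iff_lt_mul hs0, Nat.mul_comm]
    omega
  have hA' : A.image (MT_blk s) ⊆ range m ×ˢ range m := by
    intro y hy
    obtain ⟨z, hz, rfl⟩ := mem_image.1 hy
    have := hA hz
    rw [mem_product, mem_range, mem_range] at this
    rw [mem_product, mem_range, mem_range]
    exact ⟨hdiv _ this.1, hdiv _ this.2⟩
  have hind := ih m hmn (A.image (MT_blk s)) hA' (fun h => hAc (MT_image h))
  -- counting
  have hcard : A.card = ∑ y ∈ A.image (MT_blk s), (A.filter fun z => MT_blk s z = y).card :=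
    card_eq_sum_card_image _ _
  have hsum : A.card ≤ ∑ y ∈ A.image (MT_blk s), (ℓ ^ 2 +
      (if ℓ ≤ (MT_cols s A y.1 y.2).card then s ^ 2 else 0) +
      (if ℓ ≤ (MT_cols s (A.image Prod.swap) y.2 y.1).card then s ^ 2 else 0)) := by
    rw [hcard]
    exact sum_le_sum fun y _ => MT_fib hs0 A y
  rw [sum_add_distrib, sum_add_distrib, sum_const, smul_eq_mul] at hsum
  have hwide : ∑ y ∈ A.image (MT_blk s),
      (if ℓ ≤ (MT_cols s A y.1 y.2).card then s ^ 2 else 0) ≤ m * (W * s ^ 2) := by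
    calc ∑ y ∈ A.image (MT_blk s), (if ℓ ≤ (MT_cols s A y.1 y.2).card then s ^ 2 else 0)
        ≤ ∑ y ∈ range m ×ˢ range m,
          (if ℓ ≤ (MT_cols s A y.1 y.2).card then s ^ 2 else 0) :=
          sum_le_sum_of_subset hA'
      _ = ∑ J ∈ range m, ∑ I ∈ range m,
          (if ℓ ≤ (MT_cols s A I J).card then s ^ 2 else 0) := by
          rw [sum_product_right]
      _ ≤ ∑ J ∈ range m, W * s ^ 2 := by
          refine sum_le_sum fun J _ => ?_
          rw [← sum_filter, sum_const, smul_eq_mul]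
          exact Nat.mul_le_mul_right _ (MT_wide σ hs0 h1 A hAc m J)
      _ = m * (W * s ^ 2) := by rw [sum_const, card_range, smul_eq_mul]
  have htall : ∑ y ∈ A.image (MT_blk s),
      (if ℓ ≤ (MT_cols s (A.image Prod.swap) y.2 y.1).card then s ^ 2 else 0) ≤
        m * (W * s ^ 2) := by
    have hAs : ¬ Cont (A.image Prod.swap) σ.symm := fun h => hAc (MT_swap h)
    calc ∑ y ∈ A.image (MT_blk s),
          (if ℓ ≤ (MT_cols s (A.image Prod.swap) y.2 y.1).card then s ^ 2 else 0)
        ≤ ∑ y ∈ range m ×ˢ range m,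
          (if ℓ ≤ (MT_cols s (A.image Prod.swap) y.2 y.1).card then s ^ 2 else 0) :=
          sum_le_sum_of_subset hA'
      _ = ∑ I ∈ range m, ∑ J ∈ range m,
          (if ℓ ≤ (MT_cols s (A.image Prod.swap) J I).card then s ^ 2 else 0) := by
          rw [sum_product]
      _ ≤ ∑ I ∈ range m, W * s ^ 2 := by
          refine sum_le_sum fun I _ => ?_
          rw [← sum_filter, sum_const, smul_eq_mul]
          exact Nat.mul_le_mul_right _ (MT_wide σ.symm hs0 h2 _ hAs m I)
      _ = m * (W * s ^ 2) := by rw [sum_const, card_range, smul_eq_mul]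
  have hsm3 : s * m ≤ 2 * n := by omega
  have f1 : (A.image (MT_blk s)).card * ℓ ^ 2 ≤ 4 * s * W * n := by
    calc (A.image (MT_blk s)).card * ℓ ^ 2 ≤ (8 * s * W * m) * ℓ ^ 2 :=
          Nat.mul_le_mul_right _ hind
      _ = (2 * W * (s * m)) * (4 * ℓ ^ 2) := by ring
      _ ≤ (2 * W * (2 * n)) * s := Nat.mul_le_mul (Nat.mul_le_mul_left _ hsm3) hℓ
      _ = 4 * s * W * n := by ring
  have f2 : m * (W * s ^ 2) ≤ 2 * s * W * n := by
    calc m * (W * s ^ 2) = (s * W) * (s * m) := by ring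
      _ ≤ (s * W) * (2 * n) := Nat.mul_le_mul_left _ hsm3
      _ = 2 * s * W * n := by ring
  calc A.card ≤ 4 * s * W * n + 2 * s * W * n + 2 * s * W * n :=
        hsum.trans (Nat.add_le_add (Nat.add_le_add f1 (hwide.trans f2)) (htall.trans f2))
    _ = 8 * s * W * n := by ring

end FHT
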