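import Pool.Agent.FHT.Defs

/-!
# FHT.Loc: local entropy inequalities

PROOF. `negMulLog x = - x log x`.
`loc_mi`: let `r_i`, `c_j` be the row and column sums, `P` the sum. If `P = 0` all entries are `0` and both
sides are `0`. Let `P > 0`. The right side is `∑_ij f_ij (log f_ij + log P - log r_i - log c_j)`, where only the
`(i,j)` with `f_ij > 0` contribute; for these `r_i, c_j > 0` and
`log (f_ij P/(r_i c_j)) ≥ 1 - r_i c_j/(f_ij P)` (`Real.one_sub_inv_le_log_of_pos`), so the term is at least
`f_ij - r_i c_j/P`. As `∑ f_ij = P = ∑_all r_i c_j/P`, the sum is at least the sum of `r_i c_j/P` over the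
`(i,j)` with `f_ij = 0`.
`loc_max`: `∑ r_i (log P - log r_i)`; for `r_i > 0`: `log (P/r_i) = log D + log (P/(D r_i))
≤ log D + P/(D r_i) - 1`, so the term is at most `r_i log D + P/D - r_i` (this also holds, as `P/D ≥ 0`,
when `r_i = 0`), and the sum is `P log D + P - P`.
`loc_small`: for `r_i > τ P` the term is at most `r_i log (1/τ)`; for `r_i ≤ τ P` it is at most
`r_i log D + P/D` as above; the sum is at most `P log(1/τ) + (∑_{small} r_i) log D + P`.
-/

namespace FHT

open Finset

private theorem Loc_term {x P r c : ℝ} (hx : 0 < x) (hP : 0 < P) (hr : 0 < r) (hc : 0 < c) :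
    x - r * c / P ≤ x * (Real.log x + Real.log P - Real.log r - Real.log c) := by
  have h1 : Real.log (x * P / (r * c)) = Real.log x + Real.log P - Real.log r - Real.log c := by
    rw [Real.log_div (by positivity) (by positivity), Real.log_mul hx.ne' hP.ne',
      Real.log_mul hr.ne' hc.ne']
    ring
  have h2 := Real.one_sub_inv_le_log_of_pos (show 0 < x * P / (r * c) by positivity)
  rw [h1] at h2
  have h3 : x - r * c / P = x * (1 - (x * P / (r * c))⁻¹) := by
    field_simp
  rw [h3]
  exact mul_le_mul_of_nonneg_left h2 hx.le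

private theorem Loc_term2 {D : ℕ} (hD : 1 ≤ D) {r P : ℝ} (hr : 0 ≤ r) (hrP : r ≤ P) :
    r * (Real.log P - Real.log r) ≤ r * Real.log D + P / D - r := by
  have hD' : (0 : ℝ) < D := by exact_mod_cast hD
  rcases hr.eq_or_lt with h0 | h0
  · have hP : 0 ≤ P := hr.trans hrP
    rw [← h0]
    simp only [zero_mul, zero_add, sub_zero]
    positivity
  · have hP : 0 < P := h0.trans_le hrP
    have h1 : Real.log (P / (D * r)) = Real.log P - Real.log D - Real.log r := by
      rw [Real.log_div hP.ne' (by positivity), Real.log_mul hD'.ne' h0.ne']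
      ring
    have h2 := Real.log_le_sub_one_of_pos (show 0 < P / (D * r) by positivity)
    rw [h1] at h2
    have h3 := mul_le_mul_of_nonneg_left h2 h0.le
    have h4 : r * (P / (D * r) - 1) = P / D - r := by
      field_simp
    rw [h4] at h3
    linarith

theorem loc_mi {D : ℕ} (f : ℕ → ℕ → ℝ) (hf : ∀ i j, 0 ≤ f i j) {P : ℝ}
    (hP : ∑ i ∈ range D, ∑ j ∈ range D, f i j = P) :
    ∑ z ∈ (range D ×ˢ range D).filter (fun z => f z.1 z.2 = 0),
        (∑ j ∈ range D, f z.1 j) * (∑ i ∈ range D, f i z.2) / P ≤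
      ∑ i ∈ range D, Real.negMulLog (∑ j ∈ range D, f i j) +
        ∑ j ∈ range D, Real.negMulLog (∑ i ∈ range D, f i j) - Real.negMulLog P -
        ∑ i ∈ range D, ∑ j ∈ range D, Real.negMulLog (f i j) := by
  set r : ℕ → ℝ := fun i => ∑ j ∈ range D, f i j with hr
  set c : ℕ → ℝ := fun j => ∑ i ∈ range D, f i j with hc
  have hr0 : ∀ i, 0 ≤ r i := fun i => sum_nonneg fun j _ => hf i j
  have hc0 : ∀ j, 0 ≤ c j := fun j => sum_nonneg fun i _ => hf i j
  have hfr : ∀ i, ∀ j ∈ range D, f i j ≤ r i := fun i j hj =>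
    single_le_sum (f := fun j => f i j) (fun j _ => hf i j) hj
  have hfc : ∀ i ∈ range D, ∀ j, f i j ≤ c j := fun i hi j =>
    single_le_sum (f := fun i => f i j) (fun i _ => hf i j) hi
  have hrP : ∀ i ∈ range D, r i ≤ P := fun i hi => by
    rw [← hP]
    exact single_le_sum (f := fun i => r i) (fun i _ => hr0 i) hi
  have hsr : ∑ i ∈ range D, r i = P := hP
  have hsc : ∑ j ∈ range D, c j = P := by
    rw [← hP]
    exact sum_comm
  have e1 : ∑ i ∈ range D, Real.negMulLog (r i) =
      ∑ i ∈ range D, ∑ j ∈ range D, -(f i j * Real.log (r i)) := by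
    refine sum_congr rfl fun i _ => ?_
    rw [Real.negMulLog, sum_neg_distrib, ← sum_mul]
    ring
  have e2 : ∑ j ∈ range D, Real.negMulLog (c j) =
      ∑ i ∈ range D, ∑ j ∈ range D, -(f i j * Real.log (c j)) := by
    rw [sum_comm]
    refine sum_congr rfl fun j _ => ?_
    rw [Real.negMulLog, sum_neg_distrib, ← sum_mul]
    ring
  have e3 : Real.negMulLog P = ∑ i ∈ range D, ∑ j ∈ range D, -(f i j * Real.log P) := by
    have : ∑ i ∈ range D, ∑ j ∈ range D, -(f i j * Real.log P) =
        -((∑ i ∈ range D, ∑ j ∈ range D, f i j) * Real.log P) := by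
      rw [sum_mul, ← sum_neg_distrib]
      refine sum_congr rfl fun i _ => ?_
      rw [sum_mul, ← sum_neg_distrib]
    rw [this, hP, Real.negMulLog]
    ring
  have e4 : ∑ i ∈ range D, ∑ j ∈ range D, Real.negMulLog (f i j) =
      ∑ i ∈ range D, ∑ j ∈ range D, -(f i j * Real.log (f i j)) := by
    refine sum_congr rfl fun i _ => sum_congr rfl fun j _ => ?_
    rw [Real.negMulLog]
    ring
  have e5 : ∑ z ∈ (range D ×ˢ range D).filter (fun z => f z.1 z.2 = 0), r z.1 * c z.2 / P =
      ∑ i ∈ range D, ∑ j ∈ range D, if f i j = 0 then r i * c j / P else 0 := by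
    rw [sum_filter, sum_product]
  have e6 : ∑ i ∈ range D, ∑ j ∈ range D, (f i j - r i * c j / P) = 0 := by
    have h1 : ∀ i ∈ range D, ∑ j ∈ range D, (f i j - r i * c j / P) = r i - r i * (P / P) := by
      intro i _
      rw [sum_sub_distrib]
      congr 1
      calc ∑ j ∈ range D, r i * c j / P = ∑ j ∈ range D, r i / P * c j :=
            sum_congr rfl fun j _ => by ring
        _ = r i / P * P := by rw [← mul_sum, hsc]
        _ = r i * (P / P) := by ring
    rw [sum_congr rfl h1, sum_sub_distrib, ← sum_mul, hsr]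
    rcases eq_or_ne P 0 with h2 | h2
    · rw [h2]
      simp
    · rw [div_self h2]
      ring
  change ∑ z ∈ (range D ×ˢ range D).filter (fun z => f z.1 z.2 = 0), r z.1 * c z.2 / P ≤
    ∑ i ∈ range D, Real.negMulLog (r i) + ∑ j ∈ range D, Real.negMulLog (c j) -
      Real.negMulLog P - ∑ i ∈ range D, ∑ j ∈ range D, Real.negMulLog (f i j)
  rw [e5, e1, e2, e3, e4]
  have hmain : ∑ i ∈ range D, ∑ j ∈ range D, ((if f i j = 0 then r i * c j / P else 0) +
      (f i j - r i * c j / P)) ≤ ∑ i ∈ range D, ∑ j ∈ range D,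
      (f i j * (Real.log (f i j) + Real.log P - Real.log (r i) - Real.log (c j))) := by
    refine sum_le_sum fun i hi => sum_le_sum fun j hj => ?_
    rcases (hf i j).eq_or_lt with h0 | h0
    · rw [if_pos h0.symm, ← h0]
      simp
    · rw [if_neg h0.ne', zero_add]
      have h1 : 0 < r i := h0.trans_le (hfr i j hj)
      exact Loc_term h0 (h1.trans_le (hrP i hi)) h1 (h0.trans_le (hfc i hi j))
  have e7 : ∑ i ∈ range D, ∑ j ∈ range D,
      (f i j * (Real.log (f i j) + Real.log P - Real.log (r i) - Real.log (c j))) =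
      ∑ i ∈ range D, ∑ j ∈ range D, -(f i j * Real.log (r i)) +
      ∑ i ∈ range D, ∑ j ∈ range D, -(f i j * Real.log (c j)) -
      ∑ i ∈ range D, ∑ j ∈ range D, -(f i j * Real.log P) -
      ∑ i ∈ range D, ∑ j ∈ range D, -(f i j * Real.log (f i j)) := by
    rw [← sum_add_distrib, ← sum_sub_distrib, ← sum_sub_distrib]
    refine sum_congr rfl fun i _ => ?_
    rw [← sum_add_distrib, ← sum_sub_distrib, ← sum_sub_distrib]
    refine sum_congr rfl fun j _ => ?_
    ring
  rw [← e7]
  refine le_trans (le_of_eq ?_) hmain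
  have e8 : ∑ i ∈ range D, ∑ j ∈ range D, ((if f i j = 0 then r i * c j / P else 0) +
      (f i j - r i * c j / P)) = (∑ i ∈ range D, ∑ j ∈ range D,
      (if f i j = 0 then r i * c j / P else 0)) +
      ∑ i ∈ range D, ∑ j ∈ range D, (f i j - r i * c j / P) := by
    rw [← sum_add_distrib]
    refine sum_congr rfl fun i _ => ?_
    rw [← sum_add_distrib]
  rw [e8, e6, add_zero]

private theorem Loc_expand {D : ℕ} (r : ℕ → ℝ) {P : ℝ} (hP : ∑ i ∈ range D, r i = P) :
    ∑ i ∈ range D, Real.negMulLog (r i) - Real.negMulLog P =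
      ∑ i ∈ range D, r i * (Real.log P - Real.log (r i)) := by
  have h1 : Real.negMulLog P = ∑ i ∈ range D, -(r i * Real.log P) := by
    rw [sum_neg_distrib, ← sum_mul, hP, Real.negMulLog]
    ring
  rw [h1, ← sum_sub_distrib]
  refine sum_congr rfl fun i _ => ?_
  rw [Real.negMulLog]
  ring

theorem loc_max {D : ℕ} (hD : 1 ≤ D) (r : ℕ → ℝ) (hr : ∀ i, 0 ≤ r i) {P : ℝ}
    (hP : ∑ i ∈ range D, r i = P) :
    ∑ i ∈ range D, Real.negMulLog (r i) - Real.negMulLog P ≤ P * Real.log D := by
  have hD' : (0 : ℝ) < D := by exact_mod_cast hD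
  have hrP : ∀ i ∈ range D, r i ≤ P := fun i hi => by
    rw [← hP]
    exact single_le_sum (f := fun i => r i) (fun i _ => hr i) hi
  rw [Loc_expand r hP]
  refine (sum_le_sum fun i hi => Loc_term2 hD (hr i) (hrP i hi)).trans (le_of_eq ?_)
  rw [sum_sub_distrib, sum_add_distrib, ← sum_mul, hP, sum_const, card_range, nsmul_eq_mul]
  field_simp
  ring

theorem loc_small {D : ℕ} (hD : 1 ≤ D) (r : ℕ → ℝ) (hr : ∀ i, 0 ≤ r i) {P : ℝ}
    (hP : ∑ i ∈ range D, r i = P) {τ : ℝ} (hτ : 0 < τ) (hτ1 : τ ≤ 1) :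
    ∑ i ∈ range D, Real.negMulLog (r i) - Real.negMulLog P ≤
      (∑ i ∈ (range D).filter (fun i => r i ≤ τ * P), r i) * Real.log D +
        P * (1 + Real.log (1 / τ)) := by
  have hD' : (0 : ℝ) < D := by exact_mod_cast hD
  have hP0 : 0 ≤ P := hP ▸ sum_nonneg fun i _ => hr i
  have hrP : ∀ i ∈ range D, r i ≤ P := fun i hi => by
    rw [← hP]
    exact single_le_sum (f := fun i => r i) (fun i _ => hr i) hi
  have hl : 0 ≤ Real.log (1 / τ) := Real.log_nonneg (by rw [le_div_iff₀ hτ]; linarith)
  rw [Loc_expand r hP]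
  have hmain : ∑ i ∈ range D, r i * (Real.log P - Real.log (r i)) ≤
      ∑ i ∈ range D, ((if r i ≤ τ * P then r i * Real.log D else 0) + P / D +
        r i * Real.log (1 / τ)) := by
    refine sum_le_sum fun i hi => ?_
    have h3 : 0 ≤ r i * Real.log (1 / τ) := mul_nonneg (hr i) hl
    have h4 : 0 ≤ P / D := by positivity
    split_ifs with h1
    · have h2 := Loc_term2 hD (hr i) (hrP i hi)
      linarith [hr i]
    · push Not at h1
      have h5 : 0 < r i := lt_of_le_of_lt (by positivity) h1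
      have h6 : 0 < P := h5.trans_le (hrP i hi)
      have h7 : Real.log P - Real.log (r i) ≤ Real.log (1 / τ) := by
        rw [← Real.log_div h6.ne' h5.ne']
        refine Real.log_le_log (by positivity) ?_
        rw [div_le_div_iff₀ h5 hτ]
        linarith
      have h8 := mul_le_mul_of_nonneg_left h7 h5.le
      linarith
  refine hmain.trans (le_of_eq ?_)
  rw [sum_add_distrib, sum_add_distrib, sum_const, card_range, nsmul_eq_mul, ← sum_mul, hP,
    sum_filter, sum_mul]
  have h1 : ∑ i ∈ range D, (if r i ≤ τ * P then r i * Real.log D else 0) =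
      ∑ i ∈ range D, (if r i ≤ τ * P then r i else 0) * Real.log D := by
    refine sum_congr rfl fun i _ => ?_
    split_ifs <;> simp
  have h2 : (D : ℝ) * (P / D) = P := mul_div_cancel₀ P hD'.ne'
  rw [h1, h2]
  ring

end FHT
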