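import Pool.Agent.FHT.Mg
import Pool.Agent.FHT.Loc

/-!
# FHT.Win: a window with small mutual information

PROOF. Let `N = 16 n` and, for `S ≤ N`, `T ≤ n`,
`e(S,T) = ∑_{u < D^S} ∑_{v < D^T} negMulLog (mg D p (N-S) (n-T) u v)` (entropy of the first `S` digits of `x` and
the first `T` digits of `y`). Let `S < N`, `T < n`, `a = N-1-S`, `b = n-1-T`, `P = mg (a+1) (b+1) u v`.
With `sum_digits`, `mg_row`, `mg_col`:
`e(S+1,T) - e(S,T) = ∑_{u,v} (∑_i negMulLog (mg a (b+1) (uD+i) v) - negMulLog P)`, similarly for `T`, and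
`I(S,T) := e(S+1,T) + e(S,T+1) - e(S,T) - e(S+1,T+1)` is the sum over `u, v` of the right side of `loc_mi` with
`f i j = mg a b (uD+i) (vD+j)` (row sums `mg a (b+1) (uD+i) v`, column sums `mg (a+1) b u (vD+j)`, total `P`).
Hence `I(S,T) ≥ ∑_{u,v} miss(u,v)/P ≥ 0`, `miss` = the last sum in the statement.
Facts: `e(0,0) = negMulLog 1 = 0`, `e(N,0) ≤ N log D`, `e(0,n) ≤ n log D` (`loc_max` and telescoping, the total
mass is `1`, `mg_total`), `e(N,n) ≥ (16 n + 7n/16) log D` (`hent`, `mg_zero`).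
(1) `∑_{S<N,T<n} I(S,T) = e(N,0) + e(0,n) - e(0,0) - e(N,n) ≤ (9/16) n log D`.
(2) as `I ≥ 0`, `e(N,T) - e(0,T) ≥ e(N,n) - e(0,n) ≥ (15 + 7/16) n log D` for each `T`, and
`e(S,n) - e(S,0) ≥ e(N,n) - e(N,0) ≥ (7/16) n log D` for each `S`.
(3) by `loc_small`, with `S1(u,v)`, `S2(u,v)` the two sums over small atoms in the statement,
`e(S+1,T) - e(S,T) ≤ log D ∑_{u,v} S1 + (1 + log(1/τ)) ≤ log D (∑ S1 + 1/16)`. Summing over `S` and `T`:
`∑_{S,T,u,v} S1 ≥ (15+7/16) n^2 - n^2`, `∑ S2 ≥ 7 n^2 - n^2`.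
(4) if the statement fails, then for all `S, T, u, v` with `P > 0`:
`S1 + S2 - (2n/log D) miss/P ≤ (9/8) P` (`S1, S2 ≤ P`); for `P = 0` both sides are `0`. Summing over everything
(`∑_{u,v} P = 1`): `(14+7/16) n^2 + 6 n^2 - (2n/log D) (9/16) n log D ≤ (9/8) 16 n^2 = 18 n^2`, i.e.
`(19 + 5/16) n^2 ≤ 18 n^2`, a contradiction.
-/

namespace FHT

open Finset

private theorem Win_comb {N n : ℕ} (hN : N = 16 * n) (hn : 1 ≤ n) (E S1 S2 M : ℕ → ℕ → ℝ)
    {L c : ℝ} (hL : 0 < L) (hc : 16 * c ≤ L)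
    (hM0 : ∀ S < N, ∀ T < n, 0 ≤ M S T)
    (hI : ∀ S < N, ∀ T < n, M S T ≤ E (S + 1) T + E S (T + 1) - E S T - E (S + 1) (T + 1))
    (h1 : ∀ S < N, ∀ T < n, E (S + 1) T - E S T ≤ S1 S T * L + c)
    (h2 : ∀ S < N, ∀ T < n, E S (T + 1) - E S T ≤ S2 S T * L + c)
    (h3 : ∀ S < N, E (S + 1) 0 - E S 0 ≤ L) (h4 : ∀ T < n, E 0 (T + 1) - E 0 T ≤ L)
    (h00 : E 0 0 = 0) (hNn : (16 * (n : ℝ) + 7 / 16 * n) * L ≤ E N n)
    (hF : ∀ S < N, ∀ T < n, S1 S T + S2 S T - 2 * n / L * M S T ≤ 9 / 8) : False := by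
  have hn' : (1 : ℝ) ≤ n := by exact_mod_cast hn
  have hN' : (N : ℝ) = 16 * n := by exact_mod_cast hN
  -- the marginal entropies
  have eN0 : E N 0 ≤ 16 * n * L := by
    have h := sum_le_sum (s := range N) (fun S hS => h3 S (mem_range.1 hS))
    rw [sum_range_sub (fun S => E S 0), sum_const, card_range, nsmul_eq_mul, h00, hN'] at h
    linarith
  have e0n : E 0 n ≤ n * L := by
    have h := sum_le_sum (s := range n) (fun T hT => h4 T (mem_range.1 hT))
    rw [sum_range_sub (fun T => E 0 T), sum_const, card_range, nsmul_eq_mul, h00] at h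
    linarith
  -- sums of the mutual informations
  have hrow : ∀ T < n, ∑ S ∈ range N, M S T ≤ (E N T - E 0 T) - (E N (T + 1) - E 0 (T + 1)) := by
    intro T hT
    have h := sum_le_sum (s := range N) (fun S hS => hI S (mem_range.1 hS) T hT)
    have e1 := sum_range_sub (fun S => E S T) N
    have e2 := sum_range_sub (fun S => E S (T + 1)) N
    have e3 : ∑ S ∈ range N, (E (S + 1) T + E S (T + 1) - E S T - E (S + 1) (T + 1)) =
        ∑ S ∈ range N, (E (S + 1) T - E S T) -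
          ∑ S ∈ range N, (E (S + 1) (T + 1) - E S (T + 1)) := by
      rw [← sum_sub_distrib]
      exact sum_congr rfl fun S _ => by ring
    rw [e3, e1, e2] at h
    linarith
  have hcol : ∀ S < N, ∑ T ∈ range n, M S T ≤ (E S n - E S 0) - (E (S + 1) n - E (S + 1) 0) := by
    intro S hS
    have h := sum_le_sum (s := range n) (fun T hT => hI S hS T (mem_range.1 hT))
    have e1 := sum_range_sub (fun T => E S T) n
    have e2 := sum_range_sub (fun T => E (S + 1) T) n
    have e3 : ∑ T ∈ range n, (E (S + 1) T + E S (T + 1) - E S T - E (S + 1) (T + 1)) =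
        ∑ T ∈ range n, (E S (T + 1) - E S T) -
          ∑ T ∈ range n, (E (S + 1) (T + 1) - E (S + 1) T) := by
      rw [← sum_sub_distrib]
      exact sum_congr rfl fun T _ => by ring
    rw [e3, e1, e2] at h
    linarith
  have hall : ∑ S ∈ range N, ∑ T ∈ range n, M S T ≤ 9 / 16 * n * L := by
    have h := sum_le_sum (s := range N) (fun S hS => hcol S (mem_range.1 hS))
    have e1 := sum_range_sub' (fun S => E S n - E S 0) N
    rw [e1] at h
    linarith
  have hA : ∀ T ≤ n, E N n - E 0 n ≤ E N T - E 0 T := by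
    intro T hT
    refine Nat.le_induction (m := T) (P := fun m _ => m ≤ n → E N m - E 0 m ≤ E N T - E 0 T)
      (fun _ => le_rfl) (fun m _ ih hm1 => ?_) n hT le_rfl
    have h1 := hrow m hm1
    have h2 : 0 ≤ ∑ S ∈ range N, M S m := sum_nonneg fun S hS => hM0 S (mem_range.1 hS) m hm1
    have h3 := ih (Nat.le_of_succ_le hm1)
    linarith
  have hB : ∀ S ≤ N, E N n - E N 0 ≤ E S n - E S 0 := by
    intro S hS
    refine Nat.le_induction (m := S) (P := fun m _ => m ≤ N → E m n - E m 0 ≤ E S n - E S 0)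
      (fun _ => le_rfl) (fun m _ ih hm1 => ?_) N hS le_rfl
    have h1 := hcol m hm1
    have h2 : 0 ≤ ∑ T ∈ range n, M m T := sum_nonneg fun T hT => hM0 m hm1 T (mem_range.1 hT)
    have h3 := ih (Nat.le_of_succ_le hm1)
    linarith
  have hS1 : ∀ T ∈ range n, (14 + 7 / 16) * (n : ℝ) ≤ ∑ S ∈ range N, S1 S T := by
    intro T hT
    have hT' := mem_range.1 hT
    have h := sum_le_sum (s := range N) (fun S hS => h1 S (mem_range.1 hS) T hT')
    rw [sum_range_sub (fun S => E S T), sum_add_distrib, ← sum_mul, sum_const, card_range,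
      nsmul_eq_mul, hN'] at h
    have h5 := hA T hT'.le
    have h6 : (n : ℝ) * (16 * c) ≤ n * L := mul_le_mul_of_nonneg_left hc (by linarith)
    have h7 : (14 + 7 / 16) * (n : ℝ) * L ≤ (∑ S ∈ range N, S1 S T) * L := by
      linarith
    exact le_of_mul_le_mul_right h7 hL
  have hS2 : ∀ S ∈ range N, 6 / 16 * (n : ℝ) ≤ ∑ T ∈ range n, S2 S T := by
    intro S hS
    have hS' := mem_range.1 hS
    have h := sum_le_sum (s := range n) (fun T hT => h2 S hS' T (mem_range.1 hT))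
    rw [sum_range_sub (fun T => E S T), sum_add_distrib, ← sum_mul, sum_const, card_range,
      nsmul_eq_mul] at h
    have h5 := hB S hS'.le
    have h6 : (n : ℝ) * (16 * c) ≤ n * L := mul_le_mul_of_nonneg_left hc (by linarith)
    have h7 : 6 / 16 * (n : ℝ) * L ≤ (∑ T ∈ range n, S2 S T) * L := by
      linarith
    exact le_of_mul_le_mul_right h7 hL
  have t1 : (14 + 7 / 16) * (n : ℝ) * n ≤ ∑ S ∈ range N, ∑ T ∈ range n, S1 S T := by
    have h := sum_le_sum hS1
    rw [sum_const, card_range, nsmul_eq_mul] at h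
    rw [sum_comm]
    linarith
  have t2 : 6 * (n : ℝ) * n ≤ ∑ S ∈ range N, ∑ T ∈ range n, S2 S T := by
    have h := sum_le_sum hS2
    rw [sum_const, card_range, nsmul_eq_mul, hN'] at h
    linarith
  have t3 : ∑ S ∈ range N, ∑ T ∈ range n, (S1 S T + S2 S T - 2 * n / L * M S T) ≤
      ∑ S ∈ range N, ∑ T ∈ range n, (9 / 8 : ℝ) :=
    sum_le_sum fun S hS => sum_le_sum fun T hT => hF S (mem_range.1 hS) T (mem_range.1 hT)
  have t4 : ∑ S ∈ range N, ∑ T ∈ range n, (S1 S T + S2 S T - 2 * n / L * M S T) =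
      ∑ S ∈ range N, ∑ T ∈ range n, S1 S T + ∑ S ∈ range N, ∑ T ∈ range n, S2 S T -
        2 * n / L * ∑ S ∈ range N, ∑ T ∈ range n, M S T := by
    rw [mul_sum, ← sum_add_distrib, ← sum_sub_distrib]
    refine sum_congr rfl fun S _ => ?_
    rw [mul_sum, ← sum_add_distrib, ← sum_sub_distrib]
  have t5 : ∑ S ∈ range N, ∑ T ∈ range n, (9 / 8 : ℝ) = 18 * n * n := by
    rw [sum_const, sum_const, card_range, card_range, nsmul_eq_mul, nsmul_eq_mul, hN']
    ring
  have t6 : 2 * (n : ℝ) / L * ∑ S ∈ range N, ∑ T ∈ range n, M S T ≤ 9 / 8 * n * n := by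
    have h := mul_le_mul_of_nonneg_left hall (show 0 ≤ 2 * (n : ℝ) / L by positivity)
    refine h.trans (le_of_eq ?_)
    field_simp
    ring
  rw [t4, t5] at t3
  nlinarith

private noncomputable def Win_E (D : ℕ) (p : ℕ → ℕ → ℝ) (N n S T : ℕ) : ℝ :=
  ∑ u ∈ range (D ^ S), ∑ v ∈ range (D ^ T), Real.negMulLog (mg D p (N - S) (n - T) u v)

private theorem Win_row (D : ℕ) (p : ℕ → ℕ → ℝ) (N n S T : ℕ) :
    Win_E D p N n (S + 1) T = ∑ u ∈ range (D ^ S), ∑ v ∈ range (D ^ T), ∑ i ∈ range D,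
      Real.negMulLog (mg D p (N - (S + 1)) (n - T) (u * D + i) v) := by
  unfold Win_E
  rw [pow_succ, sum_digits]
  exact sum_congr rfl fun u _ => sum_comm

private theorem Win_col (D : ℕ) (p : ℕ → ℕ → ℝ) (N n S T : ℕ) :
    Win_E D p N n S (T + 1) = ∑ u ∈ range (D ^ S), ∑ v ∈ range (D ^ T), ∑ j ∈ range D,
      Real.negMulLog (mg D p (N - S) (n - (T + 1)) u (v * D + j)) := by
  unfold Win_E
  refine sum_congr rfl fun u _ => ?_
  rw [pow_succ, sum_digits]

private theorem Win_both (D : ℕ) (p : ℕ → ℕ → ℝ) (N n S T : ℕ) :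
    Win_E D p N n (S + 1) (T + 1) = ∑ u ∈ range (D ^ S), ∑ v ∈ range (D ^ T), ∑ i ∈ range D,
      ∑ j ∈ range D,
        Real.negMulLog (mg D p (N - (S + 1)) (n - (T + 1)) (u * D + i) (v * D + j)) := by
  unfold Win_E
  rw [pow_succ, sum_digits]
  refine sum_congr rfl fun u _ => ?_
  rw [sum_comm, pow_succ, sum_digits]
  refine sum_congr rfl fun v _ => ?_
  rw [sum_comm]

/-- the sum over the small rows -/
private noncomputable def Win_S1 (D : ℕ) (p : ℕ → ℕ → ℝ) (τ : ℝ) (a b u v : ℕ) : ℝ :=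
  ∑ i ∈ (range D).filter (fun i =>
    mg D p a (b + 1) (u * D + i) v ≤ τ * mg D p (a + 1) (b + 1) u v),
    mg D p a (b + 1) (u * D + i) v

/-- the sum over the small columns -/
private noncomputable def Win_S2 (D : ℕ) (p : ℕ → ℕ → ℝ) (τ : ℝ) (a b u v : ℕ) : ℝ :=
  ∑ j ∈ (range D).filter (fun j =>
    mg D p (a + 1) b u (v * D + j) ≤ τ * mg D p (a + 1) (b + 1) u v),
    mg D p (a + 1) b u (v * D + j)

/-- the product mass of the missing positions -/
private noncomputable def Win_M (D : ℕ) (p : ℕ → ℕ → ℝ) (a b u v : ℕ) : ℝ :=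
  ∑ z ∈ (range D ×ˢ range D).filter (fun z => mg D p a b (u * D + z.1) (v * D + z.2) = 0),
    mg D p a (b + 1) (u * D + z.1) v * mg D p (a + 1) b u (v * D + z.2)

private theorem Win_M_nonneg {D : ℕ} {p : ℕ → ℕ → ℝ} (hp : ∀ x y, 0 ≤ p x y) (a b u v : ℕ) :
    0 ≤ Win_M D p a b u v :=
  sum_nonneg fun _ _ => mul_nonneg (mg_nonneg hp _ _ _ _) (mg_nonneg hp _ _ _ _)

private theorem Win_S1_le {D : ℕ} {p : ℕ → ℕ → ℝ} (hp : ∀ x y, 0 ≤ p x y) (τ : ℝ)
    (a b u v : ℕ) : Win_S1 D p τ a b u v ≤ mg D p (a + 1) (b + 1) u v := by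
  rw [mg_row]
  exact sum_le_sum_of_subset_of_nonneg (filter_subset _ _) fun _ _ _ => mg_nonneg hp _ _ _ _

private theorem Win_S2_le {D : ℕ} {p : ℕ → ℕ → ℝ} (hp : ∀ x y, 0 ≤ p x y) (τ : ℝ)
    (a b u v : ℕ) : Win_S2 D p τ a b u v ≤ mg D p (a + 1) (b + 1) u v := by
  rw [mg_col]
  exact sum_le_sum_of_subset_of_nonneg (filter_subset _ _) fun _ _ _ => mg_nonneg hp _ _ _ _

private theorem Win_local {D n : ℕ} {p : ℕ → ℕ → ℝ} (hn : 1 ≤ n) (hp : ∀ x y, 0 ≤ p x y)
    {τ L : ℝ} (hL : 0 < L) {a b u v : ℕ}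
    (h : ¬ (0 < mg D p (a + 1) (b + 1) u v ∧
      mg D p (a + 1) (b + 1) u v / 8 ≤ Win_S1 D p τ a b u v ∧
      mg D p (a + 1) (b + 1) u v / 8 ≤ Win_S2 D p τ a b u v ∧
      Win_M D p a b u v ≤ L / (2 * n) * mg D p (a + 1) (b + 1) u v ^ 2)) :
    Win_S1 D p τ a b u v + Win_S2 D p τ a b u v -
      2 * n / L * (Win_M D p a b u v / mg D p (a + 1) (b + 1) u v) ≤
        9 / 8 * mg D p (a + 1) (b + 1) u v := by
  have hn' : (1 : ℝ) ≤ n := by exact_mod_cast hn
  have hM := Win_M_nonneg hp (D := D) a b u v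
  have g1 := Win_S1_le hp (D := D) τ a b u v
  have g2 := Win_S2_le hp (D := D) τ a b u v
  have hP0 : 0 ≤ mg D p (a + 1) (b + 1) u v := mg_nonneg hp _ _ _ _
  generalize mg D p (a + 1) (b + 1) u v = P at *
  generalize Win_S1 D p τ a b u v = s at *
  generalize Win_S2 D p τ a b u v = t at *
  generalize Win_M D p a b u v = m at *
  rcases hP0.eq_or_lt with hP | hP
  · subst hP
    simp only [div_zero, mul_zero]
    linarith
  · have hq : 0 ≤ 2 * n / L * (m / P) := by positivity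
    by_cases c1 : P / 8 ≤ s
    · by_cases c2 : P / 8 ≤ t
      · have c3 : L / (2 * n) * P ^ 2 < m := by
          by_contra hcon
          exact h ⟨hP, c1, c2, not_lt.1 hcon⟩
        have c4 : P ≤ 2 * n / L * (m / P) := by
          have e : P = 2 * n / L * (L / (2 * n) * P ^ 2 / P) := by
            field_simp
          calc P = 2 * n / L * (L / (2 * n) * P ^ 2 / P) := e
            _ ≤ 2 * n / L * (m / P) := by gcongr
        linarith
      · push Not at c2
        linarith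
    · push Not at c1
      linarith

private theorem Win_pull {A B : Finset ℕ} {g : ℕ → ℕ → ℝ} (h : ∑ u ∈ A, ∑ v ∈ B, g u v = 1)
    (c : ℝ) : c = ∑ u ∈ A, ∑ v ∈ B, g u v * c := by
  calc c = (∑ u ∈ A, ∑ v ∈ B, g u v) * c := by rw [h, one_mul]
    _ = ∑ u ∈ A, ∑ v ∈ B, g u v * c := by
      rw [sum_mul]
      exact sum_congr rfl fun u _ => sum_mul _ _ _

theorem window {D n : ℕ} (hD : 2 ≤ D) (hn : 1 ≤ n) (p : ℕ → ℕ → ℝ) (hp : ∀ x y, 0 ≤ p x y)
    (hsum : ∑ x ∈ range (D ^ (16 * n)), ∑ y ∈ range (D ^ n), p x y = 1)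
    (hent : (16 * (n : ℝ) + 7 / 16 * n) * Real.log D ≤
      ∑ x ∈ range (D ^ (16 * n)), ∑ y ∈ range (D ^ n), Real.negMulLog (p x y))
    {τ : ℝ} (hτ : 0 < τ) (hτ1 : τ ≤ 1) (hτ2 : 16 * (1 + Real.log (1 / τ)) ≤ Real.log D) :
    ∃ a b u v : ℕ, a < 16 * n ∧ b < n ∧ u < D ^ (16 * n - (a + 1)) ∧ v < D ^ (n - (b + 1)) ∧
      0 < mg D p (a + 1) (b + 1) u v ∧
      mg D p (a + 1) (b + 1) u v / 8 ≤
        ∑ i ∈ (range D).filter (fun i =>
          mg D p a (b + 1) (u * D + i) v ≤ τ * mg D p (a + 1) (b + 1) u v),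
          mg D p a (b + 1) (u * D + i) v ∧
      mg D p (a + 1) (b + 1) u v / 8 ≤
        ∑ j ∈ (range D).filter (fun j =>
          mg D p (a + 1) b u (v * D + j) ≤ τ * mg D p (a + 1) (b + 1) u v),
          mg D p (a + 1) b u (v * D + j) ∧
      ∑ z ∈ (range D ×ˢ range D).filter (fun z => mg D p a b (u * D + z.1) (v * D + z.2) = 0),
          mg D p a (b + 1) (u * D + z.1) v * mg D p (a + 1) b u (v * D + z.2) ≤
        Real.log D / (2 * n) * mg D p (a + 1) (b + 1) u v ^ 2 := by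
  by_contra hcon
  have hD1 : 1 ≤ D := by omega
  have hL : 0 < Real.log D := Real.log_pos (by exact_mod_cast (by omega : 1 < D))
  have hneg : ∀ a b u v : ℕ, a < 16 * n → b < n → u < D ^ (16 * n - (a + 1)) →
      v < D ^ (n - (b + 1)) → ¬ (0 < mg D p (a + 1) (b + 1) u v ∧
      mg D p (a + 1) (b + 1) u v / 8 ≤ Win_S1 D p τ a b u v ∧
      mg D p (a + 1) (b + 1) u v / 8 ≤ Win_S2 D p τ a b u v ∧
      Win_M D p a b u v ≤ Real.log D / (2 * n) * mg D p (a + 1) (b + 1) u v ^ 2) :=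
    fun a b u v ha hb hu hv h => hcon ⟨a, b, u, v, ha, hb, hu, hv, h⟩
  obtain ⟨N, hN⟩ : ∃ N, N = 16 * n := ⟨_, rfl⟩
  rw [← hN] at hsum hent hneg
  -- total masses
  have hmass : ∀ S ≤ N, ∀ T ≤ n,
      ∑ u ∈ range (D ^ S), ∑ v ∈ range (D ^ T), mg D p (N - S) (n - T) u v = 1 := by
    intro S hS T hT
    rw [mg_total, Nat.add_sub_cancel' hS, Nat.add_sub_cancel' hT]
    exact hsum
  have hsa : ∀ S < N, N - S = N - (S + 1) + 1 := fun S hS => by omega
  have hsb : ∀ T < n, n - T = n - (T + 1) + 1 := fun T hT => by omega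
  refine Win_comb hN hn (Win_E D p N n)
    (fun S T => ∑ u ∈ range (D ^ S), ∑ v ∈ range (D ^ T),
      Win_S1 D p τ (N - (S + 1)) (n - (T + 1)) u v)
    (fun S T => ∑ u ∈ range (D ^ S), ∑ v ∈ range (D ^ T),
      Win_S2 D p τ (N - (S + 1)) (n - (T + 1)) u v)
    (fun S T => ∑ u ∈ range (D ^ S), ∑ v ∈ range (D ^ T),
      Win_M D p (N - (S + 1)) (n - (T + 1)) u v /
        mg D p (N - (S + 1) + 1) (n - (T + 1) + 1) u v)
    hL hτ2 ?_ ?_ ?_ ?_ ?_ ?_ ?_ ?_ ?_
  · -- nonnegativity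
    intro S _ T _
    exact sum_nonneg fun u _ => sum_nonneg fun v _ =>
      div_nonneg (Win_M_nonneg hp _ _ _ _) (mg_nonneg hp _ _ _ _)
  · -- mutual information
    intro S hS T hT
    rw [Win_both, Win_row, Win_col]
    unfold Win_E
    rw [← sum_add_distrib, ← sum_sub_distrib, ← sum_sub_distrib]
    refine sum_le_sum fun u _ => ?_
    rw [← sum_add_distrib, ← sum_sub_distrib, ← sum_sub_distrib]
    refine sum_le_sum fun v _ => ?_
    rw [hsa S hS, hsb T hT]
    generalize N - (S + 1) = a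
    generalize n - (T + 1) = b
    have h := loc_mi (D := D) (fun i j => mg D p a b (u * D + i) (v * D + j))
      (fun i j => mg_nonneg hp _ _ _ _) (P := mg D p (a + 1) (b + 1) u v)
      (by
        rw [mg_row]
        exact sum_congr rfl fun i _ => (mg_col D p a b (u * D + i) v).symm)
    have hr : ∀ i, ∑ j ∈ range D, mg D p a b (u * D + i) (v * D + j) =
        mg D p a (b + 1) (u * D + i) v := fun i => (mg_col D p a b (u * D + i) v).symm
    have hc : ∀ j, ∑ i ∈ range D, mg D p a b (u * D + i) (v * D + j) =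
        mg D p (a + 1) b u (v * D + j) := fun j => (mg_row D p a b u (v * D + j)).symm
    simp only [hr, hc] at h
    unfold Win_M
    rw [sum_div]
    exact h
  · -- small rows
    intro S hS T hT
    rw [Win_row]
    unfold Win_E
    have hm := hmass S hS.le T hT.le
    rw [← sum_sub_distrib, sum_mul]
    have h9 : 1 + Real.log (1 / τ) = ∑ u ∈ range (D ^ S), ∑ v ∈ range (D ^ T),
        mg D p (N - S) (n - T) u v * (1 + Real.log (1 / τ)) := Win_pull hm _
    rw [h9, ← sum_add_distrib]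
    refine sum_le_sum fun u _ => ?_
    rw [← sum_sub_distrib, sum_mul, ← sum_add_distrib]
    refine sum_le_sum fun v _ => ?_
    rw [hsa S hS, hsb T hT]
    generalize N - (S + 1) = a
    generalize n - (T + 1) = b
    exact loc_small hD1 (fun i => mg D p a (b + 1) (u * D + i) v)
      (fun i => mg_nonneg hp _ _ _ _) (mg_row D p a (b + 1) u v).symm hτ hτ1
  · -- small columns
    intro S hS T hT
    rw [Win_col]
    unfold Win_E
    have hm := hmass S hS.le T hT.le
    rw [← sum_sub_distrib, sum_mul]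
    have h9 : 1 + Real.log (1 / τ) = ∑ u ∈ range (D ^ S), ∑ v ∈ range (D ^ T),
        mg D p (N - S) (n - T) u v * (1 + Real.log (1 / τ)) := Win_pull hm _
    rw [h9, ← sum_add_distrib]
    refine sum_le_sum fun u _ => ?_
    rw [← sum_sub_distrib, sum_mul, ← sum_add_distrib]
    refine sum_le_sum fun v _ => ?_
    rw [hsa S hS, hsb T hT]
    generalize N - (S + 1) = a
    generalize n - (T + 1) = b
    exact loc_small hD1 (fun j => mg D p (a + 1) b u (v * D + j))
      (fun j => mg_nonneg hp _ _ _ _) (mg_col D p (a + 1) b u v).symm hτ hτ1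
  · -- rows alone
    intro S hS
    rw [Win_row]
    unfold Win_E
    have hm := hmass S hS.le 0 (Nat.zero_le n)
    rw [← sum_sub_distrib]
    have h9 : Real.log D = ∑ u ∈ range (D ^ S), ∑ v ∈ range (D ^ 0),
        mg D p (N - S) (n - 0) u v * Real.log D := Win_pull hm _
    rw [h9]
    refine sum_le_sum fun u _ => ?_
    rw [← sum_sub_distrib]
    refine sum_le_sum fun v _ => ?_
    rw [hsa S hS]
    generalize N - (S + 1) = a
    exact loc_max hD1 (fun i => mg D p a (n - 0) (u * D + i) v)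
      (fun i => mg_nonneg hp _ _ _ _) (mg_row D p a (n - 0) u v).symm
  · -- columns alone
    intro T hT
    rw [Win_col]
    unfold Win_E
    have hm := hmass 0 (Nat.zero_le N) T hT.le
    rw [← sum_sub_distrib]
    have h9 : Real.log D = ∑ u ∈ range (D ^ 0), ∑ v ∈ range (D ^ T),
        mg D p (N - 0) (n - T) u v * Real.log D := Win_pull hm _
    rw [h9]
    refine sum_le_sum fun u _ => ?_
    rw [← sum_sub_distrib]
    refine sum_le_sum fun v _ => ?_
    rw [hsb T hT]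
    generalize n - (T + 1) = b
    exact loc_max hD1 (fun j => mg D p (N - 0) b u (v * D + j))
      (fun j => mg_nonneg hp _ _ _ _) (mg_col D p (N - 0) b u v).symm
  · -- the start
    have hm := hmass 0 (Nat.zero_le N) 0 (Nat.zero_le n)
    unfold Win_E
    rw [pow_zero, sum_range_one, sum_range_one] at hm ⊢
    rw [hm, Real.negMulLog_one]
  · -- the end
    unfold Win_E
    rw [Nat.sub_self, Nat.sub_self]
    simp only [mg_zero]
    exact hent
  · -- the assumption
    intro S hS T hT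
    have hm := hmass S hS.le T hT.le
    have h9 : (9 / 8 : ℝ) = ∑ u ∈ range (D ^ S), ∑ v ∈ range (D ^ T),
        9 / 8 * mg D p (N - S) (n - T) u v := by
      refine (Win_pull hm (9 / 8)).trans (sum_congr rfl fun u _ => sum_congr rfl fun v _ => ?_)
      ring
    rw [h9, mul_sum, ← sum_add_distrib, ← sum_sub_distrib]
    refine sum_le_sum fun u hu => ?_
    rw [mul_sum, ← sum_add_distrib, ← sum_sub_distrib]
    refine sum_le_sum fun v hv => ?_
    have hu' := mem_range.1 hu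
    have hv' := mem_range.1 hv
    rw [hsa S hS, hsb T hT]
    refine Win_local hn hp hL (hneg _ _ u v (by omega) (by omega) ?_ ?_)
    · have : N - (N - (S + 1) + 1) = S := by omega
      rw [this]
      exact hu'
    · have : n - (n - (T + 1) + 1) = T := by omega
      rw [this]
      exact hv'

end FHT
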