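import Mathlib

/-!
# FHT.Cnt: counting permutations

PROOF. `card_maps`: induction on `S` (insert `i₀`): or fibre over the restriction to `S`: the `σ` with a given injective
restriction `f : S → T` are `(k - |S|)!` many, and there are `|T|.descFactorial |S|` injective `f`
(`Fintype.card_embedding_eq`). A possible direct way: the number `N(f)` of permutations extending an injection
`f : S → Fin k` does not depend on `f` (compose with a permutation carrying `f` to `f'`, e.g.
`Equiv.Perm.exists_extending_pair`-like extension, `Function.Embedding` to `Equiv` extension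
`Equiv.extendSubtype`), and the total is `k! = N * k.descFactorial |S|`, while
`k.descFactorial s * (k - s)! = k!` (`Nat.factorial_mul_descFactorial`).

(Written out: induction on `S` and double counting of the pairs `(σ, j)`, `j ∉ S`, with the involution
`σ ↦ σ * swap i₀ j`.)
-/

namespace FHT

open Finset

private theorem Cnt_one {k : ℕ} (S T : Finset (Fin k)) (σ : Equiv.Perm (Fin k))
    (hσ : ∀ i ∈ S, σ i ∈ T) : (Sᶜ.filter fun j => σ j ∈ T).card = T.card - S.card := by
  have h1 : (Sᶜ.filter fun j => σ j ∈ T) = (univ.filter fun j => σ j ∈ T) \ S := by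
    ext j
    simp only [mem_filter, mem_compl, mem_sdiff, mem_univ, true_and]
    tauto
  have h2 : S ⊆ univ.filter fun j => σ j ∈ T := by
    intro i hi
    simp only [mem_filter, mem_univ, true_and]
    exact hσ i hi
  have h3 : (univ.filter fun j => σ j ∈ T).card = T.card := by
    refine card_bij (fun j _ => σ j) ?_ ?_ ?_
    · intro j hj
      simpa using hj
    · intro i _ j _ hij
      exact σ.injective hij
    · intro j hj
      refine ⟨σ.symm j, ?_, σ.apply_symm_apply j⟩
      simp only [mem_filter, mem_univ, true_and, Equiv.apply_symm_apply]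
      exact hj
  rw [h1, card_sdiff_of_subset h2, h3]

private theorem Cnt_step {k : ℕ} (S T : Finset (Fin k)) (i₀ : Fin k) (h0 : i₀ ∉ S) :
    (univ.filter fun σ : Equiv.Perm (Fin k) => ∀ i ∈ insert i₀ S, σ i ∈ T).card *
        (k - S.card) =
      (univ.filter fun σ : Equiv.Perm (Fin k) => ∀ i ∈ S, σ i ∈ T).card *
        (T.card - S.card) := by
  have hA : ((univ.filter fun σ : Equiv.Perm (Fin k) => ∀ i ∈ S, σ i ∈ T).sigma
      (fun σ => Sᶜ.filter fun j => σ j ∈ T)).card =
      (univ.filter fun σ : Equiv.Perm (Fin k) => ∀ i ∈ S, σ i ∈ T).card *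
        (T.card - S.card) := by
    rw [card_sigma, sum_const_nat]
    intro σ hσ
    simp only [mem_filter, mem_univ, true_and] at hσ
    exact Cnt_one S T σ hσ
  have hB : ((univ.filter fun σ : Equiv.Perm (Fin k) => ∀ i ∈ insert i₀ S, σ i ∈ T).sigma
      (fun _ => Sᶜ)).card =
      (univ.filter fun σ : Equiv.Perm (Fin k) => ∀ i ∈ insert i₀ S, σ i ∈ T).card *
        (k - S.card) := by
    rw [card_sigma, sum_const_nat]
    intro σ _
    rw [card_compl, Fintype.card_fin]
  rw [← hA, ← hB]
  have key : ∀ (σ : Equiv.Perm (Fin k)) (j i : Fin k), j ∉ S → i ∈ S →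
      (σ * Equiv.swap i₀ j) i = σ i := by
    intro σ j i hj hi
    rw [Equiv.Perm.mul_apply, Equiv.swap_apply_of_ne_of_ne]
    · rintro rfl; exact h0 hi
    · rintro rfl; exact hj hi
  refine card_nbij' (fun x => ⟨x.1 * Equiv.swap i₀ x.2, x.2⟩)
    (fun x => ⟨x.1 * Equiv.swap i₀ x.2, x.2⟩) ?_ ?_ ?_ ?_
  · rintro ⟨σ, j⟩ hx
    simp only [coe_sigma, coe_filter, mem_univ, true_and, Set.mem_sigma_iff,
      Set.mem_setOf_eq, coe_compl, Set.mem_compl_iff, mem_coe, mem_compl, mem_insert,
      forall_eq_or_imp, mem_sigma, mem_filter] at hx ⊢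
    refine ⟨fun i hi => ?_, hx.2, ?_⟩
    · rw [key σ j i hx.2 hi]
      exact hx.1.2 i hi
    · rw [Equiv.Perm.mul_apply, Equiv.swap_apply_right]
      exact hx.1.1
  · rintro ⟨σ, j⟩ hx
    simp only [coe_sigma, coe_filter, mem_univ, true_and, Set.mem_sigma_iff,
      Set.mem_setOf_eq, coe_compl, Set.mem_compl_iff, mem_coe, mem_compl, mem_insert,
      forall_eq_or_imp, mem_sigma, mem_filter] at hx ⊢
    refine ⟨⟨?_, fun i hi => ?_⟩, hx.2.1⟩
    · rw [Equiv.Perm.mul_apply, Equiv.swap_apply_left]
      exact hx.2.2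
    · rw [key σ j i hx.2.1 hi]
      exact hx.1 i hi
  · rintro ⟨σ, j⟩ _
    simp only [Sigma.mk.injEq, heq_eq_eq, and_true]
    rw [mul_assoc, Equiv.swap_mul_self, mul_one]
  · rintro ⟨σ, j⟩ _
    simp only [Sigma.mk.injEq, heq_eq_eq, and_true]
    rw [mul_assoc, Equiv.swap_mul_self, mul_one]

theorem card_maps {k : ℕ} (S T : Finset (Fin k)) :
    (univ.filter fun σ : Equiv.Perm (Fin k) => ∀ i ∈ S, σ i ∈ T).card =
      T.card.descFactorial S.card * (k - S.card).factorial := by
  induction S using Finset.induction_on with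
  | empty =>
    simp [Fintype.card_perm]
  | insert i₀ S h0 ih =>
    have h1 := Cnt_step S T i₀ h0
    rw [ih] at h1
    have h2 : S.card < k := by
      have h3 : S.card < (univ : Finset (Fin k)).card := by
        apply card_lt_card
        rw [ssubset_univ_iff]
        rintro rfl
        exact h0 (mem_univ _)
      rwa [card_univ, Fintype.card_fin] at h3
    rw [card_insert_of_notMem h0, Nat.descFactorial_succ]
    obtain ⟨m, hm⟩ : ∃ m, k - S.card = m + 1 := ⟨k - S.card - 1, by omega⟩
    have h4 : k - (S.card + 1) = m := by omega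
    rw [h4]
    rw [hm, Nat.factorial_succ] at h1
    have h5 : 0 < m + 1 := Nat.succ_pos m
    apply Nat.eq_of_mul_eq_mul_right h5
    rw [h1]
    ring

end FHT
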