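import Pool.Agent.FHT.Defs
import Pool.Agent.FHT.Cnt

/-!
# FHT.Full: almost all permutations have a full grid of about `sqrt (k/(3 log k))` cells per side

PROOF. For one cell `(g,h)`, `g, h < t`, let `G = {i : i/a = g}`, `H = {j : j/a = h}`, `|G| = |H| = a` (as `t a ≤ k`; `a ≥ 1` by
`ha`). The number of the `σ` which map `G` into the complement of `H` is, by `card_maps`,
`(k-a).descFactorial a * (k-a)!`, and the quotient by `k! = k.descFactorial a * (k-a)!` is
`∏_{i<a} (k-a-i)/(k-i) ≤ (1 - a/k)^a ≤ exp(-a^2/k) ≤ k^(-3)` by `ha` (if `2a > k` it is `0`). There are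
`t^2 ≤ k^2/a^2 ≤ k/4` cells (`t a ≤ k`, `a^2 ≥ 3 k log k ≥ 4 k`), so at most `(k/4) k! k^(-3) ≤ k!/(4k)` permutations are
not full.
-/

namespace FHT

open Finset

private theorem full_cell {k a g : ℕ} (ha : 1 ≤ a) (hg : (g + 1) * a ≤ k) :
    (univ.filter fun i : Fin k => (i : ℕ) / a = g).card = a := by
  have h1 : (range a).card = (univ.filter fun i : Fin k => (i : ℕ) / a = g).card := by
    refine card_bij (fun j hj => (⟨a * g + j, ?_⟩ : Fin k)) ?_ ?_ ?_
    · have h2 := mem_range.1 hj
      have h3 : (g + 1) * a = a * g + a := by ring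
      omega
    · intro j hj
      have h2 := mem_range.1 hj
      simp only [mem_filter, mem_univ, true_and]
      rw [Nat.mul_add_div (by omega), Nat.div_eq_of_lt h2, add_zero]
    · intro i hi j hj hij
      have h2 := congrArg Fin.val hij
      simp only at h2
      omega
    · intro i hi
      simp only [mem_filter, mem_univ, true_and] at hi
      have h2 := Nat.div_add_mod (i : ℕ) a
      have h3 := Nat.mod_lt (i : ℕ) (show 0 < a by omega)
      refine ⟨(i : ℕ) % a, mem_range.2 h3, ?_⟩
      apply Fin.ext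
      simp only
      rw [hi] at h2
      exact h2
  rw [← h1, card_range]

private theorem full_desc {k a : ℕ} (hk : 0 < k) (hak : a ≤ k) : ∀ s : ℕ, s ≤ k →
    ((k - a).descFactorial s : ℝ) ≤ (1 - (a : ℝ) / k) ^ s * (k.descFactorial s : ℝ)
  | 0, _ => by simp
  | s + 1, hs => by
    have ih := full_desc hk hak s (by omega)
    have hk0 : (0 : ℝ) < k := by exact_mod_cast hk
    have hak' : (a : ℝ) ≤ k := by exact_mod_cast hak
    have hsk : (s : ℝ) ≤ k := by
      have : s ≤ k := by omega
      exact_mod_cast this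
    have h0 : 0 ≤ 1 - (a : ℝ) / k := by
      rw [sub_nonneg, div_le_one hk0]
      exact hak'
    have h1 : ((k - a - s : ℕ) : ℝ) ≤ (1 - (a : ℝ) / k) * ((k - s : ℕ) : ℝ) := by
      have h2 : ((k - s : ℕ) : ℝ) = k - s := by
        rw [Nat.cast_sub (by omega)]
      rw [h2]
      have h3 : (1 - (a : ℝ) / k) * ((k : ℝ) - s) = k - a - s + a * s / k := by
        field_simp
        ring
      have h4 : 0 ≤ (a : ℝ) * s / k := by positivity
      by_cases h5 : a + s ≤ k
      · have h6 : ((k - a - s : ℕ) : ℝ) = k - a - s := by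
          rw [Nat.cast_sub (by omega), Nat.cast_sub (by omega)]
        rw [h6, h3]
        linarith
      · have h6 : k - a - s = 0 := by omega
        rw [h6, Nat.cast_zero]
        exact mul_nonneg h0 (by linarith)
    rw [Nat.descFactorial_succ, Nat.descFactorial_succ, Nat.cast_mul, Nat.cast_mul, pow_succ]
    calc ((k - a - s : ℕ) : ℝ) * ((k - a).descFactorial s : ℝ)
        ≤ ((1 - (a : ℝ) / k) * ((k - s : ℕ) : ℝ)) *
            ((1 - (a : ℝ) / k) ^ s * (k.descFactorial s : ℝ)) :=
          mul_le_mul h1 ih (Nat.cast_nonneg _) (mul_nonneg h0 (Nat.cast_nonneg _))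
      _ = (1 - (a : ℝ) / k) ^ s * (1 - (a : ℝ) / k) *
            (((k - s : ℕ) : ℝ) * (k.descFactorial s : ℝ)) := by ring

open Classical in
theorem typ_full {k t a : ℕ} (hk : 4 ≤ k) (hta : t * a ≤ k)
    (ha : 3 * (k : ℝ) * Real.log k ≤ (a : ℝ) ^ 2) :
    4 * k * (univ.filter fun σ : Equiv.Perm (Fin k) => ¬ Full σ t a).card ≤ k.factorial := by
  have hk0 : (0 : ℝ) < k := by
    have : 0 < k := by omega
    exact_mod_cast this
  have hk4 : (4 : ℝ) ≤ k := by exact_mod_cast hk
  have hlog : 1 ≤ Real.log k := by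
    rw [Real.le_log_iff_exp_le hk0]
    have := Real.exp_one_lt_d9
    linarith
  have ha2 : (12 : ℝ) ≤ (a : ℝ) ^ 2 := by
    have h1 : (4 : ℝ) * 1 ≤ k * Real.log k := mul_le_mul hk4 hlog (by norm_num) hk0.le
    linarith
  have ha1 : 2 ≤ a := by
    by_contra h
    have h1 : a ≤ 1 := by omega
    have h2 : (a : ℝ) ≤ 1 := by exact_mod_cast h1
    have h3 : (0 : ℝ) ≤ a := Nat.cast_nonneg a
    nlinarith
  rcases Nat.eq_zero_or_pos t with ht | ht
  · have h1 : (univ.filter fun σ : Equiv.Perm (Fin k) => ¬ Full σ t a) = ∅ := by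
      rw [filter_eq_empty_iff]
      intro σ _ hσ
      apply hσ
      intro g hg
      rw [ht] at hg
      exact absurd hg (Nat.not_lt_zero g)
    rw [h1, card_empty, mul_zero]
    exact Nat.zero_le _
  have hak : a ≤ k := le_trans (Nat.le_mul_of_pos_left a ht) hta
  -- the union bound
  let G : ℕ → Finset (Fin k) := fun g => univ.filter fun i : Fin k => (i : ℕ) / a = g
  have hG : ∀ g < t, (G g).card = a := by
    intro g hg
    exact full_cell (by omega) (le_trans (Nat.mul_le_mul_right a hg) hta)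
  have hsub : (univ.filter fun σ : Equiv.Perm (Fin k) => ¬ Full σ t a) ⊆
      (range t ×ˢ range t).biUnion (fun q => univ.filter fun σ : Equiv.Perm (Fin k) =>
        ∀ i ∈ G q.1, σ i ∈ (G q.2)ᶜ) := by
    intro σ hσ
    simp only [mem_filter, mem_univ, true_and, Full, not_forall, not_exists] at hσ
    obtain ⟨g, hg, h, hh, hi⟩ := hσ
    simp only [mem_biUnion, mem_product, mem_range, mem_filter, mem_univ, true_and]
    refine ⟨(g, h), ⟨hg, hh⟩, ?_⟩
    intro i hiG
    have h1 : (i : ℕ) / a = g := by simpa [G] using hiG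
    simp only [mem_compl, G, mem_filter, mem_univ, true_and]
    intro h2
    exact hi i ⟨h1, h2⟩
  have hcard : (univ.filter fun σ : Equiv.Perm (Fin k) => ¬ Full σ t a).card ≤
      t * t * ((k - a).descFactorial a * (k - a).factorial) := by
    refine (card_le_card hsub).trans (card_biUnion_le.trans ?_)
    calc ∑ q ∈ range t ×ˢ range t, (univ.filter fun σ : Equiv.Perm (Fin k) =>
          ∀ i ∈ G q.1, σ i ∈ (G q.2)ᶜ).card
        ≤ ∑ _q ∈ range t ×ˢ range t, (k - a).descFactorial a * (k - a).factorial := by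
          refine sum_le_sum fun q hq => ?_
          rw [mem_product, mem_range, mem_range] at hq
          rw [card_maps, card_compl, Fintype.card_fin, hG _ hq.1, hG _ hq.2]
      _ = t * t * ((k - a).descFactorial a * (k - a).factorial) := by
          rw [sum_const, card_product, card_range, smul_eq_mul]
  -- the estimate
  have hexp : (1 - (a : ℝ) / k) ^ a ≤ 1 / (k : ℝ) ^ 3 := by
    have h0 : 0 ≤ 1 - (a : ℝ) / k := by
      rw [sub_nonneg, div_le_one hk0]
      exact_mod_cast hak
    have h1 : 1 - (a : ℝ) / k ≤ Real.exp (-((a : ℝ) / k)) := by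
      have := Real.add_one_le_exp (-((a : ℝ) / k))
      linarith
    calc (1 - (a : ℝ) / k) ^ a ≤ Real.exp (-((a : ℝ) / k)) ^ a := pow_le_pow_left₀ h0 h1 a
      _ = Real.exp (-((a : ℝ) ^ 2 / k)) := by
          rw [← Real.exp_nat_mul]
          congr 1
          field_simp
      _ ≤ Real.exp (-(3 * Real.log k)) := by
          apply Real.exp_le_exp.2
          rw [neg_le_neg_iff, le_div_iff₀ hk0]
          linarith
      _ = 1 / (k : ℝ) ^ 3 := by
          rw [Real.exp_neg, show (3 : ℝ) * Real.log k = ((3 : ℕ) : ℝ) * Real.log k by norm_num,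
            Real.exp_nat_mul, Real.exp_log hk0, one_div]
  have hdes : (((k - a).descFactorial a * (k - a).factorial : ℕ) : ℝ) ≤
      1 / (k : ℝ) ^ 3 * (k.factorial : ℝ) := by
    have h1 := full_desc (k := k) (a := a) (by omega) hak a hak
    have h2 : (k.factorial : ℝ) = ((k - a).factorial : ℝ) * (k.descFactorial a : ℝ) := by
      rw [← Nat.factorial_mul_descFactorial hak]
      push_cast
      ring
    rw [Nat.cast_mul, h2]
    calc ((k - a).descFactorial a : ℝ) * ((k - a).factorial : ℝ)
        ≤ ((1 - (a : ℝ) / k) ^ a * (k.descFactorial a : ℝ)) * ((k - a).factorial : ℝ) :=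
          mul_le_mul_of_nonneg_right h1 (Nat.cast_nonneg _)
      _ ≤ (1 / (k : ℝ) ^ 3 * (k.descFactorial a : ℝ)) * ((k - a).factorial : ℝ) := by
          refine mul_le_mul_of_nonneg_right ?_ (Nat.cast_nonneg _)
          exact mul_le_mul_of_nonneg_right hexp (Nat.cast_nonneg _)
      _ = 1 / (k : ℝ) ^ 3 * (((k - a).factorial : ℝ) * (k.descFactorial a : ℝ)) := by ring
  have h2t : 2 * t ≤ k := by
    refine le_trans ?_ hta
    rw [mul_comm]
    exact Nat.mul_le_mul_left t ha1
  have h2t' : (2 : ℝ) * t ≤ k := by exact_mod_cast h2t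
  have hfin : ((4 * k * (univ.filter fun σ : Equiv.Perm (Fin k) => ¬ Full σ t a).card : ℕ) : ℝ)
      ≤ (k.factorial : ℝ) := by
    have hc : ((univ.filter fun σ : Equiv.Perm (Fin k) => ¬ Full σ t a).card : ℝ) ≤
        (t : ℝ) * t * (1 / (k : ℝ) ^ 3 * (k.factorial : ℝ)) := by
      have h1 : ((univ.filter fun σ : Equiv.Perm (Fin k) => ¬ Full σ t a).card : ℝ) ≤
          ((t * t * ((k - a).descFactorial a * (k - a).factorial) : ℕ) : ℝ) := by
        exact_mod_cast hcard
      refine h1.trans ?_
      rw [Nat.cast_mul, Nat.cast_mul]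
      exact mul_le_mul_of_nonneg_left hdes (by positivity)
    rw [Nat.cast_mul, Nat.cast_mul, Nat.cast_ofNat]
    calc (4 : ℝ) * k * ((univ.filter fun σ : Equiv.Perm (Fin k) => ¬ Full σ t a).card : ℝ)
        ≤ 4 * k * ((t : ℝ) * t * (1 / (k : ℝ) ^ 3 * (k.factorial : ℝ))) :=
          mul_le_mul_of_nonneg_left hc (by positivity)
      _ = ((2 * t) ^ 2 / (k : ℝ) ^ 2) * (k.factorial : ℝ) := by
          field_simp
          ring
      _ ≤ 1 * (k.factorial : ℝ) := by
          refine mul_le_mul_of_nonneg_right ?_ (Nat.cast_nonneg _)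
          rw [div_le_one (by positivity)]
          exact pow_le_pow_left₀ (by positivity) h2t' 2
      _ = (k.factorial : ℝ) := one_mul _
  exact_mod_cast hfin

end FHT
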