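import Pool.Agent.FHT.Defs
import Pool.Agent.Hhelper47.PermExt.Lift

/-!
# FHT.Low: a lower bound for permutations with a full grid of cells

PROOF. `low_minor`: let `A` contain `σ` (rows `u`, columns `v`). For `g, h < t` choose `i_gh` in the cell `(g, h)`;
`x g h = u (i_gh)`, `y g h = v (σ i_gh)` is an all-ones minor (`HasMinor`): `g < g'` implies `i_gh < i_g'h'`, since
`i / a` is monotone in `i`.
`low_ex`: `core m` gives `A₀ ⊆ [2^m]^2` without the minor of order `9 (m+1)` and with at least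
`2^(2m - (m+1)/2 - 1)` ones; with `T = n/2^m` the block diagonal matrix `blockDiag A₀ m T ⊆ [n]^2` has no minor of order
`9 (m+1) + 1 ≤ t` (`blockDiag_avoid`; a minor of order `t` restricts to one of smaller order), so does not contain `σ`
(`low_minor`), and it has `T |A₀|` ones (`card_blockDiag`); `n ≤ 2 T 2^m` as `T ≥ 1`. So the number of ones is at least
`(n/2^(m+1)) 2^(2m - (m+1)/2 - 1) = n 2^((m+1)/2 - 3)` (copy the end of `large` in `Hhelper47/PermExt/Main.lean`).
`ex` is a `Finset.sup`: use `Finset.le_sup`.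
-/

namespace FHT

open Finset Pool.Agent.Hhelper47.PermExt

theorem low_minor {k t a : ℕ} {σ : Equiv.Perm (Fin k)} (hf : Full σ t a) {A : Finset (ℕ × ℕ)}
    (hA : Cont A σ) : HasMinor A t := by
  obtain ⟨u, v, hu, hv, hA⟩ := hA
  have hex : ∀ g h : Fin t, ∃ i : Fin k, (i : ℕ) / a = g ∧ (σ i : ℕ) / a = h :=
    fun g h => hf g g.2 h h.2
  choose i hi1 hi2 using hex
  have key : ∀ p q : Fin k, (p : ℕ) / a < (q : ℕ) / a → p < q := by
    intro p q h
    by_contra hc
    have h1 : (q : ℕ) ≤ p := not_lt.1 hc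
    have h2 := Nat.div_le_div_right (c := a) h1
    omega
  refine ⟨fun g h => u (i g h), fun g h => v (σ (i g h)), ?_, ?_, fun g h => hA _⟩
  · intro g g' h h' hg
    apply hu
    apply key
    rw [hi1, hi1]
    exact hg
  · intro g g' h h' hh
    apply hv
    apply key
    rw [hi2, hi2]
    exact hh

theorem low_ex {k t a m : ℕ} {σ : Equiv.Perm (Fin k)} (hf : Full σ t a) (hm : 9 * (m + 1) + 1 ≤ t)
    {n : ℕ} (hn : 2 ^ m ≤ n) :
    (2 : ℝ) ^ (((m : ℝ) + 1) / 2 - 3) * n ≤ ex n σ := by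
  classical
  obtain ⟨A₀, hA₀, hmin, hcard⟩ := core m
  have hpm : (0:ℝ) < (2:ℝ) ^ m := by positivity
  set T := n / 2 ^ m with hT
  have hTn : T * 2 ^ m ≤ n := Nat.div_mul_le_self _ _
  have hTpos : 1 ≤ T := (Nat.one_le_div_iff (by positivity)).2 hn
  have hTn' : n < (T + 1) * 2 ^ m := by
    rw [hT, Nat.add_mul, one_mul]
    have h3 := Nat.div_add_mod n (2 ^ m)
    have h4 := Nat.mod_lt n (show 0 < 2 ^ m by positivity)
    rw [Nat.mul_comm] at h3
    omega
  have hTr : (n:ℝ) ≤ 2 * T * 2 ^ m := by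
    have h1 : n ≤ 2 * T * 2 ^ m := by
      refine hTn'.le.trans (Nat.mul_le_mul_right _ (by omega))
    exact_mod_cast h1
  have hsub := blockDiag_subset (T := T) hA₀ hTn
  have havoid : ¬ Cont (blockDiag A₀ m T) σ := by
    intro h
    have h1 := low_minor hf h
    have h2 : HasMinor (blockDiag A₀ m T) (9 * (m + 1) + 1) := by
      obtain ⟨x, y, hx, hy, hA⟩ := h1
      refine ⟨fun a b => x (Fin.castLE hm a) (Fin.castLE hm b),
        fun a b => y (Fin.castLE hm a) (Fin.castLE hm b), ?_, ?_, ?_⟩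
      · intro a a' b b' haa
        exact hx _ _ _ _ haa
      · intro a a' b b' hbb
        exact hy _ _ _ _ hbb
      · intro a b
        exact hA _ _
    exact blockDiag_avoid hA₀ hmin h2
  have h3 : T * A₀.card ≤ ex n σ := by
    rw [← card_blockDiag hA₀]
    unfold ex
    apply Finset.le_sup (f := card)
    rw [mem_filter, mem_powerset]
    exact ⟨hsub, havoid⟩
  have h4 : ((T:ℝ) * A₀.card) ≤ ex n σ := by
    exact_mod_cast h3
  refine le_trans ?_ h4
  calc (2:ℝ) ^ (((m:ℝ) + 1) / 2 - 3) * n ≤ (2:ℝ) ^ (((m:ℝ) + 1) / 2 - 3) * (2 * T * 2 ^ m) :=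
        mul_le_mul_of_nonneg_left hTr (by positivity)
    _ = T * (2:ℝ) ^ (2 * (m:ℝ) - ((m:ℝ) + 1) / 2 - 1) := by
        have h6 : (2:ℝ) ^ (2 * (m:ℝ) - ((m:ℝ) + 1) / 2 - 1) =
            (2:ℝ) ^ (((m:ℝ) + 1) / 2 - 3) * (2:ℝ) ^ ((m:ℝ) + 1) := by
          rw [← Real.rpow_add (by norm_num)]
          congr 1
          ring
        rw [h6, Real.rpow_add (by norm_num), Real.rpow_natCast, Real.rpow_one]
        ring
    _ ≤ T * A₀.card := mul_le_mul_of_nonneg_left hcard (by positivity)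

end FHT
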