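import Pool.Agent.FHT.Defs
import Pool.Agent.FHT.Cnt

/-!
# FHT.Typ: almost all permutations are balanced

PROOF. Let `q = Nat.sqrt k ≥ 1`, `w = 2 * Nat.log 2 k + 8`, `t = w + 1`. `g, h ≤ (k-1)/q ≤ q + 2` for nonempty cells
(`k < (q+1)^2 ≤ q (q+3)`), so there are at most `(q+3)^2 ≤ 16 k` cells. If the cell `(g,h)` has more than `w` ones there is a
`t`-subset `S` of `G = {i : i/q = g}` (`|G| ≤ q`) with `σ S ⊆ H = {j : j/q = h}` (`|H| ≤ q`). By `card_maps` the number of
such `σ` is at most `q.choose t * q.descFactorial t * (k - t)!` (`card_maps` and `Nat.descFactorial_le`-monotonicity in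
the first argument). As `q.choose t * t! = q.descFactorial t` and `(q.descFactorial t)^2 ≤ k.descFactorial t`
(induction on `t`: `(q - i)^2 ≤ k - i` as `q^2 ≤ k`; for `i ≥ q` the left side is `0`) and
`k.descFactorial t * (k - t)! = k!` (`t ≤ k`; otherwise the count is `0`) this is at most `k!/t!`. And
`t! ≥ 2^(t-1) = 2^w = 256 (2^(log k))^2 ≥ 64 k^2` (`k < 2^(log k + 1)`; `Nat.two_pow_le...` or induction for
`2^(t-1) ≤ t!`). Total `≤ 16 k * k!/(64 k^2) = k!/(4k)`.
-/

namespace FHT

open Finset

private theorem Typ_fact (t : ℕ) : 2 ^ t ≤ (t + 1).factorial := by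
  induction t with
  | zero => simp
  | succ t ih =>
    rw [Nat.factorial_succ, pow_succ, mul_comm]
    exact Nat.mul_le_mul (by omega) ih

private theorem Typ_desc {q k : ℕ} (h : q * q ≤ k) (t : ℕ) :
    q.descFactorial t * q.descFactorial t ≤ k.descFactorial t := by
  induction t with
  | zero => simp
  | succ t ih =>
    rw [Nat.descFactorial_succ, Nat.descFactorial_succ]
    calc (q - t) * q.descFactorial t * ((q - t) * q.descFactorial t)
        = ((q - t) * (q - t)) * (q.descFactorial t * q.descFactorial t) := by ring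
      _ ≤ (k - t) * k.descFactorial t := by
          refine Nat.mul_le_mul ?_ ih
          rcases le_total q t with h1 | h1
          · rw [Nat.sub_eq_zero_of_le h1]; simp
          · obtain ⟨d, rfl⟩ := Nat.exists_eq_add_of_le h1
            have h2 : t + d - t = d := by omega
            rw [h2]
            apply Nat.le_sub_of_add_le
            have h3 : t ≤ t * t := Nat.le_mul_self t
            nlinarith [Nat.zero_le (t * d)]

private theorem Typ_X {q k t : ℕ} (h : q * q ≤ k) :
    t.factorial * (q.choose t * (q.descFactorial t * (k - t).factorial)) ≤ k.factorial := by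
  have h1 : t.factorial * (q.choose t * (q.descFactorial t * (k - t).factorial)) =
      (q.descFactorial t * q.descFactorial t) * (k - t).factorial := by
    rw [Nat.descFactorial_eq_factorial_mul_choose]
    ring
  rw [h1]
  rcases le_or_gt t k with h2 | h2
  · rw [← Nat.factorial_mul_descFactorial h2, mul_comm]
    exact Nat.mul_le_mul_left _ (Typ_desc h t)
  · have h3 : q < t := by nlinarith
    rw [Nat.descFactorial_of_lt h3]
    simp

private theorem Typ_cell {k : ℕ} (q g : ℕ) (hq : 0 < q) :
    (univ.filter fun i : Fin k => (i : ℕ) / q = g).card ≤ q := by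
  have h1 : (univ.filter fun i : Fin k => (i : ℕ) / q = g).card =
      ((univ.filter fun i : Fin k => (i : ℕ) / q = g).image (fun i : Fin k => (i : ℕ))).card := by
    rw [card_image_of_injective _ Fin.val_injective]
  rw [h1]
  calc _ ≤ (Finset.Ico (g * q) (g * q + q)).card := by
        apply card_le_card
        intro x hx
        simp only [mem_image, mem_filter, mem_univ, true_and] at hx
        obtain ⟨i, hi, rfl⟩ := hx
        rw [mem_Ico]
        rw [Nat.div_eq_iff hq] at hi
        constructor
        · exact hi.1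
        · omega
    _ = q := by simp

open Classical in
theorem typ {k : ℕ} (hk : 1 ≤ k) :
    4 * k * (univ.filter fun σ : Equiv.Perm (Fin k) =>
      ¬ Cells σ (Nat.sqrt k) (2 * Nat.log 2 k + 8)).card ≤ k.factorial := by
  set q := Nat.sqrt k with hqd
  set w := 2 * Nat.log 2 k + 8 with hwd
  have hq : 0 < q := Nat.sqrt_pos.2 hk
  have hqq : q * q ≤ k := Nat.sqrt_le k
  have hqk : k < (q + 1) * (q + 1) := Nat.lt_succ_sqrt k
  have hq4 : (q + 3) * (q + 3) ≤ 16 * k := by nlinarith
  have hw : 64 * (k * k) ≤ (w + 1).factorial := by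
    have h1 : k < 2 ^ (Nat.log 2 k + 1) := Nat.lt_pow_succ_log_self (by norm_num) k
    have h2 : k ≤ 2 * 2 ^ Nat.log 2 k := by rw [pow_succ] at h1; omega
    have h3 : k * k ≤ (2 * 2 ^ Nat.log 2 k) * (2 * 2 ^ Nat.log 2 k) := Nat.mul_le_mul h2 h2
    have h4 : 2 ^ w = 256 * (2 ^ Nat.log 2 k * 2 ^ Nat.log 2 k) := by
      rw [hwd, pow_add, two_mul, pow_add]
      ring
    calc 64 * (k * k) ≤ 64 * ((2 * 2 ^ Nat.log 2 k) * (2 * 2 ^ Nat.log 2 k)) :=
          Nat.mul_le_mul_left _ h3
      _ = 2 ^ w := by rw [h4]; ring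
      _ ≤ (w + 1).factorial := Typ_fact w
  have hrange : ∀ i : Fin k, (i : ℕ) / q < q + 3 := by
    intro i
    rw [Nat.div_lt_iff_lt_mul hq]
    have := i.2
    nlinarith
  set X := q.choose (w + 1) * (q.descFactorial (w + 1) * (k - (w + 1)).factorial) with hX
  have hXk : (w + 1).factorial * X ≤ k.factorial := Typ_X hqq
  have hone : ∀ g h : ℕ, (univ.filter fun σ : Equiv.Perm (Fin k) =>
      w < (univ.filter fun i : Fin k => (i : ℕ) / q = g ∧ (σ i : ℕ) / q = h).card).card ≤ X := by
    intro g h
    let Gs := univ.filter fun i : Fin k => (i : ℕ) / q = g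
    let Hs := univ.filter fun i : Fin k => (i : ℕ) / q = h
    have hsub : (univ.filter fun σ : Equiv.Perm (Fin k) =>
        w < (univ.filter fun i : Fin k => (i : ℕ) / q = g ∧ (σ i : ℕ) / q = h).card) ⊆
        (Gs.powersetCard (w + 1)).biUnion fun S =>
          univ.filter fun σ : Equiv.Perm (Fin k) => ∀ i ∈ S, σ i ∈ Hs := by
      intro σ hσ
      simp only [mem_filter, mem_univ, true_and] at hσ
      obtain ⟨S, hS, hSc⟩ := exists_subset_card_eq (Nat.succ_le_of_lt hσ)
      simp only [mem_biUnion, mem_powersetCard, mem_filter, mem_univ, true_and]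
      refine ⟨S, ⟨fun i hi => ?_, hSc⟩, fun i hi => ?_⟩
      · have := hS hi
        simp only [mem_filter, mem_univ, true_and] at this
        simp only [Gs, mem_filter, mem_univ, true_and]
        exact this.1
      · have := hS hi
        simp only [mem_filter, mem_univ, true_and] at this
        simp only [Hs, mem_filter, mem_univ, true_and]
        exact this.2
    calc _ ≤ ((Gs.powersetCard (w + 1)).biUnion fun S =>
          univ.filter fun σ : Equiv.Perm (Fin k) => ∀ i ∈ S, σ i ∈ Hs).card := card_le_card hsub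
      _ ≤ ∑ S ∈ Gs.powersetCard (w + 1),
          (univ.filter fun σ : Equiv.Perm (Fin k) => ∀ i ∈ S, σ i ∈ Hs).card := card_biUnion_le
      _ ≤ ∑ S ∈ Gs.powersetCard (w + 1), q.descFactorial (w + 1) * (k - (w + 1)).factorial := by
          apply sum_le_sum
          intro S hS
          rw [mem_powersetCard] at hS
          rw [card_maps, hS.2]
          exact Nat.mul_le_mul_right _ (Nat.descFactorial_le _ (Typ_cell q h hq))
      _ = Gs.card.choose (w + 1) * (q.descFactorial (w + 1) * (k - (w + 1)).factorial) := by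
          rw [sum_const, card_powersetCard, smul_eq_mul]
      _ ≤ X := Nat.mul_le_mul_right _ (Nat.choose_le_choose _ (Typ_cell q g hq))
  have hbad : (univ.filter fun σ : Equiv.Perm (Fin k) => ¬ Cells σ q w).card ≤
      ((q + 3) * (q + 3)) * X := by
    have hsub : (univ.filter fun σ : Equiv.Perm (Fin k) => ¬ Cells σ q w) ⊆
        (range (q + 3) ×ˢ range (q + 3)).biUnion fun z =>
          univ.filter fun σ : Equiv.Perm (Fin k) =>
            w < (univ.filter fun i : Fin k => (i : ℕ) / q = z.1 ∧ (σ i : ℕ) / q = z.2).card := by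
      intro σ hσ
      simp only [mem_filter, mem_univ, true_and] at hσ
      unfold Cells at hσ
      push Not at hσ
      obtain ⟨g, h, hgh⟩ := hσ
      simp only [mem_biUnion, mem_product, mem_range, mem_filter, mem_univ, true_and, Prod.exists]
      have hne : (univ.filter fun i : Fin k => (i : ℕ) / q = g ∧ (σ i : ℕ) / q = h).Nonempty := by
        rw [← card_pos]
        omega
      obtain ⟨i, hi⟩ := hne
      simp only [mem_filter, mem_univ, true_and] at hi
      refine ⟨g, h, ⟨?_, ?_⟩, hgh⟩
      · rw [← hi.1]; exact hrange i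
      · rw [← hi.2]; exact hrange (σ i)
    calc _ ≤ _ := card_le_card hsub
      _ ≤ _ := card_biUnion_le
      _ ≤ ∑ z ∈ range (q + 3) ×ˢ range (q + 3), X := sum_le_sum fun z _ => hone z.1 z.2
      _ = ((q + 3) * (q + 3)) * X := by
          rw [sum_const, card_product, card_range, smul_eq_mul]
  calc 4 * k * (univ.filter fun σ : Equiv.Perm (Fin k) => ¬ Cells σ q w).card
      ≤ 4 * k * (((q + 3) * (q + 3)) * X) := Nat.mul_le_mul_left _ hbad
    _ ≤ 4 * k * ((16 * k) * X) := Nat.mul_le_mul_left _ (Nat.mul_le_mul_right _ hq4)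
    _ = (64 * (k * k)) * X := by ring
    _ ≤ (w + 1).factorial * X := Nat.mul_le_mul_right _ hw
    _ ≤ k.factorial := hXk

end FHT
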