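import Pool.Agent.FHT.Det
import Pool.Agent.FHT.Typ
import Pool.Agent.FHT.Low
import Pool.Agent.FHT.Full

/-!
# FHT.Fin: the final theorems
-/

namespace FHT

open Finset

theorem ex_le {k n B : ℕ} {σ : Equiv.Perm (Fin k)}
    (h : ∀ A : Finset (ℕ × ℕ), A ⊆ range n ×ˢ range n → ¬ Cont A σ → A.card ≤ B) : ex n σ ≤ B := by
  classical
  unfold ex
  refine Finset.sup_le fun A hA => ?_
  rw [mem_filter, mem_powerset] at hA
  exact h A hA.1 hA.2

/-- The bound for balanced permutations in terms of a real logarithm. -/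
theorem balanced : ∃ C : ℝ, 0 < C ∧ ∀ (k q m w : ℕ) (σ : Equiv.Perm (Fin k)), 1 ≤ q → 1 ≤ m → 1 ≤ w →
    k ≤ m * q → Cells σ q w → ∀ n : ℕ,
    (ex n σ : ℝ) ≤ (2 : ℝ) ^ (C * m * w * (1 + Real.log (m * q)) ^ 2) * n := by
  refine ⟨17 * 4096 * 200 ^ 2 + 100, by norm_num, ?_⟩
  intro k q m w σ hq hm hw hk hc n
  obtain ⟨y, hy⟩ : ∃ y : ℝ, y = 1 + Real.log (m * q) := ⟨_, rfl⟩
  have hmq : (1 : ℝ) ≤ (m : ℝ) * q := by
    have : 1 ≤ m * q := Nat.mul_pos hm hq
    exact_mod_cast this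
  have hy1 : 1 ≤ y := by
    rw [hy]
    have := Real.log_nonneg hmq
    linarith
  have hl2 : (0.69 : ℝ) < Real.log 2 := by
    have := Real.log_two_gt_d9
    linarith
  have hl2' : Real.log 2 < 0.7 := by
    have := Real.log_two_lt_d9
    linarith
  have hlog : Real.log (64 * m * q) = 6 * Real.log 2 + Real.log (m * q) := by
    rw [mul_assoc, Real.log_mul (by norm_num) (by positivity),
      show (64 : ℝ) = 2 ^ 6 by norm_num, Real.log_pow]
    norm_num
  obtain ⟨L, hL⟩ : ∃ L : ℕ, L = ⌈16 * (1 + Real.log (64 * m * q)) / Real.log 2⌉₊ := ⟨_, rfl⟩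
  have hL0 : 16 * (1 + Real.log (64 * m * q)) / Real.log 2 ≤ L := by
    rw [hL]
    exact Nat.le_ceil _
  have hL1 : 16 * (1 + Real.log (64 * m * q)) ≤ L * Real.log 2 := by
    rwa [div_le_iff₀ (by linarith)] at hL0
  have hb : 16 * (1 + Real.log (64 * m * q)) ≤ 100 * y := by
    rw [hlog, hy]
    have := Real.log_nonneg hmq
    linarith
  have hpos : 0 ≤ 16 * (1 + Real.log (64 * m * q)) := by
    rw [hlog]
    have := Real.log_nonneg hmq
    linarith
  have hL2 : (L : ℝ) ≤ 200 * y := by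
    have h1 := Nat.ceil_lt_add_one (div_nonneg hpos (by linarith : (0 : ℝ) ≤ Real.log 2))
    rw [← hL] at h1
    have h2 : 16 * (1 + Real.log (64 * m * q)) / Real.log 2 ≤ 100 * y / 0.69 := by
      rw [div_le_div_iff₀ (by linarith) (by norm_num)]
      nlinarith
    have h3 : 100 * y / 0.69 + 1 ≤ 200 * y := by
      rw [div_add_one (by norm_num), div_le_iff₀ (by norm_num)]
      linarith
    linarith
  have hLn : 1 ≤ L := by
    by_contra h0
    have h1 : L = 0 := by omega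
    rw [h1] at hL1
    rw [hlog] at hL1
    have := Real.log_nonneg hmq
    push_cast at hL1
    linarith
  obtain ⟨N, hN⟩ : ∃ N : ℕ, N = 4096 * m * w * L := ⟨_, rfl⟩
  have hN1 : 24 ≤ N := by
    rw [hN]
    have h1 : 1 ≤ m * w := Nat.mul_pos hm hw
    have h2 : 1 ≤ m * w * L := Nat.mul_pos h1 hLn
    nlinarith
  have h1 : ex n σ ≤ 2 ^ (17 * L * N + 3) * n :=
    ex_le fun A hA hA' => det σ hq hk hw hc hL1 (le_of_eq hN.symm) hN1 hLn n A hA hA'
  have h2 : (ex n σ : ℝ) ≤ (2 : ℝ) ^ (17 * L * N + 3) * n := by exact_mod_cast h1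
  refine le_trans h2 (mul_le_mul_of_nonneg_right ?_ (Nat.cast_nonneg n))
  rw [← Real.rpow_natCast]
  refine Real.rpow_le_rpow_of_exponent_le (by norm_num) ?_
  rw [← hy, hN]
  push_cast
  have hm1 : (1 : ℝ) ≤ m := by exact_mod_cast hm
  have hw1 : (1 : ℝ) ≤ w := by exact_mod_cast hw
  have hmw : (1 : ℝ) ≤ m * w := by nlinarith
  have hL3 : (L : ℝ) ^ 2 ≤ (200 * y) ^ 2 := pow_le_pow_left₀ (Nat.cast_nonneg L) hL2 2
  have hy2 : 1 ≤ y ^ 2 := by nlinarith
  calc 17 * (L : ℝ) * (4096 * m * w * L) + 3 = 17 * 4096 * (m * w) * (L : ℝ) ^ 2 + 3 := by ring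
    _ ≤ 17 * 4096 * (m * w) * (200 * y) ^ 2 + 100 * ((m * w) * y ^ 2) := by
        have h3 : 17 * 4096 * ((m : ℝ) * w) * (L : ℝ) ^ 2 ≤ 17 * 4096 * (m * w) * (200 * y) ^ 2 :=
          mul_le_mul_of_nonneg_left hL3 (by positivity)
        have h4 : (1 : ℝ) ≤ (m * w) * y ^ 2 := by nlinarith
        linarith
    _ = (17 * 4096 * 200 ^ 2 + 100) * m * w * y ^ 2 := by ring

/-- The lower bound for full permutations, `t` large. -/
theorem full_lower {k t a : ℕ} {σ : Equiv.Perm (Fin k)} (hf : Full σ t a) (ht : 1000 ≤ t)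
    (htk : (t : ℝ) ≤ √k) {n : ℕ} (hn : (2 : ℝ) ^ √(k : ℝ) ≤ n) :
    (2 : ℝ) ^ ((t : ℝ) / 36) * n ≤ ex n σ := by
  obtain ⟨m, hm⟩ : ∃ m, m + 1 = (t - 1) / 9 := ⟨(t - 1) / 9 - 1, by omega⟩
  have hm1 : 9 * (m + 1) + 1 ≤ t := by omega
  have hm2 : t ≤ 9 * (m + 1) + 9 := by omega
  have h2n : 2 ^ m ≤ n := by
    have h1 : (2 : ℝ) ^ (m : ℝ) ≤ (2 : ℝ) ^ √(k : ℝ) := by
      apply Real.rpow_le_rpow_of_exponent_le (by norm_num)
      have : (m : ℝ) ≤ t := by
        have : m ≤ t := by omega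
        exact_mod_cast this
      linarith
    rw [Real.rpow_natCast] at h1
    have h2 : ((2 ^ m : ℕ) : ℝ) ≤ n := by push_cast; linarith
    exact_mod_cast h2
  refine le_trans ?_ (low_ex hf hm1 h2n)
  refine mul_le_mul_of_nonneg_right ?_ (Nat.cast_nonneg n)
  refine Real.rpow_le_rpow_of_exponent_le (by norm_num) ?_
  have h3 : (t : ℝ) ≤ 9 * ((m : ℝ) + 1) + 9 := by exact_mod_cast hm2
  have h4 : (1000 : ℝ) ≤ t := by exact_mod_cast ht
  linarith

private theorem fin_z {k y x a t z : ℝ} (hk0 : 0 < k) (hy : 10 ≤ y) (hz : 4000 ≤ z)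
    (hzz : z * z = k / y) (hx0 : 0 ≤ x) (hxx : x * x = 3 * k * y) (ha0 : 0 < a) (hax : a < x + 1)
    (hta : k < (t + 1) * a) : z / 4 ≤ t := by
  have hk : k = y * (z * z) := by
    rw [hzz]
    field_simp
  have hyz : 0 < y * z := by positivity
  have hxz : x ≤ 1.75 * (y * z) := by
    by_contra h0
    rw [not_le] at h0
    have h1 : (1.75 * (y * z)) * (1.75 * (y * z)) < x * x := mul_self_lt_mul_self (by positivity) h0
    rw [hxx, hk] at h1
    have h2 : 0 < (y * z) * (y * z) := by positivity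
    have h3 : 3 * (y * (z * z)) * y = 3 * ((y * z) * (y * z)) := by ring
    have h4 : (1.75 * (y * z)) * (1.75 * (y * z)) = 3.0625 * ((y * z) * (y * z)) := by ring
    rw [h3, h4] at h1
    linarith
  by_contra h0
  rw [not_le] at h0
  have h2 : k < (z / 4 + 1) * (1.75 * (y * z) + 1) := by
    have h3 : a ≤ 1.75 * (y * z) + 1 := by linarith
    calc k < (t + 1) * a := hta
      _ ≤ (z / 4 + 1) * a := mul_le_mul_of_nonneg_right (by linarith) ha0.le
      _ ≤ _ := mul_le_mul_of_nonneg_left h3 (by linarith)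
  have h3 : (z / 4 + 1) ≤ 0.26 * z := by linarith
  have h5 : 40000 ≤ y * z := by nlinarith
  have h4 : 1.75 * (y * z) + 1 ≤ 1.76 * (y * z) := by linarith
  have h6 : (z / 4 + 1) * (1.75 * (y * z) + 1) ≤ 0.26 * z * (1.76 * (y * z)) :=
    mul_le_mul h3 h4 (by positivity) (by positivity)
  have h7 : 0.26 * z * (1.76 * (y * z)) = 0.4576 * (y * (z * z)) := by ring
  have h8 : 0 < y * (z * z) := by positivity
  rw [hk] at h2
  rw [h7] at h6
  linarith

private theorem fin_s {k s t a : ℝ} (hss : s * s = k) (hs0 : 0 < s) (has : s ≤ a) (hta : t * a ≤ k) :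
    t ≤ s := by
  by_contra h0
  rw [not_le] at h0
  have h1 : s * s < t * a := by
    calc s * s < t * s := mul_lt_mul_of_pos_right h0 hs0
      _ ≤ t * a := mul_le_mul_of_nonneg_left has (by linarith)
  linarith

private theorem fin_x {k s x y : ℝ} (hss : s * s = k) (hs0 : 0 < s) (hx0 : 0 ≤ x) (hy : 10 ≤ y)
    (hxx : x * x = 3 * k * y) : s ≤ x := by
  by_contra h0
  rw [not_le] at h0
  have h1 : x * x < s * s := mul_self_lt_mul_self hx0 h0
  rw [hxx, hss] at h1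
  have h2 : 0 < k := by
    rw [← hss]
    positivity
  nlinarith

private theorem fin_y {k s : ℝ} (hss : s * s = k) (hs0 : 0 < s) : Real.log k ≤ 2 * s := by
  have h1 : Real.log k = 2 * Real.log s := by
    rw [← hss, Real.log_mul hs0.ne' hs0.ne']
    ring
  have h2 := Real.log_le_sub_one_of_pos hs0
  rw [h1]
  linarith

private theorem fin_w {k : ℕ} (hk : k ≠ 0) (hy : 10 ≤ Real.log k) :
    ((2 * Nat.log 2 k + 8 : ℕ) : ℝ) ≤ 11 * Real.log k := by
  have h2 : (2 : ℝ) ^ (Nat.log 2 k) ≤ k := by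
    have h3 := Nat.pow_log_le_self 2 hk
    exact_mod_cast h3
  have h4 := Real.log_le_log (by positivity) h2
  rw [Real.log_pow] at h4
  have h5 : (0.69 : ℝ) < Real.log 2 := by
    have := Real.log_two_gt_d9
    linarith
  have h7 : (0 : ℝ) ≤ ((Nat.log 2 k : ℕ) : ℝ) := Nat.cast_nonneg _
  have h6 : 0.69 * ((Nat.log 2 k : ℕ) : ℝ) ≤ Real.log k := by
    nlinarith
  push_cast
  linarith

open Classical in
/-- The typical value. -/
theorem typical : ∃ c C : ℝ, 0 < c ∧ 0 < C ∧ ∃ k₀ : ℕ, ∀ k : ℕ, k₀ ≤ k →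
    2 * k * (univ.filter fun σ : Equiv.Perm (Fin k) =>
      ¬ ((∀ n : ℕ, (ex n σ : ℝ) ≤ (2 : ℝ) ^ (C * √k * Real.log k ^ 3) * n) ∧
        ∀ n : ℕ, (2 : ℝ) ^ √(k : ℝ) ≤ n →
          (2 : ℝ) ^ (c * √(k / Real.log k)) * n ≤ ex n σ)).card ≤ k.factorial := by
  obtain ⟨C, hC, hbal⟩ := balanced
  refine ⟨1 / 144, 704 * C, by norm_num, by linarith, 10 ^ 16, fun k hk => ?_⟩
  have hkR : (10 : ℝ) ^ 16 ≤ k := by exact_mod_cast hk
  have hk0 : (0 : ℝ) < k := lt_of_lt_of_le (by norm_num) hkR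
  obtain ⟨s, hs⟩ : ∃ s : ℝ, s = √(k : ℝ) := ⟨_, rfl⟩
  have hss : s * s = k := by
    rw [hs]
    exact Real.mul_self_sqrt hk0.le
  have hs8 : (10 : ℝ) ^ 8 ≤ s := by
    rw [hs]
    apply Real.le_sqrt_of_sq_le
    linarith [show ((10 : ℝ) ^ 8) ^ 2 = 10 ^ 16 by norm_num]
  have hs0 : 0 < s := lt_of_lt_of_le (by norm_num) hs8
  obtain ⟨y, hy⟩ : ∃ y : ℝ, y = Real.log k := ⟨_, rfl⟩
  have hys : y ≤ 2 * s := by
    rw [hy]
    exact fin_y hss hs0
  have hy10 : 10 ≤ y := by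
    rw [hy, Real.le_log_iff_exp_le hk0]
    have h1 : Real.exp 10 ≤ (3 : ℝ) ^ 10 := by
      have h2 : Real.exp 10 = Real.exp 1 ^ 10 := by
        rw [← Real.exp_nat_mul]
        norm_num
      rw [h2]
      exact pow_le_pow_left₀ (Real.exp_pos 1).le
        (le_trans Real.exp_one_lt_d9.le (by norm_num)) 10
    refine le_trans h1 (le_trans ?_ hkR)
    norm_num
  have hk4 : 4 ≤ k := le_trans (by norm_num) hk
  -- the parameters of the upper bound
  obtain ⟨q, hq⟩ : ∃ q, q = Nat.sqrt k := ⟨_, rfl⟩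
  have hqk : q * q ≤ k := by
    rw [hq]
    exact Nat.sqrt_le k
  have hqk' : k < (q + 1) * (q + 1) := by
    rw [hq]
    exact Nat.lt_succ_sqrt k
  have hq1 : 1 ≤ q := by
    by_contra h0
    have : q = 0 := by omega
    subst this
    omega
  have hqs : (q : ℝ) ≤ s := by
    rw [hs]
    apply Real.le_sqrt_of_sq_le
    have : ((q * q : ℕ) : ℝ) ≤ k := by exact_mod_cast hqk
    push_cast at this
    nlinarith
  -- the parameters of the lower bound
  obtain ⟨x, hx⟩ : ∃ x : ℝ, x = √(3 * k * y) := ⟨_, rfl⟩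
  have hxx : x * x = 3 * k * y := by
    rw [hx]
    exact Real.mul_self_sqrt (by positivity)
  obtain ⟨a, ha⟩ : ∃ a : ℕ, a = ⌈x⌉₊ := ⟨_, rfl⟩
  have hx0 : 0 ≤ x := by
    rw [hx]
    exact Real.sqrt_nonneg _
  have hxs : s ≤ x := fin_x hss hs0 hx0 hy10 hxx
  have hxa : x ≤ a := by
    rw [ha]
    exact Nat.le_ceil x
  have hax : (a : ℝ) < x + 1 := by
    rw [ha]
    exact Nat.ceil_lt_add_one hx0
  have ha2 : 3 * (k : ℝ) * Real.log k ≤ (a : ℝ) ^ 2 := by
    rw [← hy, ← hxx, sq]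
    exact mul_self_le_mul_self hx0 hxa
  have ha0 : 0 < a := by
    have : (0 : ℝ) < a := by linarith
    exact_mod_cast this
  obtain ⟨t, ht⟩ : ∃ t, t = k / a := ⟨_, rfl⟩
  have hta : t * a ≤ k := by
    rw [ht]
    exact Nat.div_mul_le_self k a
  have hta' : k < (t + 1) * a := by
    have h1 := Nat.div_add_mod k a
    have h2 := Nat.mod_lt k ha0
    rw [← ht] at h1
    rw [Nat.add_mul, one_mul, mul_comm t a]
    omega
  have htaR : (t : ℝ) * a ≤ k := by exact_mod_cast hta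
  have htaR' : (k : ℝ) < (t + 1) * a := by exact_mod_cast hta'
  have hts : (t : ℝ) ≤ s := fin_s hss hs0 (le_trans hxs hxa) htaR
  obtain ⟨z, hz⟩ : ∃ z : ℝ, z = √(k / y) := ⟨_, rfl⟩
  have hz0 : 0 ≤ z := by
    rw [hz]
    exact Real.sqrt_nonneg _
  have hzz : z * z = k / y := by
    rw [hz]
    exact Real.mul_self_sqrt (by positivity)
  have hz4 : 4000 ≤ z := by
    rw [hz]
    apply Real.le_sqrt_of_sq_le
    rw [le_div_iff₀ (by linarith), ← hss]
    nlinarith
  have htz : z / 4 ≤ t := fin_z hk0 hy10 hz4 hzz hx0 hxx (by exact_mod_cast ha0) hax htaR'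
  have ht1000 : 1000 ≤ t := by
    have : (1000 : ℝ) ≤ t := by linarith
    exact_mod_cast this
  have hsub : (univ.filter fun σ : Equiv.Perm (Fin k) =>
      ¬ ((∀ n : ℕ, (ex n σ : ℝ) ≤ (2 : ℝ) ^ (704 * C * √k * Real.log k ^ 3) * n) ∧
        ∀ n : ℕ, (2 : ℝ) ^ √(k : ℝ) ≤ n →
          (2 : ℝ) ^ (1 / 144 * √(k / Real.log k)) * n ≤ ex n σ)) ⊆
      (univ.filter fun σ : Equiv.Perm (Fin k) => ¬ Cells σ (Nat.sqrt k) (2 * Nat.log 2 k + 8)) ∪
      (univ.filter fun σ : Equiv.Perm (Fin k) => ¬ Full σ t a) := by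
    intro σ hσ
    simp only [mem_union, mem_filter, mem_univ, true_and] at hσ ⊢
    by_contra h0
    rw [not_or, not_not, not_not] at h0
    apply hσ
    refine ⟨fun n => ?_, fun n hn => ?_⟩
    · have h1 := hbal k q (q + 3) (2 * Nat.log 2 k + 8) σ hq1 (by omega) (by omega)
        (by nlinarith) (by rw [hq]; exact h0.1) n
      refine le_trans h1 (mul_le_mul_of_nonneg_right ?_ (Nat.cast_nonneg n))
      refine Real.rpow_le_rpow_of_exponent_le (by norm_num) ?_
      rw [← hs, ← hy]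
      have hlq : 1 + Real.log (((q + 3 : ℕ) : ℝ) * q) ≤ 4 * y := by
        have h2 : ((q + 3 : ℕ) : ℝ) * q ≤ (k : ℝ) * k := by
          have h3 : (q + 3) * q ≤ k * k := by nlinarith
          exact_mod_cast h3
        have h4 : Real.log (((q + 3 : ℕ) : ℝ) * q) ≤ Real.log ((k : ℝ) * k) :=
          Real.log_le_log (by positivity) h2
        rw [Real.log_mul hk0.ne' hk0.ne', ← hy] at h4
        linarith
      have hlq0 : 0 ≤ 1 + Real.log (((q + 3 : ℕ) : ℝ) * q) := by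
        have h2 : (1 : ℝ) ≤ ((q + 3 : ℕ) : ℝ) * q := by
          have h3 : 1 ≤ (q + 3) * q := Nat.mul_pos (by omega) hq1
          exact_mod_cast h3
        have := Real.log_nonneg h2
        linarith
      have hm4 : ((q + 3 : ℕ) : ℝ) ≤ 4 * s := by
        push_cast
        linarith
      have hw11 : ((2 * Nat.log 2 k + 8 : ℕ) : ℝ) ≤ 11 * y := by
        rw [hy]
        exact fin_w (by omega) (by rw [← hy]; exact hy10)
      calc C * ((q + 3 : ℕ) : ℝ) * ((2 * Nat.log 2 k + 8 : ℕ) : ℝ) *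
            (1 + Real.log (((q + 3 : ℕ) : ℝ) * q)) ^ 2
          ≤ C * (4 * s) * (11 * y) * (4 * y) ^ 2 := by
            gcongr
        _ = 704 * C * s * y ^ 3 := by ring
    · have h1 := full_lower h0.2 ht1000 (by rw [← hs]; exact hts) hn
      refine le_trans (mul_le_mul_of_nonneg_right ?_ (Nat.cast_nonneg n)) h1
      refine Real.rpow_le_rpow_of_exponent_le (by norm_num) ?_
      rw [← hy, ← hz]
      linarith
  have h1 := typ (k := k) (by omega)
  have h2 := typ_full hk4 hta ha2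
  have h3 := card_le_card hsub
  have h4 := card_union_le (univ.filter fun σ : Equiv.Perm (Fin k) =>
    ¬ Cells σ (Nat.sqrt k) (2 * Nat.log 2 k + 8))
      (univ.filter fun σ : Equiv.Perm (Fin k) => ¬ Full σ t a)
  have h5 := Nat.mul_le_mul_left (4 * k) (le_trans h3 h4)
  rw [Nat.mul_add] at h5
  have h6 : ∀ N : ℕ, 4 * k * N ≤ k.factorial + k.factorial → 2 * k * N ≤ k.factorial := by
    intro N hN
    have h7 : 4 * k * N = 2 * (2 * k * N) := by ring
    omega
  exact h6 _ (le_trans h5 (Nat.add_le_add h1 h2))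

end FHT
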