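import Mathlib

/-! Fibre calculus for a Finsler metric on the plane which is invariant in the second
coordinate. -/

set_option autoImplicit false

open Set Filter Topology

namespace Pool.Agent.FHT

/-- The hypotheses on the metric which are used below. -/
structure RotFin (F : (ℝ × ℝ) × (ℝ × ℝ) → ℝ) : Prop where
  cont : Continuous F
  nonneg : ∀ z, 0 ≤ F z
  smooth : ContDiffOn ℝ ((⊤ : ℕ∞) : WithTop ℕ∞) F {z | z.2 ≠ 0}
  inv : ∀ (p v : ℝ × ℝ) (s : ℝ), F ((p.1, p.2 + s), v) = F (p, v)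
  hom : ∀ p v : ℝ × ℝ, ∀ c : ℝ, 0 < c → F (p, c • v) = c * F (p, v)
  hess : ∀ p v w : ℝ × ℝ, v ≠ 0 → w ≠ 0 →
    0 < fderiv ℝ (fderiv ℝ (fun u : ℝ × ℝ => F (p, u) ^ 2)) v w w

variable {F : (ℝ × ℝ) × (ℝ × ℝ) → ℝ}

/-- The derivative of the squared metric in the fibre direction. -/
noncomputable def dV (F : (ℝ × ℝ) × (ℝ × ℝ) → ℝ) (p u : ℝ × ℝ) : (ℝ × ℝ) →L[ℝ] ℝ :=
  fderiv ℝ (fun u : ℝ × ℝ => F (p, u) ^ 2) u

/-- The derivative of the squared metric in the base direction. -/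
noncomputable def dQ (F : (ℝ × ℝ) × (ℝ × ℝ) → ℝ) (p u : ℝ × ℝ) : (ℝ × ℝ) →L[ℝ] ℝ :=
  fderiv ℝ (fun q : ℝ × ℝ => F (q, u) ^ 2) p

theorem isOpen_D : IsOpen {z : (ℝ × ℝ) × (ℝ × ℝ) | z.2 ≠ 0} :=
  isOpen_ne_fun continuous_snd continuous_const

theorem RotFin.sq (h : RotFin F) {z : (ℝ × ℝ) × (ℝ × ℝ)} (hz : z.2 ≠ 0) :
    ContDiffAt ℝ ((⊤ : ℕ∞) : WithTop ℕ∞) (fun z => F z ^ 2) z :=
  (h.smooth.contDiffAt (isOpen_D.mem_nhds hz)).pow 2

theorem RotFin.sq_hasFDerivAt (h : RotFin F) {z : (ℝ × ℝ) × (ℝ × ℝ)} (hz : z.2 ≠ 0) :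
    HasFDerivAt (fun z => F z ^ 2) (fderiv ℝ (fun z => F z ^ 2) z) z :=
  ((h.sq hz).differentiableAt (by simp)).hasFDerivAt

theorem RotFin.hasFDerivAt_dV (h : RotFin F) (p : ℝ × ℝ) {u : ℝ × ℝ} (hu : u ≠ 0) :
    HasFDerivAt (fun u : ℝ × ℝ => F (p, u) ^ 2) (dV F p u) u := by
  have h1 : HasFDerivAt (fun u : ℝ × ℝ => ((p, u) : (ℝ × ℝ) × (ℝ × ℝ)))
      (ContinuousLinearMap.inr ℝ (ℝ × ℝ) (ℝ × ℝ)) u := hasFDerivAt_prodMk_right p u
  have h2 : HasFDerivAt (fun z => F z ^ 2) (fderiv ℝ (fun z => F z ^ 2) (p, u)) (p, u) :=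
    h.sq_hasFDerivAt (z := (p, u)) hu
  exact (h2.comp u h1).differentiableAt.hasFDerivAt

theorem RotFin.dV_eq (h : RotFin F) (p : ℝ × ℝ) {u : ℝ × ℝ} (hu : u ≠ 0) :
    dV F p u = (fderiv ℝ (fun z => F z ^ 2) (p, u)).comp
      (ContinuousLinearMap.inr ℝ (ℝ × ℝ) (ℝ × ℝ)) := by
  have h1 : HasFDerivAt (fun u : ℝ × ℝ => ((p, u) : (ℝ × ℝ) × (ℝ × ℝ)))
      (ContinuousLinearMap.inr ℝ (ℝ × ℝ) (ℝ × ℝ)) u := hasFDerivAt_prodMk_right p u
  have h2 : HasFDerivAt (fun z => F z ^ 2) (fderiv ℝ (fun z => F z ^ 2) (p, u)) (p, u) :=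
    h.sq_hasFDerivAt (z := (p, u)) hu
  exact (h2.comp u h1).fderiv

theorem RotFin.dQ_eq (h : RotFin F) (p : ℝ × ℝ) {u : ℝ × ℝ} (hu : u ≠ 0) :
    dQ F p u = (fderiv ℝ (fun z => F z ^ 2) (p, u)).comp
      (ContinuousLinearMap.inl ℝ (ℝ × ℝ) (ℝ × ℝ)) := by
  have h1 : HasFDerivAt (fun q : ℝ × ℝ => ((q, u) : (ℝ × ℝ) × (ℝ × ℝ)))
      (ContinuousLinearMap.inl ℝ (ℝ × ℝ) (ℝ × ℝ)) p := hasFDerivAt_prodMk_left p u
  have h2 : HasFDerivAt (fun z => F z ^ 2) (fderiv ℝ (fun z => F z ^ 2) (p, u)) (p, u) :=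
    h.sq_hasFDerivAt (z := (p, u)) hu
  exact (h2.comp p h1).fderiv

/-- The fibre derivative is differentiable off the zero section. -/
theorem RotFin.dV_diff (h : RotFin F) {z : (ℝ × ℝ) × (ℝ × ℝ)} (hz : z.2 ≠ 0) :
    DifferentiableAt ℝ (fun z : (ℝ × ℝ) × (ℝ × ℝ) => dV F z.1 z.2) z := by
  have h1 : ContDiffAt ℝ 1 (fderiv ℝ (fun z => F z ^ 2)) z :=
    (h.sq hz).fderiv_right (by norm_cast)
  have h2 : DifferentiableAt ℝ (fun z => (fderiv ℝ (fun z => F z ^ 2) z).comp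
      (ContinuousLinearMap.inr ℝ (ℝ × ℝ) (ℝ × ℝ))) z :=
    (h1.differentiableAt (by simp)).clm_comp (differentiableAt_const _)
  refine h2.congr_of_eventuallyEq ?_
  filter_upwards [isOpen_D.mem_nhds hz] with y hy
  exact h.dV_eq y.1 hy

theorem RotFin.dV_diff_fibre (h : RotFin F) (p : ℝ × ℝ) {u : ℝ × ℝ} (hu : u ≠ 0) :
    DifferentiableAt ℝ (fderiv ℝ (fun u : ℝ × ℝ => F (p, u) ^ 2)) u := by
  have h1 : DifferentiableAt ℝ (fun u : ℝ × ℝ => ((p, u) : (ℝ × ℝ) × (ℝ × ℝ))) u :=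
    (hasFDerivAt_prodMk_right (𝕜 := ℝ) p u).differentiableAt
  have h2 : DifferentiableAt ℝ (fun z : (ℝ × ℝ) × (ℝ × ℝ) => dV F z.1 z.2) (p, u) :=
    h.dV_diff (z := (p, u)) hu
  have h3 := DifferentiableAt.comp (𝕜 := ℝ)
    (g := fun z : (ℝ × ℝ) × (ℝ × ℝ) => dV F z.1 z.2)
    (f := fun u : ℝ × ℝ => ((p, u) : (ℝ × ℝ) × (ℝ × ℝ))) u h2 h1
  exact h3

/-- First derivative along a line. -/
theorem RotFin.line1 (h : RotFin F) (p a q : ℝ × ℝ) {c : ℝ} (hc : a + c • q ≠ 0) :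
    HasDerivAt (fun c : ℝ => F (p, a + c • q) ^ 2) (dV F p (a + c • q) q) c := by
  have h1 : HasDerivAt (fun c : ℝ => a + c • q) q c := by
    simpa using ((hasDerivAt_id c).smul_const q).const_add a
  exact (h.hasFDerivAt_dV p hc).comp_hasDerivAt c h1

/-- Second derivative along a line. -/
theorem RotFin.line2 (h : RotFin F) (p a q : ℝ × ℝ) {c : ℝ} (hc : a + c • q ≠ 0) :
    HasDerivAt (fun c : ℝ => dV F p (a + c • q) q)
      (fderiv ℝ (fderiv ℝ (fun u : ℝ × ℝ => F (p, u) ^ 2)) (a + c • q) q q) c := by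
  have h1 : HasDerivAt (fun c : ℝ => a + c • q) q c := by
    simpa using ((hasDerivAt_id c).smul_const q).const_add a
  have h2 := (h.dV_diff_fibre p hc).hasFDerivAt.comp_hasDerivAt c h1
  have h3 := h2.clm_apply (hasDerivAt_const c q)
  simp only [map_zero, add_zero] at h3
  exact h3

theorem RotFin.zero (h : RotFin F) (p : ℝ × ℝ) : F (p, 0) = 0 := by
  have := h.hom p 0 2 (by norm_num)
  rw [smul_zero] at this
  linarith

theorem RotFin.ray (h : RotFin F) (p : ℝ × ℝ) {u : ℝ × ℝ} (hu : u ≠ 0) {c : ℝ} (hc : 0 < c) :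
    dV F p (c • u) u = 2 * c * F (p, u) ^ 2 := by
  have h1 := h.line1 p 0 u (c := c) (by simpa using ⟨hc.ne', hu⟩)
  have h2 : HasDerivAt (fun c : ℝ => c ^ 2 * F (p, u) ^ 2) (2 * c * F (p, u) ^ 2) c := by
    simpa using (hasDerivAt_pow 2 c).mul_const (F (p, u) ^ 2)
  have h3 : (fun c : ℝ => F (p, (0 : ℝ × ℝ) + c • u) ^ 2) =ᶠ[𝓝 c]
      (fun c : ℝ => c ^ 2 * F (p, u) ^ 2) := by
    filter_upwards [lt_mem_nhds hc] with d hd
    rw [zero_add, h.hom p u d hd]; ring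
  have h4 := (h2.congr_of_eventuallyEq h3).unique h1
  rw [zero_add] at h4
  exact h4.symm

theorem RotFin.euler (h : RotFin F) (p : ℝ × ℝ) {u : ℝ × ℝ} (hu : u ≠ 0) :
    dV F p u u = 2 * F (p, u) ^ 2 := by
  have := h.ray p hu one_pos
  rw [one_smul] at this
  linarith

theorem RotFin.pos (h : RotFin F) (p : ℝ × ℝ) {u : ℝ × ℝ} (hu : u ≠ 0) : 0 < F (p, u) := by
  have h1 := h.line2 p 0 u (c := 1) (by simpa using hu)
  have h2 : HasDerivAt (fun c : ℝ => 2 * c * F (p, u) ^ 2) (2 * F (p, u) ^ 2) 1 := by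
    simpa using ((hasDerivAt_id (1 : ℝ)).const_mul 2).mul_const (F (p, u) ^ 2)
  have h3 : (fun c : ℝ => dV F p ((0 : ℝ × ℝ) + c • u) u) =ᶠ[𝓝 1]
      (fun c : ℝ => 2 * c * F (p, u) ^ 2) := by
    filter_upwards [lt_mem_nhds one_pos] with d hd
    rw [zero_add, h.ray p hu hd]
  have h4 := (h2.congr_of_eventuallyEq h3).unique h1
  have h5 := h.hess p u u hu hu
  rw [zero_add, one_smul] at h4
  rw [← h4] at h5
  have h6 := h.nonneg (p, u)
  rcases h6.lt_or_eq with h7 | h7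
  · exact h7
  · rw [← h7] at h5; norm_num at h5

/-- The convexity inequality on a segment which avoids zero. -/
theorem RotFin.seg (h : RotFin F) (p v w : ℝ × ℝ) (hs : ∀ c ∈ Icc (0 : ℝ) 1, v + c • (w - v) ≠ 0) :
    dV F p v w ≤ F (p, v) ^ 2 + F (p, w) ^ 2 := by
  have hv : v ≠ 0 := by simpa using hs 0 ⟨le_rfl, zero_le_one⟩
  obtain ⟨c, hc, hc2⟩ := exists_hasDerivAt_eq_slope (fun c : ℝ => F (p, v + c • (w - v)) ^ 2)
    (fun c => dV F p (v + c • (w - v)) (w - v)) (zero_lt_one' ℝ)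
    (fun c hc => (h.line1 p v (w - v) (hs c hc)).continuousAt.continuousWithinAt)
    (fun c hc => h.line1 p v (w - v) (hs c (Ioo_subset_Icc_self hc)))
  obtain ⟨d, hd, hd2⟩ := exists_hasDerivAt_eq_slope (fun c => dV F p (v + c • (w - v)) (w - v))
    (fun c => fderiv ℝ (fderiv ℝ (fun u : ℝ × ℝ => F (p, u) ^ 2)) (v + c • (w - v)) (w - v) (w - v))
    hc.1
    (fun d hd => (h.line2 p v (w - v)
      (hs d ⟨hd.1, hd.2.trans hc.2.le⟩)).continuousAt.continuousWithinAt)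
    (fun d hd => h.line2 p v (w - v) (hs d ⟨hd.1.le, hd.2.le.trans hc.2.le⟩))
  have h1 : 0 ≤ fderiv ℝ (fderiv ℝ (fun u : ℝ × ℝ => F (p, u) ^ 2)) (v + d • (w - v))
      (w - v) (w - v) := by
    by_cases hw : w - v = 0
    · rw [hw]; simp
    · exact (h.hess p _ _ (hs d ⟨hd.1.le, hd.2.le.trans hc.2.le⟩) hw).le
  rw [hd2, le_div_iff₀ (by linarith [hc.1])] at h1
  simp only [zero_smul, add_zero, one_smul, add_sub_cancel, sub_zero, div_one] at h1 hc2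
  have h2 := h.euler p hv
  have h3 : dV F p v (w - v) = dV F p v w - dV F p v v := map_sub _ _ _
  linarith

/-- The fundamental inequality. -/
theorem RotFin.fund (h : RotFin F) (p : ℝ × ℝ) {v : ℝ × ℝ} (hv : v ≠ 0) (w : ℝ × ℝ) :
    dV F p v w ≤ 2 * F (p, v) * F (p, w) := by
  by_cases hr : ∃ r : ℝ, 0 ≤ r ∧ w = -(r • v)
  · obtain ⟨r, hr, hw⟩ := hr
    have h1 : dV F p v w = -(r * dV F p v v) := by rw [hw]; simp
    rw [h1, h.euler p hv]
    have h2 : 0 ≤ r * (2 * F (p, v) ^ 2) := by positivity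
    have h3 : 0 ≤ 2 * F (p, v) * F (p, w) :=
      mul_nonneg (mul_nonneg (by norm_num) (h.nonneg _)) (h.nonneg _)
    linarith
  · have hw : w ≠ 0 := by
      rintro rfl
      exact hr ⟨0, le_rfl, by simp⟩
    have hL := h.pos p hv
    have hK := h.pos p hw
    have hc : 0 < F (p, v) / F (p, w) := div_pos hL hK
    have hs : ∀ c ∈ Icc (0 : ℝ) 1, v + c • ((F (p, v) / F (p, w)) • w - v) ≠ 0 := by
      intro c hc1 h0
      rcases hc1.1.lt_or_eq with hc2 | hc2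
      · refine hr ⟨(1 - c) / (c * (F (p, v) / F (p, w))), div_nonneg (by linarith [hc1.2])
          (by positivity), ?_⟩
        have h2 : (c * (F (p, v) / F (p, w))) • w = -((1 - c) • v) := by
          have h3 : (c * (F (p, v) / F (p, w))) • w + (1 - c) • v = 0 := by
            rw [← h0]; module
          exact eq_neg_of_add_eq_zero_left h3
        have h4 : w = (c * (F (p, v) / F (p, w)))⁻¹ • ((c * (F (p, v) / F (p, w))) • w) := by
          rw [smul_smul, inv_mul_cancel₀ (by positivity), one_smul]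
        refine h4.trans ?_
        rw [h2, div_eq_inv_mul (1 - c), smul_neg, smul_smul]
      · rw [← hc2] at h0
        simp at h0
        exact hv h0
    have h1 := h.seg p v ((F (p, v) / F (p, w)) • w) hs
    rw [h.hom p w _ hc, map_smul, smul_eq_mul, div_mul_cancel₀ _ hK.ne', div_mul_eq_mul_div,
      div_le_iff₀ hK] at h1
    have h2 : F (p, v) * dV F p v w ≤ F (p, v) * (2 * F (p, v) * F (p, w)) := by nlinarith
    exact le_of_mul_le_mul_left h2 hL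

end Pool.Agent.FHT
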