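import Pool.Agent.FHT.Volume

/-! Closed geodesics in both directions. -/

set_option autoImplicit false

open Set Filter Topology MeasureTheory

namespace Pool.Agent.FHT

variable {F : (ℝ × ℝ) × (ℝ × ℝ) → ℝ}

theorem RotFin.base_hasFDerivAt (h : RotFin F) (p : ℝ × ℝ) {u : ℝ × ℝ} (hu : u ≠ 0) :
    HasFDerivAt (fun q : ℝ × ℝ => F (q, u) ^ 2) (dQ F p u) p := by
  have h1 : HasFDerivAt (fun q : ℝ × ℝ => ((q, u) : (ℝ × ℝ) × (ℝ × ℝ)))
      (ContinuousLinearMap.inl ℝ (ℝ × ℝ) (ℝ × ℝ)) p := hasFDerivAt_prodMk_left p u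
  have h2 : HasFDerivAt (fun z => F z ^ 2) (fderiv ℝ (fun z => F z ^ 2) (p, u)) (p, u) :=
    h.sq_hasFDerivAt (z := (p, u)) hu
  have h3 := HasFDerivAt.comp (g := fun z : (ℝ × ℝ) × (ℝ × ℝ) => F z ^ 2)
    (f := fun q : ℝ × ℝ => ((q, u) : (ℝ × ℝ) × (ℝ × ℝ))) p h2 h1
  have h4 : DifferentiableAt ℝ (fun q : ℝ × ℝ => F (q, u) ^ 2) p := h3.differentiableAt
  exact h4.hasFDerivAt

theorem RotFin.base_inv (h : RotFin F) {x y : ℝ × ℝ} (hxy : x.1 = y.1) (v : ℝ × ℝ) :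
    F (x, v) = F (y, v) := by
  have h2 := h.inv y v (x.2 - y.2)
  have h3 : (y.1, y.2 + (x.2 - y.2)) = x := by
    ext
    · exact hxy.symm
    · simp
  rw [h3] at h2
  exact h2

/-- There is a longest circle in each direction. -/
theorem RotFin.exists_circle (h : RotFin F)
    (hcomp : ∀ x v : ℝ × ℝ, v ≠ 0 → ∃ γ : ℝ → ℝ × ℝ, ContDiff ℝ 2 γ ∧ γ 0 = x ∧ deriv γ 0 = v ∧
      Geo F γ)
    (hvol : ∫⁻ x in (Set.univ : Set ℝ) ×ˢ Set.Ico (0 : ℝ) (2 * Real.pi),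
      volume (dualBall F x) < ⊤) {f : ℝ} (hf : |f| = 1) :
    ∃ x : ℝ, ∀ᶠ y in 𝓝 x, F ((y, 0), (0, f)) ≤ F ((x, 0), (0, f)) := by
  have hf0 : f ≠ 0 := by
    rintro rfl
    norm_num at hf
  have hpos : 0 < F (((0 : ℝ), 0), (0, f)) := h.pos _ (by simp [hf0])
  have hend : ∀ e : ℝ, e ≠ 0 → ∃ y : ℝ, 0 ≤ e * y ∧
      F ((y, 0), (0, f)) < F (((0 : ℝ), 0), (0, f)) := by
    intro e he
    by_contra hcon
    push Not at hcon
    have h1 := h.volume_top hcomp (y0 := 0) he hf hpos (fun y hy => hcon y (by simpa using hy))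
    rw [h1] at hvol
    exact lt_irrefl _ hvol
  obtain ⟨yp, hyp, hyp2⟩ := hend 1 one_ne_zero
  obtain ⟨ym, hym, hym2⟩ := hend (-1) (by norm_num)
  have hyp3 : 0 ≤ yp := by simpa using hyp
  have hym3 : ym ≤ 0 := by linarith
  have hcont : Continuous (fun y : ℝ => F ((y, 0), (0, f))) := h.cont.comp (by fun_prop)
  obtain ⟨x, hx, hmax⟩ := isCompact_Icc.exists_isMaxOn (⟨0, hym3, hyp3⟩ : (Icc ym yp).Nonempty)
    hcont.continuousOn
  have h0 : F (((0 : ℝ), 0), (0, f)) ≤ F ((x, 0), (0, f)) := hmax ⟨hym3, hyp3⟩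
  refine ⟨x, ?_⟩
  have hx1 : ym < x := by
    rcases hx.1.lt_or_eq with h1 | h1
    · exact h1
    · rw [h1] at hym2; linarith
  have hx2 : x < yp := by
    rcases hx.2.lt_or_eq with h1 | h1
    · exact h1
    · rw [← h1] at hyp2; linarith
  filter_upwards [Icc_mem_nhds hx1 hx2] with y hy
  exact hmax hy

/-- A locally longest circle is a closed geodesic. -/
theorem RotFin.circle_geodesic (h : RotFin F) {f : ℝ} (hf : f ≠ 0) {x : ℝ}
    (hx : ∀ᶠ y in 𝓝 x, F ((y, 0), (0, f)) ≤ F ((x, 0), (0, f))) (t : ℝ) :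
    dQ F (x, f * t) (0, f) = 0 := by
  have hu : ((0 : ℝ), f) ≠ 0 := by simp [hf]
  have h1 : dQ F (x, f * t) (0, f) (1, 0) = 0 := by
    have h2 := h.base_hasFDerivAt (x, f * t) hu
    have h3 : HasDerivAt (fun y : ℝ => ((y, f * t) : ℝ × ℝ)) (1, 0) x :=
      (hasDerivAt_id x).prodMk (hasDerivAt_const x _)
    have h4 : HasDerivAt (fun y : ℝ => F ((y, f * t), (0, f)) ^ 2)
        (dQ F (x, f * t) (0, f) (1, 0)) x := by
      have h5 := HasFDerivAt.comp_hasDerivAt (l := fun q : ℝ × ℝ => F (q, (0, f)) ^ 2) x h2 h3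
      exact h5
    refine IsLocalMax.hasDerivAt_eq_zero ?_ h4
    filter_upwards [hx] with y hy
    rw [h.base_inv (x := (y, f * t)) (y := (y, 0)) rfl, h.base_inv (x := (x, f * t)) (y := (x, 0)) rfl]
    exact pow_le_pow_left₀ (h.nonneg _) hy 2
  have h2 := h.dQ_circle (x, f * t) hu
  ext <;> simp [h1, h2]

end Pool.Agent.FHT
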