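import Mathlib

/-!
# FHT: Fueredi-Hajnal constants of balanced and of typical permutations.  Definitions

A 0-1 matrix is the finite set of the positions of its ones (row, column).
-/

namespace FHT

open Finset

/-- The 0-1 matrix `A` contains the permutation matrix of `σ`. -/
def Cont {k : ℕ} (A : Finset (ℕ × ℕ)) (σ : Equiv.Perm (Fin k)) : Prop :=
  ∃ a b : Fin k → ℕ, StrictMono a ∧ StrictMono b ∧ ∀ i, (a i, b (σ i)) ∈ A

/-- Cut the permutation matrix of `σ` into square cells of side `q`: each cell has at most `w` ones. -/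
def Cells {k : ℕ} (σ : Equiv.Perm (Fin k)) (q w : ℕ) : Prop :=
  ∀ g h : ℕ, (univ.filter fun i : Fin k => (i : ℕ) / q = g ∧ (σ i : ℕ) / q = h).card ≤ w

/-- All square cells of side `a` with indices below `t` contain a one. -/
def Full {k : ℕ} (σ : Equiv.Perm (Fin k)) (t a : ℕ) : Prop :=
  ∀ g < t, ∀ h < t, ∃ i : Fin k, (i : ℕ) / a = g ∧ (σ i : ℕ) / a = h

/-- The mass of the rows with prefix `u` (`a` digits in base `D` dropped) and the columns with prefix `v`
(`b` digits dropped). -/
def mg (D : ℕ) (p : ℕ → ℕ → ℝ) (a b u v : ℕ) : ℝ :=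
  ∑ x ∈ range (D ^ a), ∑ y ∈ range (D ^ b), p (u * D ^ a + x) (v * D ^ b + y)

open Classical in
/-- The largest number of ones of an `n × n` matrix which does not contain `σ`. -/
noncomputable def ex {k : ℕ} (n : ℕ) (σ : Equiv.Perm (Fin k)) : ℕ :=
  (((range n ×ˢ range n).powerset).filter fun A => ¬ Cont A σ).sup card

theorem Cells.symm {k : ℕ} {σ : Equiv.Perm (Fin k)} {q w : ℕ} (h : Cells σ q w) :
    Cells σ.symm q w := by
  intro g g'
  refine le_trans (le_of_eq ?_) (h g' g)
  refine card_bij (fun i _ => σ.symm i) ?_ ?_ ?_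
  · intro i hi
    simp only [mem_filter, mem_univ, true_and, Equiv.apply_symm_apply] at hi ⊢
    exact ⟨hi.2, hi.1⟩
  · intro i _ j _ hij
    exact σ.symm.injective hij
  · intro j hj
    refine ⟨σ j, ?_, σ.symm_apply_apply j⟩
    simp only [mem_filter, mem_univ, true_and, Equiv.symm_apply_apply] at hj ⊢
    exact ⟨hj.2, hj.1⟩

end FHT
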