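import Pool.Agent.FHT.Row
import Pool.Agent.FHT.MT

/-!
# FHT.Det: the upper bound for balanced permutations
-/

namespace FHT

open Finset

theorem det {k q m w L n : ℕ} (σ : Equiv.Perm (Fin k)) (hq : 1 ≤ q) (hm : k ≤ m * q) (hw : 1 ≤ w)
    (hc : Cells σ q w) (hL : 16 * (1 + Real.log (64 * m * q)) ≤ L * Real.log 2)
    (hn : 4096 * m * w * L ≤ n) (hn1 : 24 ≤ n) (hL1 : 1 ≤ L) (N : ℕ) (A : Finset (ℕ × ℕ)) (hA : A ⊆ range N ×ˢ range N)
    (hA' : ¬ Cont A σ) : A.card ≤ 2 ^ (17 * L * n + 3) * N := by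
  obtain ⟨r, hr⟩ : ∃ r, r = L * n := ⟨_, rfl⟩
  have hrn : n ≤ r := by
    rw [hr]
    nlinarith
  obtain ⟨ℓ, hℓ⟩ : ∃ ℓ, ℓ = 2 ^ (r / 2 - 1) := ⟨_, rfl⟩
  have h2 : (2 ^ L) ^ n = 2 ^ r := by rw [hr, pow_mul]
  have hlog : 7 / 16 * (n : ℝ) * (L * Real.log 2) ≤ Real.log ℓ := by
    rw [hℓ]
    push_cast
    rw [Real.log_pow]
    have h3 : (7 : ℝ) / 16 * n * L ≤ ((r / 2 - 1 : ℕ) : ℝ) := by
      have h4 : 7 * r ≤ 16 * (r / 2 - 1) := by omega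
      have h5 : ((7 * r : ℕ) : ℝ) ≤ ((16 * (r / 2 - 1) : ℕ) : ℝ) := by exact_mod_cast h4
      have h6 : (r : ℝ) = L * n := by
        rw [hr]
        push_cast
        ring
      rw [Nat.cast_mul, Nat.cast_mul, h6] at h5
      push_cast at h5 ⊢
      linarith
    have h7 : 0 ≤ Real.log 2 := Real.log_nonneg (by norm_num)
    calc 7 / 16 * (n : ℝ) * (L * Real.log 2) = (7 / 16 * n * L) * Real.log 2 := by ring
      _ ≤ _ := mul_le_mul_of_nonneg_right h3 h7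
  have hs : 4 * ℓ ^ 2 ≤ (2 ^ L) ^ n := by
    rw [h2, hℓ, ← pow_mul, show 4 = 2 ^ 2 from rfl, ← pow_add]
    exact Nat.pow_le_pow_right (by norm_num) (by omega)
  have h := mt (s := (2 ^ L) ^ n) (ℓ := ℓ) (W := (2 ^ L) ^ (16 * n)) σ (by
      rw [h2]
      calc 2 = 2 ^ 1 := rfl
        _ ≤ 2 ^ r := Nat.pow_le_pow_right (by norm_num) (by omega)) hs
    (Nat.one_le_iff_ne_zero.2 (by positivity))
    (fun B hB hrow => row σ hq hm hw hc hL hn hlog B hB hrow)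
    (fun B hB hrow => row σ.symm hq hm hw hc.symm hL hn hlog B hB hrow) N A hA hA'
  refine le_trans h (le_of_eq ?_)
  rw [← pow_mul, ← pow_mul, show 8 = 2 ^ 3 from rfl, ← pow_add, ← pow_add]
  congr 2
  ring

end FHT
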