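import Pool.Agent.FHT.Basic

/-! A geodesic with zero angular momentum runs to one end of the cylinder. -/

set_option autoImplicit false

open Set Filter Topology

namespace Pool.Agent.FHT

variable {F : (ℝ × ℝ) × (ℝ × ℝ) → ℝ}

/-- The metric is bounded below on the unit sphere of a fibre. -/
theorem RotFin.lower (h : RotFin F) (p : ℝ × ℝ) :
    ∃ m : ℝ, 0 < m ∧ ∀ u : ℝ × ℝ, m * ‖u‖ ≤ F (p, u) := by
  have hK : IsCompact (Metric.sphere (0 : ℝ × ℝ) 1) := isCompact_sphere _ _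
  have hne : (Metric.sphere (0 : ℝ × ℝ) 1).Nonempty := ⟨(1, 0), by simp⟩
  have hc : ContinuousOn (fun u : ℝ × ℝ => F (p, u)) (Metric.sphere (0 : ℝ × ℝ) 1) :=
    (h.cont.comp (by fun_prop : Continuous fun u : ℝ × ℝ => ((p, u) : (ℝ × ℝ) × (ℝ × ℝ)))).continuousOn
  obtain ⟨u0, hu0, hmin⟩ := hK.exists_isMinOn hne hc
  have hu0' : u0 ≠ 0 := by
    rintro rfl
    simp at hu0
  refine ⟨F (p, u0), h.pos p hu0', fun u => ?_⟩
  by_cases hu : u = 0
  · simp [hu, h.zero]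
  · have hn : 0 < ‖u‖ := norm_pos_iff.2 hu
    have h1 : F (p, u0) ≤ F (p, ‖u‖⁻¹ • u) := hmin (by
      simp [norm_smul, hn.ne'])
    rw [h.hom p u _ (inv_pos.2 hn), inv_mul_eq_div, le_div_iff₀ hn] at h1
    exact h1

/-- A direction with prescribed sign and zero angular momentum. -/
theorem RotFin.init (h : RotFin F) (p : ℝ × ℝ) {e : ℝ} (he : e ≠ 0) :
    ∃ s : ℝ, dV F p (e, s) (0, 1) = 0 := by
  obtain ⟨m, hm, hm2⟩ := h.lower p
  have hcont : Continuous (fun s : ℝ => F (p, (e, s))) := h.cont.comp (by fun_prop)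
  have hlim : Tendsto (fun s : ℝ => F (p, (e, s))) (cocompact ℝ) atTop := by
    refine tendsto_atTop_mono (f := fun s : ℝ => m * ‖s‖) (fun s => ?_)
      ((tendsto_norm_cocompact_atTop).const_mul_atTop hm)
    refine le_trans ?_ (hm2 (e, s))
    exact mul_le_mul_of_nonneg_left (by simp [Prod.norm_def]) hm.le
  obtain ⟨s, hs⟩ := hcont.exists_forall_le hlim
  refine ⟨s, ?_⟩
  have hne : (e, s) ≠ (0 : ℝ × ℝ) := by simp [he]
  have h1 : HasDerivAt (fun c : ℝ => F (p, (e, s) + c • ((0 : ℝ), (1 : ℝ))) ^ 2)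
      (dV F p (e, s) (0, 1)) 0 := by
    have := h.line1 p (e, s) (0, 1) (c := 0) (by simpa using hne)
    simpa using this
  refine IsLocalMin.hasDerivAt_eq_zero (f := fun c : ℝ => F (p, (e, s) + c • ((0 : ℝ), (1 : ℝ))) ^ 2) ?_ h1
  refine Eventually.of_forall fun c => ?_
  have h2 := hs (s + c)
  have h3 := h.nonneg (p, (e, s))
  simp only [Prod.smul_mk, smul_eq_mul, mul_zero, mul_one, Prod.mk_add_mk, add_zero]
  exact pow_le_pow_left₀ h3 h2 2

/-- Invariance: the base derivative has no component along the circle. -/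
theorem RotFin.dQ_circle (h : RotFin F) (p : ℝ × ℝ) {u : ℝ × ℝ} (hu : u ≠ 0) :
    dQ F p u (0, 1) = 0 := by
  have h1 : HasFDerivAt (fun q : ℝ × ℝ => ((q, u) : (ℝ × ℝ) × (ℝ × ℝ)))
      (ContinuousLinearMap.inl ℝ (ℝ × ℝ) (ℝ × ℝ)) p := hasFDerivAt_prodMk_left p u
  have h2 : HasFDerivAt (fun z => F z ^ 2) (fderiv ℝ (fun z => F z ^ 2) (p, u)) (p, u) :=
    h.sq_hasFDerivAt (z := (p, u)) hu
  have h3 : HasFDerivAt (fun q : ℝ × ℝ => F (q, u) ^ 2) (dQ F p u) p := by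
    have h2' := HasFDerivAt.comp (g := fun z : (ℝ × ℝ) × (ℝ × ℝ) => F z ^ 2)
      (f := fun q : ℝ × ℝ => ((q, u) : (ℝ × ℝ) × (ℝ × ℝ))) p h2 h1
    have h2'' : DifferentiableAt ℝ (fun q : ℝ × ℝ => F (q, u) ^ 2) p := h2'.differentiableAt
    exact h2''.hasFDerivAt
  have h4 : HasDerivAt (fun c : ℝ => p + c • ((0 : ℝ), (1 : ℝ))) (0, 1) 0 := by
    simpa using ((hasDerivAt_id (0 : ℝ)).smul_const ((0 : ℝ), (1 : ℝ))).const_add p
  have h5 : HasDerivAt (fun c : ℝ => F (p + c • ((0 : ℝ), (1 : ℝ)), u) ^ 2)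
      (dQ F p u (0, 1)) 0 := by
    have h6 : HasFDerivAt (fun q : ℝ × ℝ => F (q, u) ^ 2) (dQ F p u)
      (p + (0 : ℝ) • ((0 : ℝ), (1 : ℝ))) := by simpa using h3
    exact h6.comp_hasDerivAt (0 : ℝ) h4
  have h7 : (fun c : ℝ => F (p + c • ((0 : ℝ), (1 : ℝ)), u) ^ 2) = fun _ => F (p, u) ^ 2 := by
    funext c
    have h8 := h.inv p u c
    have h9 : p + c • ((0 : ℝ), (1 : ℝ)) = (p.1, p.2 + c) := by
      ext <;> simp
    rw [h9, h8]
  rw [h7] at h5
  exact h5.unique (hasDerivAt_const _ _)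

/-- The derivative of the squared speed along a curve. -/
theorem RotFin.energy_hasDerivAt (h : RotFin F) {γ : ℝ → ℝ × ℝ} (hγ : ContDiff ℝ 2 γ) {t : ℝ}
    (ht : deriv γ t ≠ 0) :
    HasDerivAt (fun s => F (γ s, deriv γ s) ^ 2)
      (dQ F (γ t) (deriv γ t) (deriv γ t) + dV F (γ t) (deriv γ t) (deriv (deriv γ) t)) t := by
  have h1 : HasDerivAt γ (deriv γ t) t := (hγ.differentiable (by simp)).differentiableAt.hasDerivAt
  have h2 : HasDerivAt (deriv γ) (deriv (deriv γ) t) t := by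
    have h3 : ContDiff ℝ 1 (deriv γ) := (contDiff_succ_iff_deriv (n := 1).1 hγ).2.2
    exact (h3.differentiable (by simp)).differentiableAt.hasDerivAt
  have h3 := h.sq_hasFDerivAt (z := (γ t, deriv γ t)) ht
  have h4 := h3.comp_hasDerivAt t (h1.prodMk h2)
  rw [h.dQ_eq _ ht, h.dV_eq _ ht]
  refine h4.congr_deriv ?_
  simp only [ContinuousLinearMap.comp_apply, ContinuousLinearMap.inl_apply,
    ContinuousLinearMap.inr_apply, ← map_add, Prod.mk_add_mk, add_zero, zero_add]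

/-- The momentum along a curve is differentiable where the curve is regular. -/
theorem RotFin.mom_diff (h : RotFin F) {γ : ℝ → ℝ × ℝ} (hγ : ContDiff ℝ 2 γ) {t : ℝ}
    (ht : deriv γ t ≠ 0) :
    DifferentiableAt ℝ (fun s => dV F (γ s) (deriv γ s)) t := by
  have h1 : HasDerivAt γ (deriv γ t) t := (hγ.differentiable (by simp)).differentiableAt.hasDerivAt
  have h2 : HasDerivAt (deriv γ) (deriv (deriv γ) t) t := by
    have h3 : ContDiff ℝ 1 (deriv γ) := (contDiff_succ_iff_deriv (n := 1).1 hγ).2.2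
    exact (h3.differentiable (by simp)).differentiableAt.hasDerivAt
  have h3 := h.dV_diff (z := (γ t, deriv γ t)) ht
  exact (h3.hasFDerivAt.comp_hasDerivAt t (h1.prodMk h2)).differentiableAt

/-- The geodesic equation for positive times. -/
def Geo (F : (ℝ × ℝ) × (ℝ × ℝ) → ℝ) (γ : ℝ → ℝ × ℝ) : Prop :=
  ∀ t : ℝ, 0 < t → deriv (fun s => dV F (γ s) (deriv γ s)) t = dQ F (γ t) (deriv γ t)

theorem RotFin.energy_zero (h : RotFin F) {γ : ℝ → ℝ × ℝ} (hγ : ContDiff ℝ 2 γ) (hg : Geo F γ)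
    {t : ℝ} (h0 : 0 < t) (ht : deriv γ t ≠ 0) :
    HasDerivAt (fun s => F (γ s, deriv γ s) ^ 2) 0 t := by
  have hE := h.energy_hasDerivAt hγ ht
  have hm := (h.mom_diff hγ ht).hasDerivAt
  rw [hg t h0] at hm
  have h3 : ContDiff ℝ 1 (deriv γ) := (contDiff_succ_iff_deriv (n := 1).1 hγ).2.2
  have h2 : HasDerivAt (deriv γ) (deriv (deriv γ) t) t :=
    (h3.differentiable (by simp)).differentiableAt.hasDerivAt
  have h4 := hm.clm_apply h2
  have h5 : (fun s => dV F (γ s) (deriv γ s) (deriv γ s)) =ᶠ[𝓝 t]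
      fun s => 2 * F (γ s, deriv γ s) ^ 2 := by
    have h6 : ∀ᶠ s in 𝓝 t, deriv γ s ≠ 0 := h3.continuous.continuousAt.eventually_ne ht
    filter_upwards [h6] with s hs
    exact h.euler _ hs
  have h6 := (hE.const_mul 2).congr_of_eventuallyEq h5
  have h7 := h6.unique h4
  refine hE.congr_deriv ?_
  linarith

/-- The speed is constant for nonnegative times. -/
theorem RotFin.speed (h : RotFin F) {γ : ℝ → ℝ × ℝ} (hγ : ContDiff ℝ 2 γ) (hg : Geo F γ)
    {b : ℝ} (hb : 0 ≤ b) (hne : ∀ t, 0 < t → t < b → deriv γ t ≠ 0) :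
    F (γ b, deriv γ b) ^ 2 = F (γ 0, deriv γ 0) ^ 2 := by
  have hc : Continuous (fun s => F (γ s, deriv γ s) ^ 2) := by
    have h3 : ContDiff ℝ 1 (deriv γ) := (contDiff_succ_iff_deriv (n := 1).1 hγ).2.2
    exact (h.cont.comp (hγ.continuous.prodMk h3.continuous)).pow 2
  rcases hb.lt_or_eq with hb | hb
  · obtain ⟨c, hc1, hc2⟩ := exists_hasDerivAt_eq_slope (fun s => F (γ s, deriv γ s) ^ 2)
      (fun _ => 0) hb hc.continuousOn
      (fun t ht => h.energy_zero hγ hg ht.1 (hne t ht.1 ht.2))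
    have h4 : b - 0 ≠ 0 := by linarith
    field_simp at hc2
    linarith
  · rw [← hb]

/-- A geodesic stays regular for nonnegative times. -/
theorem RotFin.regular (h : RotFin F) {γ : ℝ → ℝ × ℝ} (hγ : ContDiff ℝ 2 γ) (hg : Geo F γ)
    (h0 : deriv γ 0 ≠ 0) {t : ℝ} (ht : 0 ≤ t) : deriv γ t ≠ 0 := by
  intro hz
  have hcd : Continuous (deriv γ) := (contDiff_succ_iff_deriv (n := 1).1 hγ).2.2.continuous
  set Z : Set ℝ := Ici 0 ∩ (deriv γ) ⁻¹' {0} with hZ
  have hcl : IsClosed Z := isClosed_Ici.inter (isClosed_singleton.preimage hcd)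
  have hnon : Z.Nonempty := ⟨t, ht, hz⟩
  have hbd : BddBelow Z := ⟨0, fun x hx => hx.1⟩
  have hmem := hcl.csInf_mem hnon hbd
  have h1 := h.speed hγ hg (b := sInf Z) hmem.1 (fun s hs hs2 hs3 =>
    absurd (csInf_le hbd (show s ∈ Z from ⟨hs.le, hs3⟩)) (not_le.2 hs2))
  have h2 : deriv γ (sInf Z) = 0 := hmem.2
  rw [h2, h.zero] at h1
  have h3 := h.pos (γ 0) h0
  have h4 : 0 < F (γ 0, deriv γ 0) ^ 2 := by positivity
  rw [← h1] at h4
  norm_num at h4

/-- Zero angular momentum is preserved. -/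
theorem RotFin.mom (h : RotFin F) {γ : ℝ → ℝ × ℝ} (hγ : ContDiff ℝ 2 γ) (hg : Geo F γ)
    (h0 : deriv γ 0 ≠ 0) (hm : dV F (γ 0) (deriv γ 0) (0, 1) = 0) {t : ℝ} (ht : 0 ≤ t) :
    dV F (γ t) (deriv γ t) (0, 1) = 0 := by
  rcases ht.lt_or_eq with ht | ht
  · have hd : ∀ s, 0 ≤ s → HasDerivAt (fun s => dV F (γ s) (deriv γ s) (0, 1))
        (deriv (fun s => dV F (γ s) (deriv γ s)) s (0, 1)) s := by
      intro s hs
      have h1 := (h.mom_diff hγ (h.regular hγ hg h0 hs)).hasDerivAt.clm_apply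
        (hasDerivAt_const s ((0 : ℝ), (1 : ℝ)))
      simp only [map_zero, add_zero] at h1
      exact h1
    obtain ⟨c, hc1, hc2⟩ := exists_hasDerivAt_eq_slope
      (fun s => dV F (γ s) (deriv γ s) (0, 1))
      (fun s => deriv (fun s => dV F (γ s) (deriv γ s)) s (0, 1)) ht
      (fun s hs => (hd s hs.1).continuousAt.continuousWithinAt)
      (fun s hs => hd s hs.1.le)
    rw [hg c hc1.1, h.dQ_circle _ (h.regular hγ hg h0 hc1.1.le), hm, eq_comm,
      div_eq_zero_iff] at hc2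
    rcases hc2 with hc2 | hc2 <;> linarith
  · rw [← ht]; exact hm

/-- The first component keeps its sign. -/
theorem RotFin.sign (h : RotFin F) {γ : ℝ → ℝ × ℝ} (hγ : ContDiff ℝ 2 γ) (hg : Geo F γ)
    {e : ℝ} (he : e ≠ 0) (h0 : (deriv γ 0).1 = e) (hm : dV F (γ 0) (deriv γ 0) (0, 1) = 0)
    {t : ℝ} (ht : 0 ≤ t) : 0 < e * (deriv γ t).1 := by
  have hne0 : deriv γ 0 ≠ 0 := by
    intro hz
    rw [hz] at h0
    exact he h0.symm
  have hcd : Continuous (deriv γ) := (contDiff_succ_iff_deriv (n := 1).1 hγ).2.2.continuous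
  by_contra hneg
  rw [not_lt] at hneg
  have hc : ContinuousOn (fun s => e * (deriv γ s).1) (Icc 0 t) := by fun_prop
  have h1 : 0 < e * (deriv γ 0).1 := by rw [h0]; exact mul_self_pos.2 he
  obtain ⟨s, hs, hs2⟩ := intermediate_value_Icc' ht hc (show (0 : ℝ) ∈ _ from ⟨hneg, h1.le⟩)
  have h2 : (deriv γ s).1 = 0 := by
    rcases mul_eq_zero.1 hs2 with h3 | h3
    · exact absurd h3 he
    · exact h3
  have h3 : deriv γ s = (deriv γ s).2 • ((0 : ℝ), (1 : ℝ)) := by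
    ext <;> simp [h2]
  have h4 := h.euler (γ s) (h.regular hγ hg hne0 hs.1)
  have h5 := h.mom hγ hg hne0 hm hs.1
  have h6 : dV F (γ s) (deriv γ s) (deriv γ s) = 0 := by
    calc dV F (γ s) (deriv γ s) (deriv γ s)
        = dV F (γ s) (deriv γ s) ((deriv γ s).2 • ((0 : ℝ), (1 : ℝ))) := by rw [← h3]
      _ = 0 := by rw [map_smul, h5, smul_zero]
  rw [h6] at h4
  have h7 := h.pos (γ s) (h.regular hγ hg hne0 hs.1)
  have h8 : 0 < F (γ s, deriv γ s) ^ 2 := by positivity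
  linarith

end Pool.Agent.FHT
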