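import Pool.Agent.FHT.Place

/-!
# FHT.Meas: the same for two probability measures without large atoms

PROOF. (`k = 0` is trivial, so `m ≥ 1`.) Let `N = 4 m q M` with `M` large. For a probability `ρ` on
`range D` with cumulative sums `c(i) = ∑_{i' < i} ρ i'` let `F(j)`, `j < N`, be the least `i` with
`j < N c(i+1)` (`F(j) < D` as `c(D) = 1`). `F` is monotone; `F(j) = i` implies `N c(i) ≤ j < N c(i+1)`,
so each fibre has at most `N ρ i + 1` elements. Let `Z` be the set of the `(j, j')` with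
`(F₁ j, F₂ j') ∈ bad`; `|Z| ≤ ∑_bad (N ρ₁ + 1)(N ρ₂ + 1) ≤ N^2 ∑_bad ρ₁ ρ₂ + 2 N D + D^2
≤ N^2/(128 m w) + 2 N D + D^2 ≤ N^2/(64 m w)` for `M` large. `place` gives positions `a', b'`; put
`a = F₁ ∘ a'`, `b = F₂ ∘ b'`. They are monotone, and injective: if `F(j) = F(j') = i` with `j + M ≤ j'` then
the fibre has at least `M + 1` elements (or: `N c(i) ≤ j`, `j + M ≤ j' < N c(i+1)`), so `M < N ρ i ≤
N/(8 m q) = M/2`, a contradiction.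
-/

namespace FHT

open Finset

open Classical in
private theorem Meas_quant {D N : ℕ} (ρ : ℕ → ℝ) (h : ∀ i, 0 ≤ ρ i)
    (hs : ∑ i ∈ range D, ρ i = 1) : ∃ F : ℕ → ℕ, (∀ j < N, F j < D) ∧
      (∀ j < N, (N : ℝ) * ∑ i ∈ range (F j), ρ i ≤ j) ∧
      (∀ j < N, (j : ℝ) < (N : ℝ) * ∑ i ∈ range (F j + 1), ρ i) ∧
      ∀ j j', j ≤ j' → j' < N → F j ≤ F j' := by
  have hD : 1 ≤ D := by
    rcases Nat.eq_zero_or_pos D with h0 | h0
    · subst h0; simp at hs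
    · exact h0
  have hex : ∀ j < N, ∃ i, (j : ℝ) < (N : ℝ) * ∑ i' ∈ range (i + 1), ρ i' := by
    intro j hj
    refine ⟨D - 1, ?_⟩
    rw [Nat.sub_add_cancel hD, hs, mul_one]
    exact_mod_cast hj
  refine ⟨fun j => if h : ∃ i, (j : ℝ) < (N : ℝ) * ∑ i' ∈ range (i + 1), ρ i' then
    Nat.find h else 0, ?_, ?_, ?_, ?_⟩
  · intro j hj
    simp only [dif_pos (hex j hj)]
    have : Nat.find (hex j hj) ≤ D - 1 := by
      apply Nat.find_min'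
      rw [Nat.sub_add_cancel hD, hs, mul_one]
      exact_mod_cast hj
    omega
  · intro j hj
    simp only [dif_pos (hex j hj)]
    rcases Nat.eq_zero_or_pos (Nat.find (hex j hj)) with h0 | h0
    · rw [h0]; simp
    · have h1 := Nat.find_min (hex j hj) (m := Nat.find (hex j hj) - 1) (by omega)
      rw [Nat.sub_add_cancel h0] at h1
      exact not_lt.1 h1
  · intro j hj
    simp only [dif_pos (hex j hj)]
    exact Nat.find_spec (hex j hj)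
  · intro j j' hjj hj'
    have hj : j < N := lt_of_le_of_lt hjj hj'
    simp only [dif_pos (hex j hj), dif_pos (hex j' hj')]
    apply Nat.find_min'
    refine lt_of_le_of_lt ?_ (Nat.find_spec (hex j' hj'))
    exact_mod_cast hjj

private theorem Meas_fib {N : ℕ} (ρ : ℕ → ℝ) (h : ∀ i, 0 ≤ ρ i) (F : ℕ → ℕ)
    (h1 : ∀ j < N, (N : ℝ) * ∑ i ∈ range (F j), ρ i ≤ j)
    (h2 : ∀ j < N, (j : ℝ) < (N : ℝ) * ∑ i ∈ range (F j + 1), ρ i) (i : ℕ) :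
    (((range N).filter fun j => F j = i).card : ℝ) ≤ N * ρ i + 1 := by
  set x : ℝ := (N : ℝ) * ∑ i' ∈ range i, ρ i' with hx
  have hx0 : 0 ≤ x := mul_nonneg (Nat.cast_nonneg _) (sum_nonneg fun i _ => h i)
  have hN0 : 0 ≤ (N : ℝ) * ρ i := mul_nonneg (Nat.cast_nonneg _) (h i)
  have hxy : (N : ℝ) * ∑ i' ∈ range (i + 1), ρ i' = x + N * ρ i := by
    rw [sum_range_succ, mul_add]
  have hsub : ((range N).filter fun j => F j = i) ⊆ Finset.Ico ⌈x⌉₊ ⌈x + N * ρ i⌉₊ := by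
    intro j hj
    rw [mem_filter, mem_range] at hj
    have h3 := h1 j hj.1
    have h4 := h2 j hj.1
    rw [hj.2] at h3 h4
    rw [hxy] at h4
    rw [Finset.mem_Ico]
    exact ⟨Nat.ceil_le.2 h3, Nat.lt_ceil.2 h4⟩
  have h5 := card_le_card hsub
  rw [Nat.card_Ico] at h5
  have h6 : (⌈x + N * ρ i⌉₊ : ℝ) < x + N * ρ i + 1 := Nat.ceil_lt_add_one (by linarith)
  have h7 : x ≤ (⌈x⌉₊ : ℝ) := Nat.le_ceil x
  have h8 : ⌈x⌉₊ ≤ ⌈x + N * ρ i⌉₊ := Nat.ceil_le_ceil (by linarith)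
  have h9 : (((range N).filter fun j => F j = i).card : ℝ) ≤
      ((⌈x + N * ρ i⌉₊ - ⌈x⌉₊ : ℕ) : ℝ) := by exact_mod_cast h5
  rw [Nat.cast_sub h8] at h9
  linarith

private theorem Meas_card {N D : ℕ} (ρ₁ ρ₂ : ℕ → ℝ) (h1 : ∀ i, 0 ≤ ρ₁ i) (h2 : ∀ i, 0 ≤ ρ₂ i)
    (hs1 : ∑ i ∈ range D, ρ₁ i = 1) (hs2 : ∑ i ∈ range D, ρ₂ i = 1)
    (F G : ℕ → ℕ)
    (hF : ∀ i, (((range N).filter fun j => F j = i).card : ℝ) ≤ N * ρ₁ i + 1)
    (hG : ∀ i, (((range N).filter fun j => G j = i).card : ℝ) ≤ N * ρ₂ i + 1)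
    (bad : Finset (ℕ × ℕ)) (hbad : bad ⊆ range D ×ˢ range D) :
    ((((range N) ×ˢ (range N)).filter fun z => (F z.1, G z.2) ∈ bad).card : ℝ) ≤
      (N : ℝ) ^ 2 * ∑ z ∈ bad, ρ₁ z.1 * ρ₂ z.2 + 2 * N * D + (D : ℝ) ^ 2 := by
  classical
  have e1 : ((range N) ×ˢ (range N)).filter (fun z => (F z.1, G z.2) ∈ bad) =
      bad.biUnion fun y => ((range N).filter fun j => F j = y.1) ×ˢ
        ((range N).filter fun j => G j = y.2) := by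
    ext ⟨u, v⟩
    simp only [mem_filter, mem_product, mem_range, mem_biUnion]
    constructor
    · rintro ⟨⟨hu, hv⟩, hb⟩
      exact ⟨_, hb, ⟨hu, rfl⟩, ⟨hv, rfl⟩⟩
    · rintro ⟨⟨y1, y2⟩, hy, ⟨hu, hu'⟩, ⟨hv, hv'⟩⟩
      refine ⟨⟨hu, hv⟩, ?_⟩
      simp only at hu' hv'
      rw [hu', hv']
      exact hy
  have e2 : ((((range N) ×ˢ (range N)).filter fun z => (F z.1, G z.2) ∈ bad).card : ℝ) ≤
      ∑ y ∈ bad, ((N : ℝ) * ρ₁ y.1 + 1) * (N * ρ₂ y.2 + 1) := by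
    rw [e1]
    have h3 : ((bad.biUnion fun y => ((range N).filter fun j => F j = y.1) ×ˢ
        ((range N).filter fun j => G j = y.2)).card : ℝ) ≤
        ∑ y ∈ bad, (((((range N).filter fun j => F j = y.1) ×ˢ
        ((range N).filter fun j => G j = y.2)).card : ℕ) : ℝ) := by
      exact_mod_cast card_biUnion_le
    refine h3.trans (sum_le_sum fun y _ => ?_)
    rw [card_product]
    push_cast
    have h4 : (0 : ℝ) ≤ N * ρ₁ y.1 + 1 := by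
      have := mul_nonneg (Nat.cast_nonneg (α := ℝ) N) (h1 y.1)
      linarith
    exact mul_le_mul (hF _) (hG _) (Nat.cast_nonneg _) h4
  refine e2.trans ?_
  have h5 : ∑ y ∈ bad, ρ₁ y.1 ≤ (D : ℝ) := by
    calc ∑ y ∈ bad, ρ₁ y.1 ≤ ∑ y ∈ range D ×ˢ range D, ρ₁ y.1 :=
          sum_le_sum_of_subset_of_nonneg hbad fun _ _ _ => h1 _
      _ = (D : ℝ) := by
          rw [sum_product_right]
          simp [hs1]
  have h6 : ∑ y ∈ bad, ρ₂ y.2 ≤ (D : ℝ) := by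
    calc ∑ y ∈ bad, ρ₂ y.2 ≤ ∑ y ∈ range D ×ˢ range D, ρ₂ y.2 :=
          sum_le_sum_of_subset_of_nonneg hbad fun _ _ _ => h2 _
      _ = (D : ℝ) := by
          rw [sum_product]
          simp [hs2]
  have h7 : (bad.card : ℝ) ≤ (D : ℝ) ^ 2 := by
    have := card_le_card hbad
    rw [card_product, card_range] at this
    have h8 : (bad.card : ℝ) ≤ ((D * D : ℕ) : ℝ) := by exact_mod_cast this
    push_cast at h8
    nlinarith
  have h9 : ∑ y ∈ bad, ((N : ℝ) * ρ₁ y.1 + 1) * (N * ρ₂ y.2 + 1) =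
      (N : ℝ) ^ 2 * ∑ z ∈ bad, ρ₁ z.1 * ρ₂ z.2 + N * ∑ y ∈ bad, ρ₁ y.1 +
        N * ∑ y ∈ bad, ρ₂ y.2 + bad.card := by
    have h10 : ∀ y : ℕ × ℕ, ((N : ℝ) * ρ₁ y.1 + 1) * (N * ρ₂ y.2 + 1) =
        (N : ℝ) ^ 2 * (ρ₁ y.1 * ρ₂ y.2) + N * ρ₁ y.1 + N * ρ₂ y.2 + 1 := by
      intro y
      ring
    simp_rw [h10, sum_add_distrib, mul_sum]
    simp
  rw [h9]
  have hN : (0 : ℝ) ≤ N := Nat.cast_nonneg _
  nlinarith [mul_le_mul_of_nonneg_left h5 hN, mul_le_mul_of_nonneg_left h6 hN]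

private theorem Meas_inj {N M K : ℕ} (hN : N = K * M) (hM : 1 ≤ M) (ρ : ℕ → ℝ)
    (ha : ∀ i, 2 * (K : ℝ) * ρ i ≤ 1) (F : ℕ → ℕ)
    (h1 : ∀ j < N, (N : ℝ) * ∑ i ∈ range (F j), ρ i ≤ j)
    (h2 : ∀ j < N, (j : ℝ) < (N : ℝ) * ∑ i ∈ range (F j + 1), ρ i)
    (hmono : ∀ j j', j ≤ j' → j' < N → F j ≤ F j') {u v : ℕ} (huv : u + M ≤ v) (hv : v < N) :
    F u < F v := by
  refine lt_of_le_of_ne (hmono u v (by omega) hv) fun heq => ?_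
  have h3 := h1 u (by omega)
  have h4 := h2 v hv
  rw [← heq, sum_range_succ, mul_add] at h4
  have h5 : (u : ℝ) + M ≤ v := by exact_mod_cast huv
  have h6 : (M : ℝ) < N * ρ (F u) := by linarith
  have h7 := ha (F u)
  have hM0 : (1 : ℝ) ≤ M := by exact_mod_cast hM
  rw [hN] at h6
  push_cast at h6
  nlinarith

theorem meas {k q m w D : ℕ} (σ : Equiv.Perm (Fin k)) (hq : 1 ≤ q) (hm : k ≤ m * q) (hw : 1 ≤ w)
    (hc : Cells σ q w) (ρ₁ ρ₂ : ℕ → ℝ) (h1 : ∀ i, 0 ≤ ρ₁ i) (h2 : ∀ i, 0 ≤ ρ₂ i)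
    (hs1 : ∑ i ∈ range D, ρ₁ i = 1) (hs2 : ∑ i ∈ range D, ρ₂ i = 1)
    (ha1 : ∀ i, 8 * (m : ℝ) * q * ρ₁ i ≤ 1) (ha2 : ∀ i, 8 * (m : ℝ) * q * ρ₂ i ≤ 1)
    (bad : Finset (ℕ × ℕ)) (hbad : bad ⊆ range D ×ˢ range D)
    (hb : 128 * (m : ℝ) * w * ∑ z ∈ bad, ρ₁ z.1 * ρ₂ z.2 ≤ 1) :
    ∃ a b : Fin k → ℕ, StrictMono a ∧ StrictMono b ∧ (∀ i, a i < D) ∧ (∀ i, b i < D) ∧
      ∀ i, (a i, b (σ i)) ∉ bad := by
  classical
  rcases Nat.eq_zero_or_pos k with hk | hk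
  · subst hk
    exact ⟨fun i => 0, fun i => 0, fun i => i.elim0, fun i => i.elim0, fun i => i.elim0,
      fun i => i.elim0, fun i => i.elim0⟩
  have hm1 : 1 ≤ m := by
    rcases Nat.eq_zero_or_pos m with h0 | h0
    · subst h0; simp at hm; omega
    · exact h0
  have hD : 1 ≤ D := by
    rcases Nat.eq_zero_or_pos D with h0 | h0
    · subst h0; simp at hs1
    · exact h0
  obtain ⟨M, hM⟩ : ∃ M, M = 128 * m * w * (2 * D + D ^ 2) := ⟨_, rfl⟩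
  have hM1 : 1 ≤ M := by
    rw [hM]
    have : 0 < 128 * m * w * (2 * D + D ^ 2) := by positivity
    exact this
  obtain ⟨N, hN⟩ : ∃ N, N = 4 * m * q * M := ⟨_, rfl⟩
  have hNM : M ≤ N := by
    rw [hN]
    have : 1 ≤ 4 * m * q := by
      have : 0 < 4 * m * q := by positivity
      exact this
    exact Nat.le_mul_of_pos_left M this
  obtain ⟨F, hF1, hF2, hF3, hF4⟩ := Meas_quant (N := N) ρ₁ h1 hs1
  obtain ⟨G, hG1, hG2, hG3, hG4⟩ := Meas_quant (N := N) ρ₂ h2 hs2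
  have hcard := Meas_card (N := N) ρ₁ ρ₂ h1 h2 hs1 hs2 F G (Meas_fib ρ₁ h1 F hF2 hF3)
    (Meas_fib ρ₂ h2 G hG2 hG3) bad hbad
  obtain ⟨Z, hZ⟩ : ∃ Z, Z = ((range N) ×ˢ (range N)).filter fun z => (F z.1, G z.2) ∈ bad :=
    ⟨_, rfl⟩
  rw [← hZ] at hcard
  have hZ1 : Z ⊆ range (4 * m * q * M) ×ˢ range (4 * m * q * M) := by
    rw [hZ, ← hN]
    exact filter_subset _ _
  have hZ2 : 64 * m * w * Z.card ≤ (4 * m * q * M) ^ 2 := by
    rw [← hN]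
    have hN1 : (1 : ℝ) ≤ N := by
      have : 1 ≤ N := hM1.trans hNM
      exact_mod_cast this
    have hNM' : 128 * (m : ℝ) * w * (2 * D + (D : ℝ) ^ 2) ≤ N := by
      have : M ≤ N := hNM
      rw [hM] at this
      exact_mod_cast this
    have hD1 : (1 : ℝ) ≤ D := by exact_mod_cast hD
    have hmw : (0 : ℝ) ≤ 64 * (m : ℝ) * w := by positivity
    have h3 : 64 * (m : ℝ) * w * Z.card ≤ 64 * (m : ℝ) * w *
        ((N : ℝ) ^ 2 * ∑ z ∈ bad, ρ₁ z.1 * ρ₂ z.2 + 2 * N * D + (D : ℝ) ^ 2) :=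
      mul_le_mul_of_nonneg_left hcard hmw
    have h4 : 64 * (m : ℝ) * w * ((N : ℝ) ^ 2 * ∑ z ∈ bad, ρ₁ z.1 * ρ₂ z.2) ≤ (N : ℝ) ^ 2 / 2 := by
      have := mul_le_mul_of_nonneg_left hb (show (0 : ℝ) ≤ (N : ℝ) ^ 2 / 2 by positivity)
      calc 64 * (m : ℝ) * w * ((N : ℝ) ^ 2 * ∑ z ∈ bad, ρ₁ z.1 * ρ₂ z.2) =
          (N : ℝ) ^ 2 / 2 * (128 * (m : ℝ) * w * ∑ z ∈ bad, ρ₁ z.1 * ρ₂ z.2) := by ring
        _ ≤ (N : ℝ) ^ 2 / 2 := by linarith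
    have h5 : 64 * (m : ℝ) * w * (2 * N * D + (D : ℝ) ^ 2) ≤ (N : ℝ) ^ 2 / 2 := by
      have h6 : 2 * (N : ℝ) * D + (D : ℝ) ^ 2 ≤ N * (2 * D + (D : ℝ) ^ 2) := by
        have : (D : ℝ) ^ 2 ≤ N * (D : ℝ) ^ 2 := le_mul_of_one_le_left (by positivity) hN1
        linarith
      calc 64 * (m : ℝ) * w * (2 * N * D + (D : ℝ) ^ 2) ≤
          64 * (m : ℝ) * w * (N * (2 * D + (D : ℝ) ^ 2)) := mul_le_mul_of_nonneg_left h6 hmw
        _ = (N : ℝ) / 2 * (128 * (m : ℝ) * w * (2 * D + (D : ℝ) ^ 2)) := by ring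
        _ ≤ (N : ℝ) / 2 * N := by
          apply mul_le_mul_of_nonneg_left hNM'
          positivity
        _ = (N : ℝ) ^ 2 / 2 := by ring
    have h7 : 64 * (m : ℝ) * w * Z.card ≤ (N : ℝ) ^ 2 := by
      calc _ ≤ _ := h3
        _ = 64 * (m : ℝ) * w * ((N : ℝ) ^ 2 * ∑ z ∈ bad, ρ₁ z.1 * ρ₂ z.2) +
          64 * (m : ℝ) * w * (2 * N * D + (D : ℝ) ^ 2) := by ring
        _ ≤ _ := by linarith
    exact_mod_cast h7
  obtain ⟨a', b', ha', hb', hai, hbi, hab⟩ := place σ hq hM1 hm hc Z hZ1 hZ2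
  have haN : ∀ i, a' i < N := fun i => by rw [hN]; exact ha' i
  have hbN : ∀ i, b' i < N := fun i => by rw [hN]; exact hb' i
  have hA1 : ∀ i, 2 * ((4 * m * q : ℕ) : ℝ) * ρ₁ i ≤ 1 := by
    intro i
    refine le_trans (le_of_eq ?_) (ha1 i)
    push_cast
    ring
  have hA2 : ∀ i, 2 * ((4 * m * q : ℕ) : ℝ) * ρ₂ i ≤ 1 := by
    intro i
    refine le_trans (le_of_eq ?_) (ha2 i)
    push_cast
    ring
  refine ⟨fun i => F (a' i), fun i => G (b' i), ?_, ?_, fun i => hF1 _ (haN i),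
    fun i => hG1 _ (hbN i), ?_⟩
  · intro i j hij
    exact Meas_inj (K := 4 * m * q) hN hM1 ρ₁ hA1 F hF2 hF3 hF4 (hai i j hij) (haN j)
  · intro i j hij
    exact Meas_inj (K := 4 * m * q) hN hM1 ρ₂ hA2 G hG2 hG3 hG4 (hbi i j hij) (hbN j)
  · intro i hi
    refine hab i ?_
    rw [hZ, mem_filter, mem_product, mem_range, mem_range]
    exact ⟨⟨haN i, hbN (σ i)⟩, hi⟩

end FHT
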