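import Pool.Agent.FHT.Defs

/-!
# FHT.Mg: marginals of prefixes

PROOF. `sum_digits`: induction on `m` (`range ((m+1) D) = range (m D + D)`, `Finset.sum_range_add` or
`Finset.prod_range_add`). `mg_row`: `mg (a+1) b u v` is the sum over `x < D^(a+1) = D * D^a`; write
`x = i D^a + x'` (`sum_digits`), `u D^(a+1) + x = (u D + i) D^a + x'`. `mg_col`: the same (exchange the sums).
`exists_of_mg_ne`: a nonzero sum has a nonzero term.
-/

namespace FHT

open Finset

theorem sum_digits {M : Type*} [AddCommMonoid M] (m D : ℕ) (f : ℕ → M) :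
    ∑ z ∈ range (m * D), f z = ∑ u ∈ range m, ∑ i ∈ range D, f (u * D + i) := by
  induction m with
  | zero => rw [Nat.zero_mul, Finset.sum_range_zero, Finset.sum_range_zero]
  | succ m ih => rw [Nat.succ_mul, Finset.sum_range_add, ih, Finset.sum_range_succ]

variable {D : ℕ} {p : ℕ → ℕ → ℝ}

theorem mg_zero (D : ℕ) (p : ℕ → ℕ → ℝ) (u v : ℕ) : mg D p 0 0 u v = p u v := by
  unfold mg
  rw [pow_zero, Finset.sum_range_one, Finset.sum_range_one, mul_one, mul_one, add_zero, add_zero]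

theorem mg_nonneg (hp : ∀ x y, 0 ≤ p x y) (a b u v : ℕ) : 0 ≤ mg D p a b u v :=
  Finset.sum_nonneg fun _ _ => Finset.sum_nonneg fun _ _ => hp _ _

theorem mg_row (D : ℕ) (p : ℕ → ℕ → ℝ) (a b u v : ℕ) :
    mg D p (a + 1) b u v = ∑ i ∈ range D, mg D p a b (u * D + i) v := by
  unfold mg
  rw [pow_succ' D a, sum_digits]
  refine Finset.sum_congr rfl fun i _ => Finset.sum_congr rfl fun x _ =>
    Finset.sum_congr rfl fun y _ => ?_
  congr 1
  ring

theorem mg_col (D : ℕ) (p : ℕ → ℕ → ℝ) (a b u v : ℕ) :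
    mg D p a (b + 1) u v = ∑ j ∈ range D, mg D p a b u (v * D + j) := by
  unfold mg
  rw [Finset.sum_comm]
  rw [pow_succ' D b, sum_digits]
  refine Finset.sum_congr rfl fun j _ => ?_
  rw [Finset.sum_comm]
  refine Finset.sum_congr rfl fun x _ => Finset.sum_congr rfl fun y _ => ?_
  congr 1
  ring

/-- the total mass does not depend on the length of the prefixes -/
theorem mg_total (D : ℕ) (p : ℕ → ℕ → ℝ) (a b S T : ℕ) :
    ∑ u ∈ range (D ^ S), ∑ v ∈ range (D ^ T), mg D p a b u v =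
      ∑ x ∈ range (D ^ (S + a)), ∑ y ∈ range (D ^ (T + b)), p x y := by
  rw [pow_add, sum_digits]
  refine Finset.sum_congr rfl fun u _ => ?_
  unfold mg
  rw [Finset.sum_comm]
  refine Finset.sum_congr rfl fun x _ => ?_
  rw [pow_add, sum_digits]

theorem exists_of_mg_ne {a b u v : ℕ} (h : mg D p a b u v ≠ 0) :
    ∃ x < D ^ a, ∃ y < D ^ b, p (u * D ^ a + x) (v * D ^ b + y) ≠ 0 := by
  unfold mg at h
  obtain ⟨x, hx, h1⟩ := Finset.exists_ne_zero_of_sum_ne_zero h
  obtain ⟨y, hy, h2⟩ := Finset.exists_ne_zero_of_sum_ne_zero h1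
  exact ⟨x, Finset.mem_range.1 hx, y, Finset.mem_range.1 hy, h2⟩

end FHT
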