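import Pool.Agent.FHT.Ros

/-!
# FHT.Place: placing the rows and columns of the pattern, avoiding a sparse set

PROOF. `k = 0` is trivial, so `m, q, M ≥ 1`; put `K = q * M` and cut `[0, 4 m q M)` into `2 m` intervals
`[2 K g, 2 K (g+1))`, `g < 2 m`. Let `e g h` be the number of elements of `Z` in the product of the intervals
`g` and `h`; `∑ e g h = |Z|`. Row `g` is bad if `4 w ∑_h e g h > K^2`; there are fewer than `m` bad rows,
otherwise `4 w |Z| > m K^2`, contrary to `hZ'` (`64 m w |Z| ≤ 16 m^2 K^2`). So there are strictly increasing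
`r, c : Fin m → ℕ` with values `< 2 m` whose rows, resp. columns, are good. Group `g < m` of the pattern:
the rows `i` with `i / q = g`. For `t ∈ Fin K` (`Ω = Fin K`) put row `i` of group `g` at
`2 K r(g) + t + (i % q) M`, similarly for the columns (with `c` and `t'`). Let `E g h` be the set of the
`(t, t') ∈ Ω × Ω` for which some `i` with `i / q = g`, `σ i / q = h` is placed in `Z`. For a fixed `i`
the map `(t, t') ↦` position is injective into the block `(r(g), c(h))`, so `|E g h| ≤ w e (r g) (c h)`, and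
`4 ∑_h |E g h| ≤ 4 w ∑_h e (r g) (c h) ≤ K^2`. `ros` gives `s`, `t`. Put
`a i = 2 K r(i / q) + s(i / q) + (i % q) M`. Within a group consecutive positions differ by `M`; the last
position of a group is `< 2 K r(g) + K + (q-1) M = 2 K (r(g)+1) - M`, and the next group starts at
`≥ 2 K (r(g) + 1)`.
-/

set_option linter.all false

namespace FHT

open Finset

private theorem place_good {m w K : ℕ} (hm : 1 ≤ m) (f : ℕ → ℕ)
    (hf : 4 * w * ∑ g ∈ range (2 * m), f g ≤ m * K ^ 2) :
    ∃ r : Fin m → ℕ, StrictMono r ∧ (∀ g, r g < 2 * m) ∧ ∀ g, 4 * w * f (r g) ≤ K ^ 2 := by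
  classical
  set bad := (range (2 * m)).filter (fun g => ¬ (4 * w * f g ≤ K ^ 2)) with hbad
  set good := (range (2 * m)).filter (fun g => 4 * w * f g ≤ K ^ 2) with hgood
  have hsum : good.card + bad.card = 2 * m := by
    rw [hbad, hgood, card_filter_add_card_filter_not, card_range]
  have hb : bad.card < m := by
    by_contra hcon
    push Not at hcon
    have h1 : bad.card * (K ^ 2 + 1) ≤ ∑ g ∈ bad, 4 * w * f g := by
      rw [← smul_eq_mul]
      refine card_nsmul_le_sum _ _ _ ?_
      intro g hg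
      rw [hbad, mem_filter] at hg
      have := hg.2
      omega
    have h2 : ∑ g ∈ bad, 4 * w * f g ≤ ∑ g ∈ range (2 * m), 4 * w * f g := by
      refine sum_le_sum_of_subset ?_
      exact filter_subset _ _
    have hf2 := hf
    rw [mul_sum] at hf2
    have h3 : m * (K ^ 2 + 1) ≤ bad.card * (K ^ 2 + 1) := Nat.mul_le_mul_right _ hcon
    have h4 : m * (K ^ 2 + 1) = m * K ^ 2 + m := by ring
    omega
  have hg : m ≤ good.card := by omega
  obtain ⟨T, hT, hTc⟩ := exists_subset_card_eq hg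
  refine ⟨fun i => T.orderEmbOfFin hTc i, ?_, ?_, ?_⟩
  · exact (T.orderEmbOfFin hTc).strictMono
  · intro g
    have := hT (T.orderEmbOfFin_mem hTc g)
    rw [hgood, mem_filter, mem_range] at this
    exact this.1
  · intro g
    have := hT (T.orderEmbOfFin_mem hTc g)
    rw [hgood, mem_filter, mem_range] at this
    exact this.2

private theorem place_pos {k q m M : ℕ} (hq : 1 ≤ q) (hM : 1 ≤ M)
    (r : Fin m → ℕ) (hr : StrictMono r) (hr2 : ∀ g, r g < 2 * m)
    (s : Fin m → Fin (q * M)) (grp : Fin k → Fin m) (hgrp : ∀ i, ((grp i : Fin m) : ℕ) = (i : ℕ) / q) :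
    (∀ i : Fin k, 2 * (q * M) * r (grp i) + (s (grp i) : ℕ) + ((i : ℕ) % q) * M < 4 * m * q * M) ∧
    (∀ i j : Fin k, i < j → 2 * (q * M) * r (grp i) + (s (grp i) : ℕ) + ((i : ℕ) % q) * M + M ≤
      2 * (q * M) * r (grp j) + (s (grp j) : ℕ) + ((j : ℕ) % q) * M) := by
  have hmod : ∀ i : ℕ, (i % q) * M + M ≤ q * M := by
    intro i
    have h1 : i % q < q := Nat.mod_lt _ hq
    have h2 : (i % q + 1) * M ≤ q * M := Nat.mul_le_mul_right _ h1
    calc (i % q) * M + M = (i % q + 1) * M := by ring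
      _ ≤ _ := h2
  have hblk : ∀ i : Fin k, ∀ n : ℕ, r (grp i) < n →
      2 * (q * M) * r (grp i) + (s (grp i) : ℕ) + ((i : ℕ) % q) * M + M < 2 * (q * M) * n + 0 + 0 + 0 := by
    intro i n hn
    have h1 := hmod i
    have h2 := (s (grp i)).isLt
    have h3 : 2 * (q * M) * (r (grp i) + 1) ≤ 2 * (q * M) * n := Nat.mul_le_mul_left _ hn
    have h4 : 2 * (q * M) * (r (grp i) + 1) = 2 * (q * M) * r (grp i) + 2 * (q * M) := by ring
    omega
  constructor
  · intro i
    have h1 := hblk i (2 * m) (hr2 _)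
    have h2 : 2 * (q * M) * (2 * m) = 4 * m * q * M := by ring
    omega
  · intro i j hij
    have hle : (i : ℕ) / q ≤ (j : ℕ) / q := Nat.div_le_div_right (le_of_lt hij)
    rcases lt_or_eq_of_le hle with hlt | heq
    · have hg : grp i < grp j := by
        rw [Fin.lt_def, hgrp, hgrp]; exact hlt
      have h1 := hblk i (r (grp j)) (hr hg)
      omega
    · have hg : grp i = grp j := by
        apply Fin.ext; rw [hgrp, hgrp]; exact heq
      rw [hg]
      have h1 : (i : ℕ) % q < (j : ℕ) % q := by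
        have e1 := Nat.div_add_mod (i : ℕ) q
        have e2 := Nat.div_add_mod (j : ℕ) q
        rw [heq] at e1
        have : (i : ℕ) < (j : ℕ) := hij
        omega
      have h2 : ((i : ℕ) % q + 1) * M ≤ ((j : ℕ) % q) * M := Nat.mul_le_mul_right _ h1
      have h3 : ((i : ℕ) % q + 1) * M = ((i : ℕ) % q) * M + M := by ring
      omega

private theorem place_inblk {q M : ℕ} (hM : 1 ≤ M) (hq : 1 ≤ q) (r t i : ℕ) (ht : t < q * M) :
    (2 * (q * M) * r + t + (i % q) * M) / (2 * (q * M)) = r := by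
  have h1 : i % q < q := Nat.mod_lt _ hq
  have h2 : (i % q + 1) * M ≤ q * M := Nat.mul_le_mul_right _ h1
  have h3 : (i % q + 1) * M = (i % q) * M + M := by ring
  rw [add_assoc, Nat.mul_add_div (by positivity), Nat.div_eq_of_lt (by omega)]
  omega

private theorem place_fib (Z : Finset (ℕ × ℕ)) (D m : ℕ) (c : Fin m → ℕ) (hc : Function.Injective c)
    (f : ℕ × ℕ → ℕ) :
    ∑ h : Fin m, (Z.filter (fun z => f z / D = c h)).card ≤ Z.card := by
  classical
  have h1 : ∑ x ∈ univ.image c, (Z.filter (fun z => f z / D = x)).card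
      = ∑ h : Fin m, (Z.filter (fun z => f z / D = c h)).card := by
    rw [sum_image]
    intro a _ b _ hab
    exact hc hab
  rw [← h1]
  have h2 := sum_card_fiberwise_eq_card_filter Z (univ.image c) (fun z => f z / D)
  rw [h2]
  exact card_le_card (filter_subset _ _)

theorem place {k q m w M : ℕ} (σ : Equiv.Perm (Fin k)) (hq : 1 ≤ q) (hM : 1 ≤ M) (hm : k ≤ m * q)
    (hc : Cells σ q w) (Z : Finset (ℕ × ℕ))
    (hZ : Z ⊆ range (4 * m * q * M) ×ˢ range (4 * m * q * M))
    (hZ' : 64 * m * w * Z.card ≤ (4 * m * q * M) ^ 2) :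
    ∃ a b : Fin k → ℕ, (∀ i, a i < 4 * m * q * M) ∧ (∀ i, b i < 4 * m * q * M) ∧
      (∀ i j, i < j → a i + M ≤ a j) ∧ (∀ i j, i < j → b i + M ≤ b j) ∧
      ∀ i, (a i, b (σ i)) ∉ Z := by
  classical
  rcases Nat.eq_zero_or_pos k with hk | hk
  · subst hk
    exact ⟨fun i => i.elim0, fun i => i.elim0, fun i => i.elim0, fun i => i.elim0,
      fun i => i.elim0, fun i => i.elim0, fun i => i.elim0⟩
  have hm1 : 1 ≤ m := by
    rcases Nat.eq_zero_or_pos m with h | h
    · subst h; simp at hm; omega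
    · exact h
  set K := q * M with hK
  have hK1 : 1 ≤ K := Nat.mul_pos hq hM
  have hcard : 4 * w * Z.card ≤ m * K ^ 2 := by
    have e1 : 64 * m * w * Z.card = (16 * m) * (4 * w * Z.card) := by ring
    have e2 : (4 * m * q * M) ^ 2 = (16 * m) * (m * K ^ 2) := by rw [hK]; ring
    rw [e1, e2] at hZ'
    exact Nat.le_of_mul_le_mul_left hZ' (by positivity)
  have hfib : ∀ f : ℕ × ℕ → ℕ, ∑ g ∈ range (2 * m), (Z.filter (fun z => f z / (2 * K) = g)).card
      ≤ Z.card := by
    intro f
    rw [sum_card_fiberwise_eq_card_filter Z (range (2 * m)) (fun z => f z / (2 * K))]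
    exact card_le_card (filter_subset _ _)
  obtain ⟨r, hr, hr2, hr3⟩ := place_good (w := w) (K := K) hm1
    (fun g => (Z.filter (fun z => z.1 / (2 * K) = g)).card)
    (le_trans (Nat.mul_le_mul_left _ (hfib (fun z => z.1))) hcard)
  obtain ⟨c, hcm, hc2, hc3⟩ := place_good (w := w) (K := K) hm1
    (fun g => (Z.filter (fun z => z.2 / (2 * K) = g)).card)
    (le_trans (Nat.mul_le_mul_left _ (hfib (fun z => z.2))) hcard)
  have hdiv : ∀ i : Fin k, (i : ℕ) / q < m := by
    intro i
    rw [Nat.div_lt_iff_lt_mul hq]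
    exact lt_of_lt_of_le i.isLt hm
  set grp : Fin k → Fin m := fun i => ⟨(i : ℕ) / q, hdiv i⟩ with hgrp
  have hgrp' : ∀ i, ((grp i : Fin m) : ℕ) = (i : ℕ) / q := fun i => rfl
  set pos : Fin k → Fin m → Fin m → Fin K × Fin K → ℕ × ℕ := fun i g h p =>
    (2 * K * r g + (p.1 : ℕ) + ((i : ℕ) % q) * M, 2 * K * c h + (p.2 : ℕ) + ((σ i : ℕ) % q) * M)
    with hpos
  set E : Fin m → Fin m → Finset (Fin K × Fin K) := fun g h =>
    (univ.filter (fun i : Fin k => grp i = g ∧ grp (σ i) = h)).biUnion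
      (fun i => univ.filter (fun p => pos i g h p ∈ Z)) with hE
  have hEc : ∀ g h, (E g h).card ≤
      w * (Z.filter (fun z => z.1 / (2 * K) = r g ∧ z.2 / (2 * K) = c h)).card := by
    intro g h
    refine le_trans (card_biUnion_le_card_mul _ _
      (Z.filter (fun z => z.1 / (2 * K) = r g ∧ z.2 / (2 * K) = c h)).card ?_) ?_
    · intro i hi
      refine card_le_card_of_injOn (pos i g h) ?_ ?_
      · intro p hp
        have hp' : pos i g h p ∈ Z := by simpa using hp
        simp only [coe_filter, Set.mem_setOf_eq]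
        refine ⟨hp', ?_, ?_⟩
        · exact place_inblk hM hq (r g) p.1 i p.1.isLt
        · exact place_inblk hM hq (c h) p.2 (σ i) p.2.isLt
      · intro p _ p' _ hpp
        rw [hpos] at hpp
        simp only [Prod.mk.injEq] at hpp
        have e1 : (p.1 : ℕ) = (p'.1 : ℕ) := by omega
        have e2 : (p.2 : ℕ) = (p'.2 : ℕ) := by omega
        exact Prod.ext (Fin.ext e1) (Fin.ext e2)
    · refine Nat.mul_le_mul_right _ (le_trans (le_of_eq ?_) (hc (g : ℕ) (h : ℕ)))
      congr 1
      apply filter_congr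
      intro i _
      rw [Fin.ext_iff, Fin.ext_iff, hgrp', hgrp']
  haveI : Nonempty (Fin K) := ⟨⟨0, hK1⟩⟩
  have hrow : ∀ g, 4 * ∑ h, (E g h).card ≤ Fintype.card (Fin K) ^ 2 := by
    intro g
    rw [Fintype.card_fin]
    refine le_trans ?_ (hr3 g)
    have h1 : ∑ h, (E g h).card ≤
        w * ∑ h, (Z.filter (fun z => z.1 / (2 * K) = r g ∧ z.2 / (2 * K) = c h)).card := by
      rw [mul_sum]
      exact sum_le_sum fun h _ => hEc g h
    have h2 := place_fib (Z.filter (fun z => z.1 / (2 * K) = r g)) (2 * K) m c hcm.injective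
      (fun z => z.2)
    simp only [filter_filter] at h2
    calc 4 * ∑ h, (E g h).card ≤ 4 * (w * ∑ h, (Z.filter
            (fun z => z.1 / (2 * K) = r g ∧ z.2 / (2 * K) = c h)).card) :=
          Nat.mul_le_mul_left _ h1
      _ ≤ 4 * (w * (Z.filter (fun z => z.1 / (2 * K) = r g)).card) :=
          Nat.mul_le_mul_left _ (Nat.mul_le_mul_left _ h2)
      _ = _ := by ring
  have hcol : ∀ h, 4 * ∑ g, (E g h).card ≤ Fintype.card (Fin K) ^ 2 := by
    intro h
    rw [Fintype.card_fin]
    refine le_trans ?_ (hc3 h)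
    have h1 : ∑ g, (E g h).card ≤
        w * ∑ g, (Z.filter (fun z => z.1 / (2 * K) = r g ∧ z.2 / (2 * K) = c h)).card := by
      rw [mul_sum]
      exact sum_le_sum fun g _ => hEc g h
    have h2 := place_fib (Z.filter (fun z => z.2 / (2 * K) = c h)) (2 * K) m r hr.injective
      (fun z => z.1)
    simp only [filter_filter] at h2
    have h3 : ∀ g : Fin m, (Z.filter (fun z => z.1 / (2 * K) = r g ∧ z.2 / (2 * K) = c h)).card
        = (Z.filter (fun z => z.2 / (2 * K) = c h ∧ z.1 / (2 * K) = r g)).card := by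
      intro g
      congr 1
      apply filter_congr
      intro z _
      exact And.comm
    calc 4 * ∑ g, (E g h).card ≤ 4 * (w * ∑ g, (Z.filter
            (fun z => z.1 / (2 * K) = r g ∧ z.2 / (2 * K) = c h)).card) :=
          Nat.mul_le_mul_left _ h1
      _ = 4 * (w * ∑ g, (Z.filter
            (fun z => z.2 / (2 * K) = c h ∧ z.1 / (2 * K) = r g)).card) := by
          simp only [h3]
      _ ≤ 4 * (w * (Z.filter (fun z => z.2 / (2 * K) = c h)).card) :=
          Nat.mul_le_mul_left _ (Nat.mul_le_mul_left _ h2)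
      _ = _ := by ring
  obtain ⟨s, t, hst⟩ := ros E hrow hcol
  obtain ⟨pa1, pa2⟩ := place_pos (k := k) hq hM r hr hr2 s grp hgrp'
  obtain ⟨pb1, pb2⟩ := place_pos (k := k) hq hM c hcm hc2 t grp hgrp'
  refine ⟨_, _, pa1, pb1, pa2, pb2, ?_⟩
  intro i hi
  refine hst (grp i) (grp (σ i)) ?_
  rw [hE]
  simp only [mem_biUnion, mem_filter, mem_univ, true_and]
  exact ⟨i, ⟨rfl, rfl⟩, hi⟩

end FHT
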