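import Pool.Agent.FHT.Defs

/-!
# FHT.Ros: a local lemma by counting (Rosenfeld)

PROOF. Variables `x_v`, `v ∈ V = Fin m ⊕ Fin m` (the `s g` and the `t h`), values in `Ω`, `N = |Ω|`. For a set
`S` of variables let `G(S)` be the number of `x : V → Ω` with `(x_g, x_h) ∉ E g h` for all `inl g, inr h ∈ S`.
Claim: `2 G(S ∪ {v}) ≥ G(S)` for all `S` and `v ∉ S`. Induction on `|S|`. The `x` counted by `G(S)` but not by
`G(S ∪ {v})` have `(x_v, x_u) ∈ E_vu` for some `u ∈ S`, and are good on `S \ {u}`. As being good on `S \ {u}`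
does not depend on `x_u`, `x_v`, the number of such `x` for a given `u` is `G(S \ {u}) |E_vu| / N^2`, and
`G(S \ {u}) ≤ 2 G(S)` by induction. So `G(S) - G(S ∪ {v}) ≤ ∑_u 2 G(S) |E_vu| / N^2 ≤ G(S)/2` by the
hypothesis. As `G(∅) = N^(2m) > 0`, all `G(S)` are positive; take `S = V`.
(It is convenient to prove it for a general finite type `V` and `E : V → V → Finset (Ω × Ω)` with the
condition `(x_u, x_v) ∉ E u v` for all `u, v ∈ S`, `u ≠ v`, where
`4 ∑_u (|E u v| + |E v u|) ≤ N^2` for each `v`.)
-/

namespace FHT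

open Finset

private theorem ros_upd {V Ω : Type} [DecidableEq V] (x : V → Ω) (u v : V) (huv : u ≠ v) (a b : Ω) :
    Function.update (Function.update (Function.update (Function.update x u a) v b) u (x u)) v (x v)
      = x := by
  funext w
  by_cases hv : w = v
  · subst hv; simp
  · by_cases hu : w = u
    · subst hu; simp [huv]
    · simp [hu, hv]

private theorem ros_indep {V Ω : Type} [Fintype V] [DecidableEq V] [Fintype Ω] [DecidableEq Ω]
    (A : (V → Ω) → Prop) [DecidablePred A] (Q : Finset (Ω × Ω)) (u v : V) (huv : u ≠ v)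
    (hA : ∀ x a b, A x → A (Function.update (Function.update x u a) v b)) :
    (univ.filter fun x : V → Ω => A x ∧ (x u, x v) ∈ Q).card * Fintype.card Ω ^ 2
      = (univ.filter fun x : V → Ω => A x).card * Q.card := by
  have e1 : Fintype.card Ω ^ 2 = (univ : Finset (Ω × Ω)).card := by
    rw [Finset.card_univ, Fintype.card_prod, sq]
  rw [e1, ← Finset.card_product, ← Finset.card_product]
  refine Finset.card_nbij'
    (fun z => (Function.update (Function.update z.1 u z.2.1) v z.2.2, (z.1 u, z.1 v)))
    (fun z => (Function.update (Function.update z.1 u z.2.1) v z.2.2, (z.1 u, z.1 v))) ?_ ?_ ?_ ?_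
  · rintro ⟨x, a, b⟩ hx
    simp only [Finset.coe_product, Finset.coe_filter, Finset.mem_univ, true_and, Set.mem_prod,
      Set.mem_setOf_eq, Finset.coe_univ, Set.mem_univ, and_true, Finset.mem_coe] at hx ⊢
    exact ⟨hA _ _ _ hx.1, hx.2⟩
  · rintro ⟨x, a, b⟩ hx
    simp only [Finset.coe_product, Finset.coe_filter, Finset.mem_univ, true_and, Set.mem_prod,
      Set.mem_setOf_eq, Finset.coe_univ, Set.mem_univ, and_true, Finset.mem_coe] at hx ⊢
    refine ⟨hA _ _ _ hx.1, ?_⟩
    simpa [huv] using hx.2
  · rintro ⟨x, a, b⟩ _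
    ext1
    · exact ros_upd x u v huv a b
    · simp [huv]
  · rintro ⟨x, a, b⟩ _
    ext1
    · exact ros_upd x u v huv a b
    · simp [huv]

/-- The good assignments on `S`. -/
private def rosG {V Ω : Type} [Fintype V] [DecidableEq V] [Fintype Ω] [DecidableEq Ω]
    (E : V → V → Finset (Ω × Ω)) (S : Finset V) : Finset (V → Ω) :=
  univ.filter fun x : V → Ω => ∀ u ∈ S, ∀ v ∈ S, u ≠ v → (x u, x v) ∉ E u v

private theorem ros_mem {V Ω : Type} [Fintype V] [DecidableEq V] [Fintype Ω] [DecidableEq Ω]
    (E : V → V → Finset (Ω × Ω)) (S : Finset V) (x : V → Ω) :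
    x ∈ rosG E S ↔ ∀ u ∈ S, ∀ v ∈ S, u ≠ v → (x u, x v) ∉ E u v := by
  simp [rosG]

private theorem ros_count {V Ω : Type} [Fintype V] [DecidableEq V] [Fintype Ω] [DecidableEq Ω]
    (E : V → V → Finset (Ω × Ω)) (S : Finset V) (Q : Finset (Ω × Ω)) (u v : V) (huv : u ≠ v)
    (hu : u ∉ S) (hv : v ∉ S) :
    ((rosG E S).filter fun x => (x u, x v) ∈ Q).card * Fintype.card Ω ^ 2
      = (rosG E S).card * Q.card := by
  have h := ros_indep (fun x : V → Ω => ∀ a ∈ S, ∀ b ∈ S, a ≠ b → (x a, x b) ∉ E a b) Q u v huv (by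
    intro x a b hx c hc d hd hcd
    have e1 : Function.update (Function.update x u a) v b c = x c := by
      have h1 : c ≠ v := fun h => hv (h ▸ hc)
      have h2 : c ≠ u := fun h => hu (h ▸ hc)
      simp [h1, h2]
    have e2 : Function.update (Function.update x u a) v b d = x d := by
      have h1 : d ≠ v := fun h => hv (h ▸ hd)
      have h2 : d ≠ u := fun h => hu (h ▸ hd)
      simp [h1, h2]
    rw [e1, e2]
    exact hx c hc d hd hcd)
  unfold rosG
  rw [Finset.filter_filter]
  exact h

private theorem ros_step {V Ω : Type} [Fintype V] [DecidableEq V] [Fintype Ω] [DecidableEq Ω]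
    (E : V → V → Finset (Ω × Ω))
    (hE : ∀ v, 4 * ∑ u, ((E u v).card + (E v u).card) ≤ Fintype.card Ω ^ 2)
    (hN : 0 < Fintype.card Ω) :
    ∀ n : ℕ, ∀ S : Finset V, S.card = n → ∀ v ∉ S, (rosG E S).card ≤ 2 * (rosG E (insert v S)).card := by
  intro n
  induction n using Nat.strong_induction_on with
  | _ n ih =>
    intro S hS v hv
    set N2 := Fintype.card Ω ^ 2 with hN2
    have hN2pos : 0 < N2 := by positivity
    -- the bad ones
    have hsub : rosG E S ⊆ rosG E (insert v S) ∪ S.biUnion (fun u =>
        ((rosG E (S.erase u)).filter fun x => (x u, x v) ∈ E u v) ∪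
        ((rosG E (S.erase u)).filter fun x => (x v, x u) ∈ E v u)) := by
      intro x hx
      by_contra hcon
      rw [Finset.mem_union, not_or, Finset.mem_biUnion] at hcon
      obtain ⟨h1, h2⟩ := hcon
      apply h1
      rw [ros_mem] at hx ⊢
      have hgood : ∀ u ∈ S, (x u, x v) ∉ E u v ∧ (x v, x u) ∉ E v u := by
        intro u hu
        have hxe : x ∈ rosG E (S.erase u) := by
          rw [ros_mem]
          intro a ha b hb hab
          exact hx a (Finset.mem_of_mem_erase ha) b (Finset.mem_of_mem_erase hb) hab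
        constructor
        · intro h
          exact h2 ⟨u, hu, Finset.mem_union_left _ (Finset.mem_filter.2 ⟨hxe, h⟩)⟩
        · intro h
          exact h2 ⟨u, hu, Finset.mem_union_right _ (Finset.mem_filter.2 ⟨hxe, h⟩)⟩
      intro a ha b hb hab
      rw [Finset.mem_insert] at ha hb
      rcases ha with rfl | ha
      · rcases hb with rfl | hb
        · exact absurd rfl hab
        · exact (hgood b hb).2
      · rcases hb with rfl | hb
        · exact (hgood a ha).1
        · exact hx a ha b hb hab
    have hcard : (rosG E S).card ≤ (rosG E (insert v S)).card + ∑ u ∈ S,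
        (((rosG E (S.erase u)).filter fun x => (x u, x v) ∈ E u v).card +
        ((rosG E (S.erase u)).filter fun x => (x v, x u) ∈ E v u).card) := by
      calc (rosG E S).card ≤ _ := Finset.card_le_card hsub
        _ ≤ _ := Finset.card_union_le _ _
        _ ≤ _ := by
          gcongr
          refine le_trans Finset.card_biUnion_le ?_
          exact Finset.sum_le_sum fun u _ => Finset.card_union_le _ _
    have hterm : ∀ u ∈ S,
        (((rosG E (S.erase u)).filter fun x => (x u, x v) ∈ E u v).card +
        ((rosG E (S.erase u)).filter fun x => (x v, x u) ∈ E v u).card) * N2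
        ≤ 2 * (rosG E S).card * ((E u v).card + (E v u).card) := by
      intro u hu
      have huv : u ≠ v := fun h => hv (h ▸ hu)
      have hvS : v ∉ S.erase u := fun h => hv (Finset.mem_of_mem_erase h)
      have c1 := ros_count E (S.erase u) (E u v) u v huv (Finset.notMem_erase u S) hvS
      have c2 := ros_count E (S.erase u) (E v u) v u huv.symm hvS (Finset.notMem_erase u S)
      have hlt : (S.erase u).card < n := by
        rw [← hS]; exact Finset.card_erase_lt_of_mem hu
      have hih := ih _ hlt (S.erase u) rfl u (Finset.notMem_erase u S)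
      rw [Finset.insert_erase hu] at hih
      rw [add_mul, c1, c2, ← mul_add]
      exact Nat.mul_le_mul_right _ hih
    have hsum : (∑ u ∈ S,
        (((rosG E (S.erase u)).filter fun x => (x u, x v) ∈ E u v).card +
        ((rosG E (S.erase u)).filter fun x => (x v, x u) ∈ E v u).card)) * N2
        ≤ 2 * (rosG E S).card * ∑ u, ((E u v).card + (E v u).card) := by
      rw [Finset.sum_mul, Finset.mul_sum]
      calc _ ≤ ∑ u ∈ S, 2 * (rosG E S).card * ((E u v).card + (E v u).card) :=
            Finset.sum_le_sum hterm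
        _ ≤ _ := Finset.sum_le_sum_of_subset (Finset.subset_univ S)
    have hEv := hE v
    set B := ∑ u ∈ S,
        (((rosG E (S.erase u)).filter fun x => (x u, x v) ∈ E u v).card +
        ((rosG E (S.erase u)).filter fun x => (x v, x u) ∈ E v u).card) with hB
    set T := ∑ u, ((E u v).card + (E v u).card) with hT
    have h3 : 2 * (B * N2) ≤ (rosG E S).card * N2 := by
      calc 2 * (B * N2) ≤ 2 * (2 * (rosG E S).card * T) := Nat.mul_le_mul_left _ hsum
        _ = (rosG E S).card * (4 * T) := by ring
        _ ≤ (rosG E S).card * N2 := Nat.mul_le_mul_left _ hEv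
    have h4 : 2 * B ≤ (rosG E S).card := by
      apply Nat.le_of_mul_le_mul_right _ hN2pos
      calc 2 * B * N2 = 2 * (B * N2) := by ring
        _ ≤ _ := h3
    omega

private theorem ros_gen {V Ω : Type} [Fintype V] [DecidableEq V] [Fintype Ω] [DecidableEq Ω]
    [Nonempty Ω] (E : V → V → Finset (Ω × Ω))
    (hE : ∀ v, 4 * ∑ u, ((E u v).card + (E v u).card) ≤ Fintype.card Ω ^ 2) :
    ∃ x : V → Ω, ∀ u v, u ≠ v → (x u, x v) ∉ E u v := by
  have hpos : ∀ S : Finset V, 0 < (rosG E S).card := by
    intro S
    induction S using Finset.induction_on with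
    | empty =>
      rw [Finset.card_pos]
      refine ⟨fun _ => Classical.arbitrary Ω, ?_⟩
      rw [ros_mem]
      intro u hu
      simp at hu
    | insert v S hv ihS =>
      have := ros_step E hE Fintype.card_pos S.card S rfl v hv
      omega
  obtain ⟨x, hx⟩ := Finset.card_pos.1 (hpos univ)
  rw [ros_mem] at hx
  exact ⟨x, fun u v huv => hx u (Finset.mem_univ _) v (Finset.mem_univ _) huv⟩

theorem ros {m : ℕ} {Ω : Type} [Fintype Ω] [DecidableEq Ω] [Nonempty Ω]
    (E : Fin m → Fin m → Finset (Ω × Ω))
    (h1 : ∀ g, 4 * ∑ h, (E g h).card ≤ Fintype.card Ω ^ 2)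
    (h2 : ∀ h, 4 * ∑ g, (E g h).card ≤ Fintype.card Ω ^ 2) :
    ∃ s t : Fin m → Ω, ∀ g h, (s g, t h) ∉ E g h := by
  obtain ⟨x, hx⟩ := ros_gen (V := Fin m ⊕ Fin m) (Ω := Ω)
    (fun u v => Sum.elim (fun g => Sum.elim (fun _ => ∅) (fun h => E g h) v) (fun _ => ∅) u) (by
      intro v
      rcases v with g | h
      · simpa [Fintype.sum_sum_type] using h1 g
      · simpa [Fintype.sum_sum_type] using h2 h)
  refine ⟨fun g => x (Sum.inl g), fun h => x (Sum.inr h), fun g h => ?_⟩
  have := hx (Sum.inl g) (Sum.inr h) (by simp)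
  simpa using this

end FHT
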