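import Pool.Agent.FHT.Win
import Pool.Agent.FHT.Meas

/-!
# FHT.Row: many heavy rows over few columns contain the pattern

PROOF. `k = 0` is trivial, so `m ≥ 1`, `D = 2^L ≥ 2` (by `hL`, `L ≥ 1`), `n ≥ 4096`, `log D = L log 2 ≤ L`. Let
`d(x)` be the number of ones of row `x`, `W = D^(16 n)`, and `p x y = 1/(W d(x))` if `x < W` and `(x,y) ∈ B`, else `0`.
The sum is `1`; `∑ negMulLog (p x y) = ∑ p (log W + log d(x)) ≥ log W + log ℓ ≥ (16 n + 7n/16) log D` (`d(x) ≥ ℓ ≥ 1`;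
`ℓ ≥ 1` because `log ℓ > 0`). Apply `window` with `τ = 1/(64 m q)`. Let `P = mg (a+1) (b+1) u v`,
`r i = mg a (b+1) (uD+i) v`, `c j = mg (a+1) b u (vD+j)`, `S1`, `S2` the two sums over small atoms. Let
`ρ₁ i = r i/S1` if `i < D` and `r i ≤ τ P`, else `0`; `ρ₂` similarly. Then `8 m q ρ₁ i ≤ 8 m q τ P/(P/8) = 1`. Let `bad` be
the set of the `(i,j)`, `i, j < D`, with `mg a b (uD+i) (vD+j) = 0`. Then
`∑_bad ρ₁ ρ₂ ≤ (log D/(2n)) P^2/(S1 S2) ≤ 64 log D/(2n) = 32 log D/n ≤ 32 L/n` and `128 m w 32 L/n ≤ 1` by `hn`. `meas`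
gives digits `a' i`, `b' j`. For each `i : Fin k`, `mg a b (uD + a' i) (vD + b' (σ i)) ≠ 0`, so (`exists_of_mg_ne`) there
are `x_i < D^a`, `y_i < D^b` with `p ≠ 0`, so `(X_i, Y_i) ∈ B`, `X_i = (uD + a' i) D^a + x_i`,
`Y_i = (vD + b' (σ i)) D^b + y_i`. The rows `i ↦ X_i` and the columns `j ↦ Y_(σ⁻¹ j)` are strictly increasing because
`a'`, `b'` are.
-/

namespace FHT

open Finset

open Classical in
private theorem Row_sum {W V : ℕ} (B : Finset (ℕ × ℕ)) (hB : B ⊆ range W ×ˢ range V) (x : ℕ) (c : ℝ) :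
    ∑ y ∈ range V, (if (x, y) ∈ B then c else 0) = ((B.filter fun z => z.1 = x).card : ℝ) * c := by
  rw [← sum_filter, sum_const, nsmul_eq_mul]
  congr 2
  refine card_bij (fun y _ => (x, y)) ?_ ?_ ?_
  · intro y hy
    rw [mem_filter] at hy ⊢
    exact ⟨hy.2, rfl⟩
  · intro y _ y' _ h
    exact (Prod.mk.inj h).2
  · rintro ⟨x', y⟩ hz
    rw [mem_filter] at hz
    obtain ⟨h1, h2⟩ := hz
    simp only at h2
    subst h2
    have h3 := hB h1
    rw [mem_product] at h3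
    exact ⟨y, mem_filter.2 ⟨h3.2, h1⟩, rfl⟩

private theorem Row_mono {M u x x' y y' : ℕ} (hx : x < x') (hy : y < M) :
    (u + x) * M + y < (u + x') * M + y' := by
  have h1 : (u + x + 1) * M ≤ (u + x') * M := Nat.mul_le_mul_right M (by omega)
  have h2 : (u + x + 1) * M = (u + x) * M + M := by ring
  omega

/-- normalised restriction to small atoms -/
private theorem Row_rho {D : ℕ} (r : ℕ → ℝ) (hr : ∀ i, 0 ≤ r i) {P τ : ℝ} (hP : 0 < P) (hτ : 0 < τ)
    (hS : P / 8 ≤ ∑ i ∈ (range D).filter (fun i => r i ≤ τ * P), r i) :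
    ∃ ρ : ℕ → ℝ, (∀ i, 0 ≤ ρ i) ∧ ∑ i ∈ range D, ρ i = 1 ∧ (∀ i, ρ i ≤ 8 * τ) ∧
      ∀ i, ρ i ≤ 8 / P * r i := by
  obtain ⟨S, hSdef⟩ : ∃ S, S = ∑ i ∈ (range D).filter (fun i => r i ≤ τ * P), r i := ⟨_, rfl⟩
  rw [← hSdef] at hS
  have hS0 : 0 < S := by linarith
  have hinv : 1 / S ≤ 8 / P := by
    rw [div_le_div_iff₀ hS0 hP]
    linarith
  refine ⟨fun i => if i < D ∧ r i ≤ τ * P then r i / S else 0, ?_, ?_, ?_, ?_⟩
  · intro i
    simp only
    split_ifs
    · exact div_nonneg (hr i) hS0.le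
    · exact le_rfl
  · have e1 : ∑ i ∈ range D, (if i < D ∧ r i ≤ τ * P then r i / S else 0) =
        ∑ i ∈ (range D).filter (fun i => r i ≤ τ * P), r i / S := by
      rw [sum_filter]
      refine sum_congr rfl fun i hi => ?_
      have hi' := mem_range.1 hi
      by_cases h : r i ≤ τ * P
      · rw [if_pos ⟨hi', h⟩, if_pos h]
      · rw [if_neg (fun h' => h h'.2), if_neg h]
    simp only
    rw [e1, ← sum_div, ← hSdef, div_self hS0.ne']
  · intro i
    simp only
    split_ifs with h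
    · rw [div_le_iff₀ hS0]
      calc r i ≤ τ * P := h.2
        _ = 8 * τ * (P / 8) := by ring
        _ ≤ 8 * τ * S := mul_le_mul_of_nonneg_left hS (by positivity)
    · positivity
  · intro i
    simp only
    split_ifs with h
    · calc r i / S = 1 / S * r i := by ring
        _ ≤ 8 / P * r i := mul_le_mul_of_nonneg_right hinv (hr i)
    · exact mul_nonneg (by positivity) (hr i)

theorem row {k q m w L n ℓ : ℕ} (σ : Equiv.Perm (Fin k)) (hq : 1 ≤ q) (hm : k ≤ m * q) (hw : 1 ≤ w)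
    (hc : Cells σ q w) (hL : 16 * (1 + Real.log (64 * m * q)) ≤ L * Real.log 2)
    (hn : 4096 * m * w * L ≤ n) (hℓ : 7 / 16 * (n : ℝ) * (L * Real.log 2) ≤ Real.log ℓ)
    (B : Finset (ℕ × ℕ)) (hB : B ⊆ range ((2 ^ L) ^ (16 * n)) ×ˢ range ((2 ^ L) ^ n))
    (hrow : ∀ x < (2 ^ L) ^ (16 * n), ℓ ≤ (B.filter fun z => z.1 = x).card) : Cont B σ := by
  classical
  rcases Nat.eq_zero_or_pos k with hk | hk
  · subst hk
    exact ⟨fun i => 0, fun i => 0, fun i => i.elim0, fun i => i.elim0, fun i => i.elim0⟩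
  have hm1 : 1 ≤ m := by
    rcases Nat.eq_zero_or_pos m with h0 | h0
    · subst h0; simp at hm; omega
    · exact h0
  have hmR : (1 : ℝ) ≤ m := by exact_mod_cast hm1
  have hqR : (1 : ℝ) ≤ q := by exact_mod_cast hq
  have hwR : (1 : ℝ) ≤ w := by exact_mod_cast hw
  have hmq : (1 : ℝ) ≤ (m : ℝ) * q := by nlinarith
  have hlog0 : 0 ≤ Real.log (64 * m * q) := Real.log_nonneg (by nlinarith)
  have hl2 : 0 < Real.log 2 := Real.log_pos (by norm_num)
  have hl21 : Real.log 2 ≤ 1 := by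
    have := Real.log_le_sub_one_of_pos (show (0 : ℝ) < 2 by norm_num)
    linarith
  have hL1 : 1 ≤ L := by
    rcases Nat.eq_zero_or_pos L with h0 | h0
    · subst h0
      simp at hL
      linarith
    · exact h0
  have hLR : (1 : ℝ) ≤ L := by exact_mod_cast hL1
  have hn1 : 1 ≤ n := by
    have : 0 < 4096 * m * w * L := by positivity
    omega
  have hnR : (1 : ℝ) ≤ n := by exact_mod_cast hn1
  obtain ⟨D, hD⟩ : ∃ D, D = 2 ^ L := ⟨_, rfl⟩
  rw [← hD] at hB hrow
  have hD2 : 2 ≤ D := by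
    rw [hD]
    calc 2 = 2 ^ 1 := rfl
      _ ≤ 2 ^ L := Nat.pow_le_pow_right (by norm_num) hL1
  have hlogD : Real.log D = L * Real.log 2 := by
    rw [hD]
    push_cast
    rw [Real.log_pow]
  have hD0 : 0 < D := by omega
  have hℓ1 : 1 ≤ ℓ := by
    rcases Nat.eq_zero_or_pos ℓ with h0 | h0
    · subst h0
      have : 0 < 7 / 16 * (n : ℝ) * (L * Real.log 2) := by positivity
      simp at hℓ
      nlinarith
    · exact h0
  have hℓR : (1 : ℝ) ≤ ℓ := by exact_mod_cast hℓ1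
  obtain ⟨W, hW⟩ : ∃ W, W = D ^ (16 * n) := ⟨_, rfl⟩
  have hW0 : 0 < W := by rw [hW]; positivity
  have hWR : (0 : ℝ) < W := by exact_mod_cast hW0
  have hlogW : Real.log W = 16 * n * Real.log D := by
    rw [hW]
    push_cast
    rw [Real.log_pow]
    push_cast
    ring
  rw [← hW] at hB hrow
  obtain ⟨d, hd⟩ : ∃ d : ℕ → ℕ, d = fun x => (B.filter fun z => z.1 = x).card := ⟨_, rfl⟩
  have hdℓ : ∀ x < W, ℓ ≤ d x := by rw [hd]; exact hrow
  obtain ⟨p, hp⟩ : ∃ p : ℕ → ℕ → ℝ, p = fun x y =>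
      if (x, y) ∈ B then 1 / ((W : ℝ) * d x) else 0 := ⟨_, rfl⟩
  have hp0 : ∀ x y, 0 ≤ p x y := by
    intro x y
    rw [hp]
    simp only
    split_ifs
    · positivity
    · exact le_rfl
  have hpB : ∀ x y, p x y ≠ 0 → (x, y) ∈ B := by
    intro x y h
    rw [hp] at h
    simp only at h
    by_contra h'
    exact h (if_neg h')
  have hsum : ∑ x ∈ range W, ∑ y ∈ range (D ^ n), p x y = 1 := by
    have h1 : ∀ x ∈ range W, ∑ y ∈ range (D ^ n), p x y = 1 / W := by
      intro x hx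
      rw [hp]
      simp only
      rw [Row_sum B hB x]
      have h2 : (0 : ℝ) < d x := by
        have := hdℓ x (mem_range.1 hx)
        have h3 : 0 < d x := by omega
        exact_mod_cast h3
      have h4 : ((B.filter fun z => z.1 = x).card : ℝ) = d x := by rw [hd]
      rw [h4]
      field_simp
    rw [sum_congr rfl h1, sum_const, card_range, nsmul_eq_mul]
    field_simp
  have hent : (16 * (n : ℝ) + 7 / 16 * n) * Real.log D ≤
      ∑ x ∈ range W, ∑ y ∈ range (D ^ n), Real.negMulLog (p x y) := by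
    have h1 : ∀ x ∈ range W, (Real.log W + Real.log ℓ) / W ≤
        ∑ y ∈ range (D ^ n), Real.negMulLog (p x y) := by
      intro x hx
      have h2 : (0 : ℝ) < d x := by
        have := hdℓ x (mem_range.1 hx)
        have h3 : 0 < d x := by omega
        exact_mod_cast h3
      have h4 : ((B.filter fun z => z.1 = x).card : ℝ) = d x := by rw [hd]
      have h5 : ∀ y ∈ range (D ^ n), Real.negMulLog (p x y) =
          if (x, y) ∈ B then Real.negMulLog (1 / ((W : ℝ) * d x)) else 0 := by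
        intro y _
        rw [hp]
        simp only
        split_ifs
        · rfl
        · exact Real.negMulLog_zero
      rw [sum_congr rfl h5, Row_sum B hB x, h4]
      have h6 : Real.negMulLog (1 / ((W : ℝ) * d x)) =
          (1 / ((W : ℝ) * d x)) * (Real.log W + Real.log (d x)) := by
        unfold Real.negMulLog
        rw [one_div, Real.log_inv, Real.log_mul hWR.ne' h2.ne']
        ring
      rw [h6]
      have h7 : (d x : ℝ) * (1 / ((W : ℝ) * d x) * (Real.log W + Real.log (d x))) =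
          (Real.log W + Real.log (d x)) / W := by
        field_simp
      rw [h7]
      have h8 : Real.log ℓ ≤ Real.log (d x) := by
        apply Real.log_le_log (by linarith)
        exact_mod_cast hdℓ x (mem_range.1 hx)
      exact div_le_div_of_nonneg_right (by linarith) hWR.le
    have h9 := sum_le_sum h1
    rw [sum_const, card_range, nsmul_eq_mul] at h9
    have h10 : (W : ℝ) * ((Real.log W + Real.log ℓ) / W) = Real.log W + Real.log ℓ := by
      field_simp
    rw [h10, hlogW] at h9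
    rw [← hlogD] at hℓ
    linarith
  rw [hW] at hsum hent
  obtain ⟨τ, hτ⟩ : ∃ τ : ℝ, τ = 1 / (64 * m * q) := ⟨_, rfl⟩
  have h64 : (0 : ℝ) < 64 * m * q := by nlinarith
  have hτ0 : 0 < τ := by rw [hτ]; positivity
  have hτ1 : τ ≤ 1 := by
    rw [hτ, div_le_one h64]
    nlinarith
  have hτ2 : 16 * (1 + Real.log (1 / τ)) ≤ Real.log D := by
    rw [hτ, one_div_one_div, hlogD]
    exact hL
  obtain ⟨a, b, u, v, ha, hb, hu, hv, hP, hS1, hS2, hmiss⟩ :=
    window hD2 hn1 p hp0 hsum hent hτ0 hτ1 hτ2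
  obtain ⟨P, hPdef⟩ : ∃ P, P = mg D p (a + 1) (b + 1) u v := ⟨_, rfl⟩
  rw [← hPdef] at hP hS1 hS2 hmiss
  obtain ⟨ρ₁, h11, h12, h13, h14⟩ := Row_rho (fun i => mg D p a (b + 1) (u * D + i) v)
    (fun i => mg_nonneg hp0 _ _ _ _) hP hτ0 hS1
  obtain ⟨ρ₂, h21, h22, h23, h24⟩ := Row_rho (fun j => mg D p (a + 1) b u (v * D + j))
    (fun i => mg_nonneg hp0 _ _ _ _) hP hτ0 hS2
  obtain ⟨bad, hbad⟩ : ∃ bad, bad = (range D ×ˢ range D).filter
      (fun z => mg D p a b (u * D + z.1) (v * D + z.2) = 0) := ⟨_, rfl⟩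
  rw [← hbad] at hmiss
  have hsumbad : ∑ z ∈ bad, ρ₁ z.1 * ρ₂ z.2 ≤ 32 * Real.log D / n := by
    have h1 : ∑ z ∈ bad, ρ₁ z.1 * ρ₂ z.2 ≤ ∑ z ∈ bad, 64 / P ^ 2 *
        (mg D p a (b + 1) (u * D + z.1) v * mg D p (a + 1) b u (v * D + z.2)) := by
      refine sum_le_sum fun z _ => ?_
      have h2 := mul_le_mul (h14 z.1) (h24 z.2) (h21 z.2) ((h11 z.1).trans (h14 z.1))
      refine h2.trans (le_of_eq ?_)
      field_simp
      ring
    rw [← mul_sum] at h1
    have h3 := mul_le_mul_of_nonneg_left hmiss (show (0 : ℝ) ≤ 64 / P ^ 2 by positivity)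
    refine h1.trans (h3.trans (le_of_eq ?_))
    field_simp
    ring
  have hb' : 128 * (m : ℝ) * w * ∑ z ∈ bad, ρ₁ z.1 * ρ₂ z.2 ≤ 1 := by
    have h1 : (0 : ℝ) ≤ 128 * (m : ℝ) * w := by positivity
    refine (mul_le_mul_of_nonneg_left hsumbad h1).trans ?_
    have h2 : Real.log D ≤ L := by
      rw [hlogD]
      nlinarith
    have h3 : 4096 * (m : ℝ) * w * L ≤ n := by exact_mod_cast hn
    have h4 : 128 * (m : ℝ) * w * (32 * Real.log D / n) = 4096 * m * w * Real.log D / n := by ring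
    rw [h4, div_le_one (by linarith)]
    have h5 : 4096 * (m : ℝ) * w * Real.log D ≤ 4096 * m * w * L :=
      mul_le_mul_of_nonneg_left h2 (by positivity)
    linarith
  have hatom : ∀ ρ : ℕ → ℝ, (∀ i, ρ i ≤ 8 * τ) → ∀ i, 8 * (m : ℝ) * q * ρ i ≤ 1 := by
    intro ρ h i
    have h1 := mul_le_mul_of_nonneg_left (h i) (show (0 : ℝ) ≤ 8 * (m : ℝ) * q by positivity)
    refine h1.trans (le_of_eq ?_)
    rw [hτ]
    field_simp
    ring
  obtain ⟨a', b', ham, hbm, haD, hbD, hab⟩ := meas σ hq hm hw hc ρ₁ ρ₂ h11 h21 h12 h22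
    (hatom ρ₁ h13) (hatom ρ₂ h23) bad (by rw [hbad]; exact filter_subset _ _) hb'
  have hex : ∀ i : Fin k, ∃ x y : ℕ, x < D ^ a ∧ y < D ^ b ∧
      ((u * D + a' i) * D ^ a + x, (v * D + b' (σ i)) * D ^ b + y) ∈ B := by
    intro i
    have h1 : mg D p a b (u * D + a' i) (v * D + b' (σ i)) ≠ 0 := by
      intro h0
      apply hab i
      rw [hbad, mem_filter, mem_product, mem_range, mem_range]
      exact ⟨⟨haD i, hbD (σ i)⟩, h0⟩
    obtain ⟨x, hx, y, hy, h2⟩ := exists_of_mg_ne h1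
    exact ⟨x, y, hx, hy, hpB _ _ h2⟩
  choose X Y hX hY hXY using hex
  refine ⟨fun i => (u * D + a' i) * D ^ a + X i,
    fun j => (v * D + b' j) * D ^ b + Y (σ.symm j), ?_, ?_, ?_⟩
  · intro i j hij
    exact Row_mono (ham hij) (hX i)
  · intro i j hij
    exact Row_mono (hbm hij) (hY _)
  · intro i
    have := hXY i
    simp only [Equiv.symm_apply_apply]
    exact this

end FHT
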