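import Pool.Agent.FHT.Geodesic

/-! If the circles in one direction do not become short towards an end, the Holmes-Thompson
volume of the end is infinite. -/

set_option autoImplicit false

open Set Filter Topology MeasureTheory

namespace Pool.Agent.FHT

variable {F : (ℝ × ℝ) × (ℝ × ℝ) → ℝ}

/-- The unit ball of the dual norm. -/
def dualBall (F : (ℝ × ℝ) × (ℝ × ℝ) → ℝ) (x : ℝ × ℝ) : Set (ℝ × ℝ) :=
  {ξ : ℝ × ℝ | ∀ v : ℝ × ℝ, F (x, v) ≤ 1 → ξ.1 * v.1 + ξ.2 * v.2 ≤ 1}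

theorem RotFin.dual_bound (h : RotFin F) (p : ℝ × ℝ) {v : ℝ × ℝ} (hv : v ≠ 0) (w : ℝ × ℝ)
    (hw : F (p, w) ≤ 1) :
    dV F p v (1, 0) / (2 * F (p, v)) * w.1 + dV F p v (0, 1) / (2 * F (p, v)) * w.2 ≤ 1 := by
  have h1 := h.fund p hv w
  have h2 := h.pos p hv
  have h3 : dV F p v w = dV F p v (1, 0) * w.1 + dV F p v (0, 1) * w.2 := by
    have h4 : w = w.1 • ((1 : ℝ), (0 : ℝ)) + w.2 • ((0 : ℝ), (1 : ℝ)) := by
      ext <;> simp
    calc dV F p v w = dV F p v (w.1 • ((1 : ℝ), (0 : ℝ)) + w.2 • ((0 : ℝ), (1 : ℝ))) := by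
          rw [← h4]
      _ = _ := by
          rw [map_add, map_smul, map_smul, smul_eq_mul, smul_eq_mul]; ring
  have h5 : dV F p v (1, 0) / (2 * F (p, v)) * w.1 + dV F p v (0, 1) / (2 * F (p, v)) * w.2
      = dV F p v w / (2 * F (p, v)) := by
    rw [h3]; ring
  rw [h5, div_le_one (by positivity)]
  calc dV F p v w ≤ 2 * F (p, v) * F (p, w) := h1
    _ ≤ 2 * F (p, v) * 1 := by gcongr
    _ = 2 * F (p, v) := mul_one _

/-- Lower bound for the area of the dual ball. -/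
theorem RotFin.dual_area (h : RotFin F) (p : ℝ × ℝ) {v : ℝ × ℝ} (hv : v.1 ≠ 0)
    (hm : dV F p v (0, 1) = 0) {f : ℝ} (hf : |f| = 1) :
    ENNReal.ofReal (F (p, v) / |v.1| * F (p, (0, f)) / 4) ≤ volume (dualBall F p) := by
  have hv0 : v ≠ 0 := by
    rintro rfl
    exact hv rfl
  have hf0 : f ≠ 0 := by
    rintro rfl
    norm_num at hf
  have hw0 : ((0 : ℝ), f) ≠ 0 := by simp [hf0]
  have hFv := h.pos p hv0
  have hFw := h.pos p hw0
  set a : ℝ := F (p, v) / v.1 with ha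
  set q : ℝ := dV F p (0, f) (1, 0) / (2 * F (p, (0, f))) with hq
  set b : ℝ := F (p, (0, f)) / f with hb
  have ha1 : dV F p v (1, 0) / (2 * F (p, v)) = a := by
    have h1 := h.euler p hv0
    have h2 : dV F p v v = v.1 * dV F p v (1, 0) := by
      have h4 : v = v.1 • ((1 : ℝ), (0 : ℝ)) + v.2 • ((0 : ℝ), (1 : ℝ)) := by
        ext <;> simp
      calc dV F p v v = dV F p v (v.1 • ((1 : ℝ), (0 : ℝ)) + v.2 • ((0 : ℝ), (1 : ℝ))) := by
            rw [← h4]
        _ = _ := by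
            rw [map_add, map_smul, map_smul, smul_eq_mul, smul_eq_mul, hm]; ring
    rw [h2] at h1
    rw [ha, div_eq_div_iff (by positivity) hv]
    linarith
  have hb1 : dV F p (0, f) (0, 1) / (2 * F (p, (0, f))) = b := by
    have h1 := h.euler p hw0
    have h2 : dV F p (0, f) (0, f) = f * dV F p (0, f) (0, 1) := by
      have h4 : ((0 : ℝ), f) = f • ((0 : ℝ), (1 : ℝ)) := by
        ext <;> simp
      calc dV F p (0, f) (0, f) = dV F p (0, f) (f • ((0 : ℝ), (1 : ℝ))) := by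
            rw [← h4]
        _ = _ := by
            rw [map_smul, smul_eq_mul]
    rw [h2] at h1
    rw [hb, div_eq_div_iff (by positivity) hf0]
    linarith
  have hd1 : ∀ w : ℝ × ℝ, F (p, w) ≤ 1 → a * w.1 ≤ 1 := by
    intro w hw
    have h1 := h.dual_bound p hv0 w hw
    rw [ha1, hm] at h1
    simpa using h1
  have hd2 : ∀ w : ℝ × ℝ, F (p, w) ≤ 1 → q * w.1 + b * w.2 ≤ 1 := by
    intro w hw
    have h1 := h.dual_bound p hw0 w hw
    rw [hb1] at h1
    exact h1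
  set A : (ℝ × ℝ) →ₗ[ℝ] (ℝ × ℝ) := Matrix.toLin (Module.Basis.finTwoProd ℝ)
    (Module.Basis.finTwoProd ℝ) !![a, q; 0, b] with hA
  have hdet : LinearMap.det A = a * b := by
    rw [hA, LinearMap.det_toLin, Matrix.det_fin_two_of]; ring
  have hsub : A '' (Icc (0 : ℝ) (1 / 2) ×ˢ Icc (0 : ℝ) (1 / 2)) ⊆ dualBall F p := by
    rintro _ ⟨x, hx, rfl⟩ w hw
    rw [hA, Matrix.toLin_finTwoProd_apply]
    obtain ⟨⟨h1, h2⟩, h3, h4⟩ := hx
    have h5 := hd1 w hw
    have h6 := hd2 w hw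
    simp only
    nlinarith [mul_le_mul_of_nonneg_left h5 h1, mul_le_mul_of_nonneg_left h6 h3]
  refine le_trans ?_ (measure_mono hsub)
  rw [Measure.addHaar_image_linearMap, hdet, Measure.volume_eq_prod, Measure.prod_prod,
    Real.volume_Icc, ← ENNReal.ofReal_mul (by norm_num), ← ENNReal.ofReal_mul (abs_nonneg _)]
  apply ENNReal.ofReal_le_ofReal
  rw [ha, hb, abs_mul, abs_div, abs_div, hf, abs_of_pos hFv, abs_of_pos hFw]
  apply le_of_eq; ring

theorem RotFin.dualBall_inv (h : RotFin F) {x y : ℝ × ℝ} (hxy : x.1 = y.1) :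
    dualBall F x = dualBall F y := by
  have h1 : ∀ v, F (x, v) = F (y, v) := by
    intro v
    have h2 := h.inv y v (x.2 - y.2)
    have h3 : (y.1, y.2 + (x.2 - y.2)) = x := by
      ext
      · exact hxy.symm
      · simp
    rw [h3] at h2
    exact h2
  unfold dualBall
  simp only [h1]

/-- The map which sweeps out an end. -/
theorem sweep_hasFDerivAt {γ : ℝ → ℝ × ℝ} (hγ : ContDiff ℝ 2 γ) (z : ℝ × ℝ) :
    HasFDerivAt (fun z : ℝ × ℝ => ((γ z.1).1, z.2))
      (LinearMap.toContinuousLinearMap (Matrix.toLin (Module.Basis.finTwoProd ℝ)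
        (Module.Basis.finTwoProd ℝ) !![(deriv γ z.1).1, 0; 0, 1])) z := by
  have h1 : HasDerivAt γ (deriv γ z.1) z.1 :=
    (hγ.differentiable (by simp)).differentiableAt.hasDerivAt
  have h2 : HasDerivAt (fun t => (γ t).1) (deriv γ z.1).1 z.1 := h1.fst
  have h3 : HasFDerivAt (fun z : ℝ × ℝ => (γ z.1).1)
      ((deriv γ z.1).1 • ContinuousLinearMap.fst ℝ ℝ ℝ) z :=
    h2.comp_hasFDerivAt z hasFDerivAt_fst
  refine (h3.prodMk hasFDerivAt_snd).congr_fderiv ?_
  rw [Matrix.toLin_finTwoProd_toContinuousLinearMap]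
  ext <;> simp

/-- If the circles in the direction f are bounded below towards the end e, the volume is
infinite. -/
theorem RotFin.volume_top (h : RotFin F)
    (hcomp : ∀ x v : ℝ × ℝ, v ≠ 0 → ∃ γ : ℝ → ℝ × ℝ, ContDiff ℝ 2 γ ∧ γ 0 = x ∧ deriv γ 0 = v ∧
      Geo F γ)
    {e f y0 ε : ℝ} (he : e ≠ 0) (hf : |f| = 1) (hε : 0 < ε)
    (hb : ∀ y : ℝ, 0 ≤ e * (y - y0) → ε ≤ F ((y, 0), (0, f))) :
    ∫⁻ x in (Set.univ : Set ℝ) ×ˢ Set.Ico (0 : ℝ) (2 * Real.pi), volume (dualBall F x) = ⊤ := by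
  obtain ⟨s0, hs0⟩ := h.init (y0, 0) he
  have hne : ((e, s0) : ℝ × ℝ) ≠ 0 := by simp [he]
  obtain ⟨γ, hγ, hγ0, hγ1, hg⟩ := hcomp (y0, 0) (e, s0) hne
  have hm : dV F (γ 0) (deriv γ 0) (0, 1) = 0 := by rw [hγ0, hγ1]; exact hs0
  have hne' : deriv γ 0 ≠ 0 := by rw [hγ1]; exact hne
  have hsign : ∀ t, 0 ≤ t → 0 < e * (deriv γ t).1 := fun t ht =>
    h.sign hγ hg he (by rw [hγ1]) hm ht
  have hne1 : ∀ t, 0 ≤ t → (deriv γ t).1 ≠ 0 := by
    intro t ht h0
    have h1 := hsign t ht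
    rw [h0, mul_zero] at h1
    exact lt_irrefl _ h1
  have hder : ∀ t, HasDerivAt (fun t => e * (γ t).1) (e * (deriv γ t).1) t := by
    intro t
    have h1 : HasDerivAt γ (deriv γ t) t :=
      (hγ.differentiable (by simp)).differentiableAt.hasDerivAt
    have h2 : HasDerivAt (fun t => (γ t).1) (deriv γ t).1 t := h1.fst
    exact h2.const_mul e
  have hmono : StrictMonoOn (fun t => e * (γ t).1) (Ici 0) := by
    refine strictMonoOn_of_deriv_pos (convex_Ici 0)
      (fun t _ => (hder t).continuousAt.continuousWithinAt) ?_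
    intro t ht
    rw [interior_Ici] at ht
    rw [(hder t).deriv]
    exact hsign t (le_of_lt ht)
  have hspeed : ∀ t, 0 ≤ t → F (γ t, deriv γ t) = F (γ 0, deriv γ 0) := by
    intro t ht
    have h1 := h.speed hγ hg ht (fun s hs _ => h.regular hγ hg hne' hs.le)
    exact (pow_left_inj₀ (h.nonneg _) (h.nonneg _) two_ne_zero).1 h1
  set c : ℝ := F (γ 0, deriv γ 0) with hc
  have hcpos : 0 < c := h.pos _ hne'
  set s : Set (ℝ × ℝ) := Ici (0 : ℝ) ×ˢ Ico (0 : ℝ) (2 * Real.pi) with hs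
  have hsm : MeasurableSet s := measurableSet_Ici.prod measurableSet_Ico
  have hinj : InjOn (fun z : ℝ × ℝ => ((γ z.1).1, z.2)) s := by
    rintro ⟨t1, θ1⟩ h1 ⟨t2, θ2⟩ h2 h3
    simp only [Prod.mk.injEq] at h3
    have h4 : t1 = t2 := hmono.injOn h1.1 h2.1 (by simp only [h3.1])
    rw [h4, h3.2]
  have himg := lintegral_image_eq_lintegral_abs_det_fderiv_mul (volume : Measure (ℝ × ℝ)) hsm
    (fun z _ => (sweep_hasFDerivAt hγ z).hasFDerivWithinAt) hinj
    (fun x => volume (dualBall F x))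
  have hsub : (fun z : ℝ × ℝ => ((γ z.1).1, z.2)) '' s ⊆
      (Set.univ : Set ℝ) ×ˢ Set.Ico (0 : ℝ) (2 * Real.pi) := by
    rintro _ ⟨z, hz, rfl⟩
    exact ⟨mem_univ _, hz.2⟩
  have hlow : ∀ z ∈ s, ENNReal.ofReal (c * ε / 4) ≤
      ENNReal.ofReal |(LinearMap.toContinuousLinearMap (Matrix.toLin (Module.Basis.finTwoProd ℝ)
        (Module.Basis.finTwoProd ℝ) !![(deriv γ z.1).1, 0; 0, 1])).det| *
        volume (dualBall F ((γ z.1).1, z.2)) := by
    intro z hz
    have hz1 : 0 ≤ z.1 := hz.1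
    have h1 := h.dual_area (γ z.1) (hne1 z.1 hz1)
      (h.mom hγ hg hne' hm hz1) hf
    have h2 : (LinearMap.toContinuousLinearMap (Matrix.toLin (Module.Basis.finTwoProd ℝ)
        (Module.Basis.finTwoProd ℝ) !![(deriv γ z.1).1, 0; 0, 1])).det = (deriv γ z.1).1 := by
      rw [LinearMap.det_toContinuousLinearMap, LinearMap.det_toLin, Matrix.det_fin_two_of]; ring
    rw [h2, h.dualBall_inv (x := ((γ z.1).1, z.2)) (y := γ z.1) rfl]
    refine le_trans ?_ (mul_le_mul_right h1 _)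
    rw [← ENNReal.ofReal_mul (abs_nonneg _)]
    apply ENNReal.ofReal_le_ofReal
    rw [hspeed z.1 hz1]
    have h3 : ε ≤ F (γ z.1, (0, f)) := by
      have h4 : F (γ z.1, (0, f)) = F (((γ z.1).1, 0), (0, f)) := by
        have h5 := h.inv ((γ z.1).1, 0) (0, f) (γ z.1).2
        simp only [zero_add] at h5
        exact h5
      rw [h4]
      apply hb
      have h5 := hmono.monotoneOn (show (0 : ℝ) ∈ Ici (0 : ℝ) from le_refl (0 : ℝ)) hz.1 hz1
      simp only [hγ0] at h5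
      linarith
    have h4 : 0 < |(deriv γ z.1).1| := abs_pos.2 (hne1 z.1 hz1)
    have h5 : |(deriv γ z.1).1| * (c / |(deriv γ z.1).1| * F (γ z.1, (0, f)) / 4)
        = c * F (γ z.1, (0, f)) / 4 := by
      field_simp
    rw [h5]
    gcongr
  have hvol : volume s = ⊤ := by
    rw [hs, Measure.volume_eq_prod, Measure.prod_prod, Real.volume_Ici, Real.volume_Ico]
    rw [ENNReal.top_mul]
    simp [Real.pi_pos]
  rw [eq_top_iff]
  calc (⊤ : ENNReal) = ENNReal.ofReal (c * ε / 4) * volume s := by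
        rw [hvol, ENNReal.mul_top]
        simp only [ne_eq, ENNReal.ofReal_eq_zero, not_le]
        positivity
    _ = ∫⁻ _ in s, ENNReal.ofReal (c * ε / 4) := by rw [setLIntegral_const]
    _ ≤ ∫⁻ z in s, ENNReal.ofReal |(LinearMap.toContinuousLinearMap (Matrix.toLin
          (Module.Basis.finTwoProd ℝ)
          (Module.Basis.finTwoProd ℝ) !![(deriv γ z.1).1, 0; 0, 1])).det| *
          volume (dualBall F ((γ z.1).1, z.2)) := setLIntegral_mono' hsm hlow
    _ = ∫⁻ x in (fun z : ℝ × ℝ => ((γ z.1).1, z.2)) '' s, volume (dualBall F x) := himg.symm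
    _ ≤ _ := lintegral_mono_set hsub

end Pool.Agent.FHT
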